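import Mathlib

set_option autoImplicit false

/-!
# Homomorphisms of finite abelian groups: an upper bound for their number
-/

namespace Pool.Agent.V146.QT

/-- an embedding of the cyclic group of order `m` in the units of `ℂ` -/
theorem cyc_embed (m : ℕ) (hm : 1 ≤ m) : ∃ ψ : Multiplicative (ZMod m) →* ℂˣ, Function.Injective ψ := by
  have : NeZero m := ⟨by omega⟩
  refine ⟨(ZMod.stdAddChar (N := m)).toMonoidHom.toHomUnits, ?_⟩
  intro a b h
  have h1 : (ZMod.stdAddChar (N := m)) (Multiplicative.toAdd a) =
      (ZMod.stdAddChar (N := m)) (Multiplicative.toAdd b) := by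
    have h2 := congrArg Units.val h
    simpa using h2
  exact Multiplicative.toAdd.injective (ZMod.injective_stdAddChar h1)

theorem hom_card_le (A : Type) [CommGroup A] [Finite A] (m : ℕ) (hm : 1 ≤ m) :
    Nat.card (A →* Multiplicative (ZMod m)) ≤ Nat.card {a : A // a ^ m = 1} := by
  obtain ⟨ψ, hψ⟩ := cyc_embed m hm
  have : NeZero m := ⟨by omega⟩
  have : NeZero ((Monoid.exponent A : ℕ) : ℂ) :=
    ⟨by exact_mod_cast (Monoid.exponent_ne_zero_of_finite (G := A))⟩
  obtain ⟨e⟩ := CommGroup.monoidHom_mulEquiv_of_hasEnoughRootsOfUnity A ℂ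
  have hz : ∀ x : Multiplicative (ZMod m), x ^ m = 1 := by
    intro x
    apply Multiplicative.toAdd.injective
    rw [toAdd_pow, toAdd_one, nsmul_eq_mul, ZMod.natCast_self, zero_mul]
  let Φ : (A →* Multiplicative (ZMod m)) → {a : A // a ^ m = 1} := fun f =>
    ⟨e (ψ.comp f), by
      rw [← map_pow]
      have h1 : (ψ.comp f) ^ m = 1 := by
        ext a
        rw [MonoidHom.pow_apply, MonoidHom.comp_apply, ← map_pow, hz, map_one, MonoidHom.one_apply]
      rw [h1, map_one]⟩
  have hΦ : Function.Injective Φ := by
    intro f g h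
    have h1 : e (ψ.comp f) = e (ψ.comp g) := congrArg Subtype.val h
    have h2 := e.injective h1
    apply MonoidHom.ext
    intro a
    exact hψ (DFunLike.congr_fun h2 a)
  exact Nat.card_le_card_of_injective Φ hΦ

/-- The number of surjections from a subgroup of `A` to a product of cyclic groups. -/
theorem sur_le (A : Type) [CommGroup A] [Finite A] (P : Subgroup A) (H : Type) [CommGroup H]
    {ι : Type} [Fintype ι] (m : ι → ℕ) (hm : ∀ j, 1 ≤ m j)
    (e : H ≃* ∀ j, Multiplicative (ZMod (m j))) :
    Nat.card {f : P →* H // Function.Surjective f} ≤ ∏ j, Nat.card {a : A // a ^ m j = 1} := by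
  have : ∀ j, NeZero (m j) := fun j => ⟨by have := hm j; omega⟩
  have hfin : ∀ j, Finite (P →* Multiplicative (ZMod (m j))) := fun j => by
    have : Finite (Multiplicative (ZMod (m j))) := inferInstanceAs (Finite (ZMod (m j)))
    exact Finite.of_injective (fun f : P →* Multiplicative (ZMod (m j)) => (f : P → _))
      DFunLike.coe_injective
  let Φ : {f : P →* H // Function.Surjective f} → ∀ j, (P →* Multiplicative (ZMod (m j))) :=
    fun f j => (Pi.evalMonoidHom (fun j => Multiplicative (ZMod (m j))) j).comp
      (e.toMonoidHom.comp f.1)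
  have hΦ : Function.Injective Φ := by
    intro f g h
    apply Subtype.ext
    apply MonoidHom.ext
    intro a
    apply e.injective
    funext j
    exact DFunLike.congr_fun (congrFun h j) a
  have h1 := Nat.card_le_card_of_injective Φ hΦ
  rw [Nat.card_pi] at h1
  refine h1.trans ?_
  apply Finset.prod_le_prod' 
  intro j _
  refine (hom_card_le P (m j) (hm j)).trans ?_
  refine Nat.card_le_card_of_injective
    (fun a : {a : P // a ^ m j = 1} => (⟨(a.1 : A), by
      have h2 := congrArg Subtype.val a.2
      simpa using h2⟩ : {a : A // a ^ m j = 1})) ?_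
  intro a b h
  have h3 : (a.1 : A) = (b.1 : A) := Subtype.mk.inj h
  exact Subtype.ext (Subtype.ext h3)

end Pool.Agent.V146.QT
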