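import Pool.Agent.V146.QT.Moment

set_option autoImplicit false

/-!
# Products of torsion numbers of class groups of quadratic fields, on average
-/

namespace Pool.Agent.V146.QT

open NumberField Finset Pool.Agent.TH869.EVF Pool.Agent.Y159.QS
open scoped Classical

theorem prod_le_sum_pow {ι : Type} [Fintype ι] [Nonempty ι] (a : ι → ℝ) (ha : ∀ j, 0 ≤ a j) :
    ∏ j, a j ≤ ∑ j, a j ^ Fintype.card ι := by
  obtain ⟨j0, -, hj0⟩ := Finset.exists_max_image (univ : Finset ι) a univ_nonempty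
  have h1 : ∏ j, a j ≤ ∏ _j : ι, a j0 :=
    Finset.prod_le_prod (fun j _ => ha j) (fun j _ => hj0 j (mem_univ j))
  rw [prod_const, card_univ] at h1
  refine h1.trans ?_
  exact Finset.single_le_sum (f := fun j => a j ^ Fintype.card ι)
    (fun j _ => pow_nonneg (ha j) _) (mem_univ j0)

/-- mean values of products with weights -/
theorem weights {ι : Type} [Fintype ι] [Nonempty ι] (S : Finset ℤ) (T : ι → ℤ → ℝ)
    (hT : ∀ j D, 0 ≤ T j D) (L : ι → ℝ) (hL : ∀ j, 0 < L j) (C : ι → ℝ) (V : ℝ)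
    (h : ∀ j, ∑ D ∈ S, T j D ^ Fintype.card ι ≤ C j * (L j ^ Fintype.card ι * V)) :
    ∑ D ∈ S, ∏ j, T j D ≤ (∑ j, C j) * V * ∏ j, L j := by
  have hP : 0 < ∏ j, L j := Finset.prod_pos fun j _ => hL j
  have h1 : ∀ D, ∏ j, T j D ≤ (∏ j, L j) * ∑ j, (T j D / L j) ^ Fintype.card ι := by
    intro D
    have h2 := prod_le_sum_pow (fun j => T j D / L j) (fun j => div_nonneg (hT j D) (hL j).le)
    rw [Finset.prod_div_distrib, div_le_iff₀ hP] at h2
    linarith
  calc ∑ D ∈ S, ∏ j, T j D ≤ ∑ D ∈ S, (∏ j, L j) * ∑ j, (T j D / L j) ^ Fintype.card ι :=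
        Finset.sum_le_sum fun D _ => h1 D
    _ = (∏ j, L j) * ∑ j, (1 / L j ^ Fintype.card ι) * ∑ D ∈ S, T j D ^ Fintype.card ι := by
        rw [← Finset.mul_sum, Finset.sum_comm]
        congr 1
        apply Finset.sum_congr rfl
        intro j _
        rw [Finset.mul_sum]
        apply Finset.sum_congr rfl
        intro D _
        rw [div_pow]; ring
    _ ≤ (∏ j, L j) * ∑ j, C j * V := by
        apply mul_le_mul_of_nonneg_left _ hP.le
        apply Finset.sum_le_sum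
        intro j _
        have hLj : 0 < L j ^ Fintype.card ι := pow_pos (hL j) _
        calc (1 / L j ^ Fintype.card ι) * ∑ D ∈ S, T j D ^ Fintype.card ι
            ≤ (1 / L j ^ Fintype.card ι) * (C j * (L j ^ Fintype.card ι * V)) := by
              apply mul_le_mul_of_nonneg_left (h j) (by positivity)
          _ = C j * V := by field_simp
    _ = _ := by rw [← Finset.sum_mul]; ring

/-- the scale `t = (H √X) ^ (1 / (l + 1))` -/
theorem scale {l r : ℕ} {X H : ℝ} (hH : 1 ≤ H) (hHX : H ≤ X)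
    (hc : (H * √X) ^ (3 * (r : ℝ) / ((l : ℝ) + 1)) ≤ H) :
    0 < (H * √X) ^ (1 / ((l : ℝ) + 1)) ∧ ((H * √X) ^ (1 / ((l : ℝ) + 1))) ^ (l + 1) = H * √X ∧
      ((H * √X) ^ (1 / ((l : ℝ) + 1))) ^ (3 * r) ≤ H := by
  have hX : 1 ≤ X := hH.trans hHX
  have hQ : 0 < H * √X := mul_pos (by linarith) (Real.sqrt_pos.mpr (by linarith))
  have hl : (0 : ℝ) < (l : ℝ) + 1 := by positivity
  refine ⟨Real.rpow_pos_of_pos hQ _, ?_, ?_⟩
  · rw [← Real.rpow_natCast, ← Real.rpow_mul hQ.le]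
    push_cast
    rw [one_div, inv_mul_cancel₀ hl.ne', Real.rpow_one]
  · refine le_trans (le_of_eq ?_) hc
    rw [← Real.rpow_natCast, ← Real.rpow_mul hQ.le]
    congr 1
    push_cast
    field_simp

/-- products of torsion numbers in short intervals -/
theorem prod_short {ι : Type} [Fintype ι] [Nonempty ι] (l : ι → ℕ) (hl : ∀ j, 1 ≤ l j)
    (hlr : ∀ j, Fintype.card ι ≤ l j + 1) (ε : ℝ) (hε : 0 < ε) : ∃ C : ℝ, 0 < C ∧
    ∀ X H : ℝ, 1 ≤ H → H ≤ X →
    (∀ j, (H * √X) ^ (3 * (Fintype.card ι : ℝ) / ((l j : ℝ) + 1)) ≤ H) →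
    ∀ (S : Finset ℤ) (K : ℤ → Type) [∀ D, Field (K D)] [∀ D, NumberField (K D)],
    (∀ D ∈ S, (X ≤ |(D : ℝ)| ∧ |(D : ℝ)| ≤ X + H) ∧ Module.finrank ℚ (K D) = 2 ∧
      NumberField.discr (K D) = D) →
    ∑ D ∈ S, ∏ j, tor (l j) (K D) ≤
      C * X ^ ε * H * ∏ j, (√X / (H * √X) ^ (1 / ((l j : ℝ) + 1))) := by
  have hr : 1 ≤ Fintype.card ι := Fintype.card_pos
  have hm := fun j => moment (l j) (Fintype.card ι) (hl j) hr (hlr j) ε hε
  choose C hC0 hC using hm
  refine ⟨∑ j, C j, Finset.sum_pos (fun j _ => hC0 j) univ_nonempty, ?_⟩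
  intro X H hH hHX hc S K _ _ hS
  have hX : 1 ≤ X := hH.trans hHX
  have hX0 : 0 < X := by linarith
  have hsX : 0 < √X := Real.sqrt_pos.mpr hX0
  have hsc := fun j => scale (r := Fintype.card ι) hH hHX (hc j)
  have h1 := weights S (fun j D => tor (l j) (K D)) (fun j D => Nat.cast_nonneg _)
    (fun j => √X / (H * √X) ^ (1 / ((l j : ℝ) + 1))) (fun j => div_pos hsX (hsc j).1)
    C (X ^ ε * H) (by
      intro j
      obtain ⟨h1, h2, h3⟩ := hsc j
      refine (hC j X H _ hH hHX h1 h2 h3 S K hS).trans (le_of_eq ?_)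
      rw [div_pow]
      ring)
  refine h1.trans (le_of_eq ?_)
  ring

/-- products of torsion numbers over all discriminants -/
theorem prod_full {ι : Type} [Fintype ι] [Nonempty ι] (l : ι → ℕ)
    (hlr : ∀ j, 9 * Fintype.card ι ≤ 2 * (l j + 1)) (ε : ℝ) (hε : 0 < ε) :
    ∃ C : ℝ, 0 < C ∧ ∀ X : ℝ, 1 ≤ X →
    ∀ (S : Finset ℤ) (K : ℤ → Type) [∀ D, Field (K D)] [∀ D, NumberField (K D)],
    (∀ D ∈ S, |(D : ℝ)| ≤ X ∧ Module.finrank ℚ (K D) = 2 ∧ NumberField.discr (K D) = D) →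
    ∑ D ∈ S, ∏ j, tor (l j) (K D) ≤
      C * X ^ (1 + ∑ j, (1 / 2 - 3 / (2 * ((l j : ℝ) + 1))) + ε) := by
  have hr : 1 ≤ Fintype.card ι := Fintype.card_pos
  obtain ⟨C, hC0, hC⟩ := prod_short l (fun j => by have := hlr j; omega)
    (fun j => by have := hlr j; omega) ε hε
  refine ⟨2 * C, by positivity, ?_⟩
  intro X hX S K _ _ hS
  set θ : ℝ := 1 + ∑ j, (1 / 2 - 3 / (2 * ((l j : ℝ) + 1))) + ε with hθ
  have hlj : ∀ j, (9 : ℝ) * Fintype.card ι ≤ 2 * ((l j : ℝ) + 1) := fun j => by exact_mod_cast hlr j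
  have hrr : (1 : ℝ) ≤ Fintype.card ι := by exact_mod_cast hr
  have hθ1 : 1 ≤ θ := by
    have h1 : 0 ≤ ∑ j, (1 / 2 - 3 / (2 * ((l j : ℝ) + 1))) := by
      apply Finset.sum_nonneg
      intro j _
      have h2 := hlj j
      have h3 : 3 / (2 * ((l j : ℝ) + 1)) ≤ 1 / 2 := by
        rw [div_le_div_iff₀ (by positivity) (by norm_num)]
        nlinarith
      linarith
    rw [hθ]; linarith
  have hX0 : 0 < X := by linarith
  set T : ℤ → ℝ := fun D => ∏ j, tor (l j) (K D) with hT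
  set J : ℕ := Nat.log 2 ⌊X⌋₊ with hJ
  have hX1 : 1 ≤ ⌊X⌋₊ := Nat.le_floor (by exact_mod_cast hX)
  have hmaps : ∀ D ∈ S, Nat.log 2 D.natAbs ∈ Finset.range (J + 1) := by
    intro D hD
    rw [mem_range, Nat.lt_succ_iff, hJ]
    apply Nat.log_mono_right
    apply Nat.le_floor
    rw [Nat.cast_natAbs, Int.cast_abs]
    exact (hS D hD).1
  have hblock : ∀ j ∈ Finset.range (J + 1),
      ∑ D ∈ S.filter (fun D => Nat.log 2 D.natAbs = j), T D ≤ C * ((2 : ℝ) ^ θ) ^ j := by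
    intro j _
    set x : ℝ := (2 : ℝ) ^ j with hx
    have hx1 : 1 ≤ x := one_le_pow₀ (by norm_num)
    have hx0 : 0 < x := by positivity
    have hxx : x * √x = x ^ ((3 : ℝ) / 2) := by
      rw [Real.sqrt_eq_rpow]
      nth_rewrite 1 [← Real.rpow_one x]
      rw [← Real.rpow_add hx0]
      norm_num
    have hcond : ∀ i, (x * √x) ^ (3 * (Fintype.card ι : ℝ) / ((l i : ℝ) + 1)) ≤ x := by
      intro i
      rw [hxx, ← Real.rpow_mul hx0.le]
      nth_rewrite 2 [← Real.rpow_one x]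
      apply Real.rpow_le_rpow_of_exponent_le hx1
      have h2 := hlj i
      rw [← mul_div_assoc, div_le_one (by positivity)]
      nlinarith
    have h3 := hC x x hx1 le_rfl hcond (S.filter (fun D => Nat.log 2 D.natAbs = j)) K (by
      intro D hD
      rw [mem_filter] at hD
      obtain ⟨hDS, hDj⟩ := hD
      obtain ⟨-, h4, h5⟩ := hS D hDS
      have hDne : D.natAbs ≠ 0 := by
        rw [← h5]
        exact Int.natAbs_ne_zero.mpr (NumberField.discr_ne_zero _)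
      have h6 : |(D : ℝ)| = (D.natAbs : ℝ) := by rw [Nat.cast_natAbs, Int.cast_abs]
      refine ⟨⟨?_, ?_⟩, h4, h5⟩
      · rw [h6, hx, ← hDj]
        exact_mod_cast Nat.pow_log_le_self 2 hDne
      · have h7 := Nat.lt_pow_succ_log_self (b := 2) (by norm_num) D.natAbs
        rw [hDj] at h7
        rw [h6, hx]
        have h8 : (D.natAbs : ℝ) ≤ (2 : ℝ) ^ (j + 1) := by exact_mod_cast h7.le
        rw [pow_succ] at h8
        linarith)
    refine h3.trans (le_of_eq ?_)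
    have h9 : x ^ ε * (x * ∏ i, (√x / (x * √x) ^ (1 / ((l i : ℝ) + 1)))) = x ^ θ := by
      have e1 : ∀ i, √x / (x * √x) ^ (1 / ((l i : ℝ) + 1)) =
          x ^ (1 / 2 - 3 / (2 * ((l i : ℝ) + 1))) := by
        intro i
        rw [hxx, ← Real.rpow_mul hx0.le, Real.sqrt_eq_rpow, ← Real.rpow_sub hx0]
        congr 1
        field_simp
      rw [Finset.prod_congr rfl fun i _ => e1 i, ← Real.rpow_sum_of_pos hx0]
      nth_rewrite 2 [← Real.rpow_one x]
      rw [← Real.rpow_add hx0, ← Real.rpow_add hx0]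
      congr 1
      rw [hθ]; ring
    rw [show C * x ^ ε * x * ∏ i, (√x / (x * √x) ^ (1 / ((l i : ℝ) + 1))) =
      C * (x ^ ε * (x * ∏ i, (√x / (x * √x) ^ (1 / ((l i : ℝ) + 1))))) by ring, h9, hx,
      ← Real.rpow_natCast 2 j, ← Real.rpow_mul (by norm_num), mul_comm (j : ℝ),
      Real.rpow_mul (by norm_num), Real.rpow_natCast]
  have h2θ : (2 : ℝ) ≤ 2 ^ θ := by
    calc (2 : ℝ) = 2 ^ (1 : ℝ) := by rw [Real.rpow_one]
      _ ≤ 2 ^ θ := Real.rpow_le_rpow_of_exponent_le (by norm_num) hθ1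
  calc ∑ D ∈ S, T D = ∑ j ∈ Finset.range (J + 1),
        ∑ D ∈ S.filter (fun D => Nat.log 2 D.natAbs = j), T D :=
        (Finset.sum_fiberwise_of_maps_to hmaps _).symm
    _ ≤ ∑ j ∈ Finset.range (J + 1), C * ((2 : ℝ) ^ θ) ^ j := Finset.sum_le_sum hblock
    _ = C * ∑ j ∈ Finset.range (J + 1), ((2 : ℝ) ^ θ) ^ j := by rw [Finset.mul_sum]
    _ ≤ C * (2 * ((2 : ℝ) ^ θ) ^ J) := by
        apply mul_le_mul_of_nonneg_left (geom_le h2θ J) hC0.le
    _ ≤ C * (2 * X ^ θ) := by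
        have h1 : ((2 : ℝ) ^ θ) ^ J = ((2 : ℝ) ^ J) ^ θ := by
          rw [← Real.rpow_natCast, ← Real.rpow_mul (by norm_num), mul_comm, Real.rpow_mul (by norm_num),
            Real.rpow_natCast]
        have h2 : (2 : ℝ) ^ J ≤ X := by
          have h3 : 2 ^ J ≤ ⌊X⌋₊ := Nat.pow_log_le_self 2 (by omega)
          calc (2 : ℝ) ^ J ≤ ⌊X⌋₊ := by exact_mod_cast h3
            _ ≤ X := Nat.floor_le hX0.le
        rw [h1]
        gcongr
    _ = _ := by ring

end Pool.Agent.V146.QT
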