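import Pool.Agent.V146.QT.Sieve
import Pool.Agent.Y159.QS.Main

set_option autoImplicit false

/-!
# Few discriminants with few split primes
-/

namespace Pool.Agent.V146.QT

open Finset NumberField Pool.Agent.TH869.EVF Pool.Agent.Y159.QS
open scoped Nat NumberTheorySymbols
open scoped Classical

/-- splitting and the Jacobi symbol -/
theorem qr_count (E : Finset ℕ) (D : ℤ) (hE : ∀ p ∈ E, p.Prime ∧ p ≠ 2) (hD : D ≠ 0) :
    (#E : ℝ) + ∑ p ∈ E, ((J(D | p) : ℤ) : ℝ) ≤
      2 * (#(E.filter (fun p => QR p D)) : ℝ) + (D.natAbs.primeFactors.card : ℝ) := by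
  have h1 : ∀ p ∈ E, (1 : ℝ) + ((J(D | p) : ℤ) : ℝ) ≤ 2 * (if QR p D then 1 else 0) +
      (if p ∈ D.natAbs.primeFactors then 1 else 0) := by
    intro p hp
    obtain ⟨hpp, hp2⟩ := hE p hp
    have : Fact p.Prime := ⟨hpp⟩
    have h0 : (0 : ℝ) ≤ if p ∈ D.natAbs.primeFactors then 1 else 0 := by split_ifs <;> norm_num
    have h0' : (0 : ℝ) ≤ 2 * (if QR p D then (1 : ℝ) else 0) := by split_ifs <;> norm_num
    rcases jacobiSym.trichotomy D p with h | h | h
    · -- `p ∣ D`
      have hdvd : p ∈ D.natAbs.primeFactors := by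
        rw [← jacobiSym.legendreSym.to_jacobiSym, legendreSym.eq_zero_iff,
          ZMod.intCast_zmod_eq_zero_iff_dvd] at h
        exact Nat.mem_primeFactors.mpr ⟨hpp, by
          rw [← Int.natCast_dvd_natCast, Int.dvd_natAbs]; exact h, Int.natAbs_ne_zero.mpr hD⟩
      rw [h, if_pos hdvd]
      push_cast
      linarith
    · -- `D` is a square
      have hqr : QR p D := by
        rw [← jacobiSym.legendreSym.to_jacobiSym] at h
        have hne : (D : ZMod p) ≠ 0 := by
          intro h2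
          rw [(legendreSym.eq_zero_iff p D).2 h2] at h
          norm_num at h
        obtain ⟨r, hr⟩ := (legendreSym.eq_one_iff p hne).1 h
        refine ⟨r, by rw [sq]; exact hr.symm, ?_⟩
        intro h3
        have h4 : (2 : ZMod p) ≠ 0 := by
          intro h5
          have h6 : ((2 : ℕ) : ZMod p) = 0 := by exact_mod_cast h5
          rw [ZMod.natCast_eq_zero_iff] at h6
          exact hp2 ((Nat.prime_dvd_prime_iff_eq hpp Nat.prime_two).1 h6)
        rcases mul_eq_zero.1 h3 with h5 | h5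
        · exact h4 h5
        · rw [h5, mul_zero] at hr
          exact hne hr
      rw [h, if_pos hqr]
      push_cast
      linarith
    · rw [h]
      push_cast
      linarith
  calc (#E : ℝ) + ∑ p ∈ E, ((J(D | p) : ℤ) : ℝ) = ∑ p ∈ E, ((1 : ℝ) + ((J(D | p) : ℤ) : ℝ)) := by
        rw [sum_add_distrib, sum_const, nsmul_eq_mul, mul_one]
    _ ≤ ∑ p ∈ E, (2 * (if QR p D then (1 : ℝ) else 0) +
          (if p ∈ D.natAbs.primeFactors then 1 else 0)) := sum_le_sum h1
    _ = 2 * (#(E.filter (fun p => QR p D)) : ℝ) +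
          (#(E.filter (fun p => p ∈ D.natAbs.primeFactors)) : ℝ) := by
        rw [sum_add_distrib, ← mul_sum, ← sum_filter, ← sum_filter, sum_const, sum_const,
          nsmul_eq_mul, nsmul_eq_mul, mul_one, mul_one]
    _ ≤ _ := by
        have h2 : E.filter (fun p => p ∈ D.natAbs.primeFactors) ⊆ D.natAbs.primeFactors := by
          intro p hp
          exact (mem_filter.1 hp).2
        have h3 : (#(E.filter (fun p => p ∈ D.natAbs.primeFactors)) : ℝ) ≤
            D.natAbs.primeFactors.card := by exact_mod_cast card_le_card h2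
        linarith

/-- the number of discriminants of quadratic fields with few split primes of `(z / 2, z]` -/
theorem bad_count (z F R : ℕ) (X : ℝ) (hX : 1 ≤ X) (hF : 2 * X ≤ F)
    (hz : 32 * (Real.log 2 + Real.log X) ≤ (Qz z).card) (hz2 : 8 ≤ (Qz z).card)
    (S : Finset ℤ) (K : ℤ → Type) [∀ D, Field (K D)] [∀ D, NumberField (K D)]
    (hS : ∀ D ∈ S, |(D : ℝ)| ≤ 2 * X ∧ Module.finrank ℚ (K D) = 2 ∧ NumberField.discr (K D) = D) :
    ((S.filter (fun D => (((Qz z).filter (fun p => QR p D)).card : ℝ) <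
      (Qz z).card / 8)).card : ℝ) ≤
      96 * ((R ! : ℝ) * 8 ^ R) * (((z : ℝ) ^ R + (F : ℝ) ^ 2) / ((Qz z).card : ℝ) ^ R) := by
  set N0 : ℝ := ((Qz z).card : ℝ) with hN0
  have hN0p : (8 : ℝ) ≤ N0 := by rw [hN0]; exact_mod_cast hz2
  set E : Finset ℕ := (Qz z).erase 2 with hE
  have hEp : ∀ p ∈ E, p.Prime ∧ p ≠ 2 := fun p hp =>
    ⟨(mem_Qz (mem_of_mem_erase hp)).1, ne_of_mem_erase hp⟩
  have hEp' : ∀ p ∈ E, p.Prime ∧ p ≤ z := fun p hp => by
    have h := mem_Qz (mem_of_mem_erase hp)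
    exact ⟨h.1, by exact_mod_cast h.2.2⟩
  have hEcard : N0 - 1 ≤ (#E : ℝ) := by
    have h1 : (Qz z).card - 1 ≤ #E := pred_card_le_card_erase
    have h2 : (Qz z).card ≤ #E + 1 := by omega
    have h3 : N0 ≤ (#E : ℝ) + 1 := by rw [hN0]; exact_mod_cast h2
    linarith
  have hElow : N0 / 2 ≤ (#E : ℝ) := by linarith
  have hE0 : (0 : ℝ) < #E := by linarith
  set bad : Finset ℤ := S.filter (fun D => (((Qz z).filter (fun p => QR p D)).card : ℝ) <
      (Qz z).card / 8) with hbad
  -- a bad discriminant has a large character sum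
  have hlarge : ∀ D ∈ bad, (#E : ℝ) / 2 ≤ |∑ p ∈ E, ((J(D | p) : ℤ) : ℝ)| := by
    intro D hD
    rw [hbad, mem_filter] at hD
    obtain ⟨hDS, hDb⟩ := hD
    obtain ⟨h1, h2, h3⟩ := hS D hDS
    have hDne : D ≠ 0 := by
      rw [← h3]; exact NumberField.discr_ne_zero _
    have h4 := qr_count E D hEp hDne
    have h5 : (#(E.filter (fun p => QR p D)) : ℝ) ≤ ((Qz z).filter (fun p => QR p D)).card := by
      exact_mod_cast card_le_card (filter_subset_filter _ (erase_subset _ _))
    have h6 := card_primeFactors_le D.natAbs (Int.natAbs_ne_zero.mpr hDne)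
    have h7 : Real.log (D.natAbs : ℝ) ≤ Real.log 2 + Real.log X := by
      rw [← Real.log_mul (by norm_num) (by linarith : X ≠ 0)]
      apply Real.log_le_log
      · exact_mod_cast Nat.pos_of_ne_zero (Int.natAbs_ne_zero.mpr hDne)
      · rw [Nat.cast_natAbs, Int.cast_abs]
        exact h1
    rw [← hN0] at hDb
    have h8 : -∑ p ∈ E, ((J(D | p) : ℤ) : ℝ) ≤ |∑ p ∈ E, ((J(D | p) : ℤ) : ℝ)| := neg_le_abs _
    linarith
  -- the shape of the discriminants
  have hsh : ∀ D : ℤ, ∃ a q : ℕ, D ∈ S → a ≤ 3 ∧ Odd q ∧ Squarefree q ∧ D.natAbs = 2 ^ a * q := by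
    intro D
    by_cases hD : D ∈ S
    · obtain ⟨a, q, h1, h2, h3, h4⟩ := Pool.Agent.H568.GR.fund (K D) (hS D hD).2.1
      rw [(hS D hD).2.2] at h4
      exact ⟨a, q, fun _ => ⟨h1, h2, h3, h4⟩⟩
    · exact ⟨0, 0, fun h => absurd h hD⟩
  choose a q haq using hsh
  set τ : ℤ → Bool × ℕ × Bool := fun D => (decide (0 ≤ D), a D, decide (q D % 4 = 3)) with hτ
  set TT : Finset (Bool × ℕ × Bool) := univ ×ˢ (range 4 ×ˢ univ) with hTT
  have hTTcard : TT.card = 16 := by
    rw [hTT, card_product, card_product, card_range]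
    rfl
  have hmaps : ∀ D ∈ bad, τ D ∈ TT := by
    intro D hD
    have hDS : D ∈ S := (mem_filter.1 hD).1
    rw [hTT, mem_product, mem_product]
    refine ⟨mem_univ _, ?_, mem_univ _⟩
    rw [mem_range]
    have := (haq D hDS).1
    show a D < 4
    omega
  have hfib : ∀ t ∈ TT, ((bad.filter (fun D => τ D = t)).card : ℝ) ≤
      6 * ((R ! : ℝ) * 8 ^ R) * (((z : ℝ) ^ R + (F : ℝ) ^ 2) / N0 ^ R) := by
    intro t _
    set w : ℕ → ℂ := fun p => ((wt t p : ℤ) : ℂ) with hw
    have hw1 : ∀ p ∈ E, ‖w p‖ ≤ 1 := by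
      intro p _
      rw [hw]
      simp only [Complex.norm_intCast]
      exact_mod_cast wt_le t p
    set B : Finset ℤ := bad.filter (fun D => τ D = t) with hB
    have hinj : Set.InjOn q (B : Set ℤ) := by
      intro D hD D' hD' hqq
      rw [mem_coe, hB, mem_filter] at hD hD'
      have e1 := (haq D (mem_filter.1 hD.1).1).2.2.2
      have e2 := (haq D' (mem_filter.1 hD'.1).1).2.2.2
      have e3 : τ D = τ D' := hD.2.trans hD'.2.symm
      rw [hτ] at e3
      simp only [Prod.mk.injEq] at e3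
      obtain ⟨e4, e5, -⟩ := e3
      rw [e5, hqq, ← e2] at e1
      have e6 : (0 ≤ D) ↔ (0 ≤ D') := by simpa using e4
      omega
    have hcard : (B.image q).card = B.card := card_image_of_injOn hinj
    have h1 := few_large w E z F R ((#E : ℝ) / 2) (by positivity) hw1 hEp' (B.image q) (by
      intro m hm
      rw [mem_image] at hm
      obtain ⟨D, hD, rfl⟩ := hm
      rw [hB, mem_filter] at hD
      have hDS : D ∈ S := (mem_filter.1 hD.1).1
      obtain ⟨-, h2, h3, h4⟩ := haq D hDS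
      refine ⟨h2, h3, ?_, ?_⟩
      · have h5 : q D ≤ D.natAbs := by
          rw [h4]
          exact Nat.le_mul_of_pos_left _ (by positivity)
        have h6 : (D.natAbs : ℝ) ≤ 2 * X := by
          rw [Nat.cast_natAbs, Int.cast_abs]
          exact (hS D hDS).1
        have h7 : (D.natAbs : ℝ) ≤ F := h6.trans hF
        exact h5.trans (by exact_mod_cast h7)
      · have h5 := hlarge D hD.1
        have h6 : ∀ p ∈ E, w p * ((J(p | q D) : ℤ) : ℂ) = ((J(D | p) : ℤ) : ℂ) := by
          intro p hp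
          have hpodd : Odd p := (hEp p hp).1.odd_of_ne_two (hEp p hp).2
          rw [jac_eq D (a D) (q D) p h2 hpodd h4]
          have h7 : (decide (0 ≤ D), a D, decide (q D % 4 = 3)) = t := hD.2
          rw [h7, hw]
          push_cast
          rfl
        rw [sum_congr rfl h6, ← Int.cast_sum, Complex.norm_intCast]
        push_cast
        exact h5)
    rw [hcard] at h1
    have hM : 0 < ((#E : ℝ) / 2) ^ (2 * R) := by positivity
    rw [← le_div_iff₀ hM] at h1
    refine h1.trans ?_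
    have h2 : ((#E : ℝ) / 2) ^ (2 * R) = (#E : ℝ) ^ R * ((#E : ℝ) ^ R / 4 ^ R) := by
      rw [div_pow, pow_mul (2 : ℝ) 2 R, mul_comm 2 R, pow_mul (#E : ℝ) R 2]
      norm_num
      ring
    have hER : 0 < (#E : ℝ) ^ R := by positivity
    have h3 : (N0 / 2) ^ R ≤ (#E : ℝ) ^ R := by gcongr
    have hNR : 0 < N0 ^ R := by positivity
    calc 6 * ((z : ℝ) ^ R + (F : ℝ) ^ 2) * ((R ! : ℝ) * (#E : ℝ) ^ R) / ((#E : ℝ) / 2) ^ (2 * R)
        = 6 * ((z : ℝ) ^ R + (F : ℝ) ^ 2) * (R ! : ℝ) * 4 ^ R / (#E : ℝ) ^ R := by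
          rw [h2]; field_simp
      _ ≤ 6 * ((z : ℝ) ^ R + (F : ℝ) ^ 2) * (R ! : ℝ) * 4 ^ R / (N0 / 2) ^ R := by gcongr
      _ = _ := by
          rw [div_pow, show (8 : ℝ) ^ R = 4 ^ R * 2 ^ R by rw [← mul_pow]; norm_num]
          field_simp
  have hsum : (bad.card : ℝ) = ∑ t ∈ TT, ((bad.filter (fun D => τ D = t)).card : ℝ) := by
    rw [← Nat.cast_sum, ← card_eq_sum_card_fiberwise hmaps]
  rw [hsum]
  calc ∑ t ∈ TT, ((bad.filter (fun D => τ D = t)).card : ℝ)
      ≤ ∑ t ∈ TT, 6 * ((R ! : ℝ) * 8 ^ R) * (((z : ℝ) ^ R + (F : ℝ) ^ 2) / N0 ^ R) :=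
        sum_le_sum hfib
    _ = _ := by
        rw [sum_const, hTTcard, nsmul_eq_mul]
        push_cast
        ring

end Pool.Agent.V146.QT
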