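import Pool.Agent.V146.QT.Moment3

set_option autoImplicit false

/-!
# Products of torsion numbers of class groups over all parameters of a thin family
-/

namespace Pool.Agent.V146.QT

open NumberField Finset Pool.Agent.TH869.EVF Pool.Agent.Y159.QS Pool.Agent.Y159.TQ
open scoped Classical

/-- products of torsion numbers over all parameters -/
theorem prod_thin_full (a b c : ℤ) (ha : a ≠ 0) (hΔ : b ^ 2 - 4 * a * c ≠ 0)
    {ι : Type} [Fintype ι] [Nonempty ι] (l : ι → ℕ)
    (hlr : ∀ j, 2 * Fintype.card ι ≤ l j + 1) (ε : ℝ) (hε : 0 < ε) :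
    ∃ C : ℝ, 0 < C ∧ ∀ X : ℝ, 1 ≤ X →
    ∀ (S : Finset ℤ) (K : ℤ → Type) [∀ D, Field (K D)] [∀ D, NumberField (K D)],
    (∀ s ∈ S, |(s : ℝ)| ≤ X ∧ Module.finrank ℚ (K s) = 2 ∧
      NumberField.discr (K s) = a * s ^ 2 + b * s + c) →
    ∑ D ∈ S, ∏ j, tor (l j) (K D) ≤
      C * X ^ (1 + ∑ j, (1 - 2 / ((l j : ℝ) + 1)) + ε) := by
  have hr : 1 ≤ Fintype.card ι := Fintype.card_pos
  obtain ⟨C, hC0, hC⟩ := prod_thin a b c ha hΔ l (fun j => by have := hlr j; omega)
    (fun j => by have := hlr j; omega) ε hε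
  obtain ⟨C1, hC10, hC1⟩ := single (1 / 2) (by norm_num)
  set E0 : ℝ := (C1 * |(c : ℝ)| ^ ((1 : ℝ) / 2 + 1 / 2)) ^ Fintype.card ι with hE0
  have hE00 : 0 ≤ E0 := by positivity
  refine ⟨E0 + 2 * C, by positivity, ?_⟩
  intro X hX S K _ _ hS
  set θ : ℝ := 1 + ∑ j, (1 - 2 / ((l j : ℝ) + 1)) + ε with hθ
  have hlj : ∀ j, (2 : ℝ) * Fintype.card ι ≤ (l j : ℝ) + 1 := fun j => by exact_mod_cast hlr j
  have hrr : (1 : ℝ) ≤ Fintype.card ι := by exact_mod_cast hr
  have hθ1 : 1 ≤ θ := by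
    have h1 : 0 ≤ ∑ j, (1 - 2 / ((l j : ℝ) + 1)) := by
      apply Finset.sum_nonneg
      intro j _
      have h2 := hlj j
      have h3 : 2 / ((l j : ℝ) + 1) ≤ 1 := by
        rw [div_le_one (by positivity)]
        nlinarith
      linarith
    rw [hθ]; linarith
  have hX0 : 0 < X := by linarith
  set T : ℤ → ℝ := fun D => ∏ j, tor (l j) (K D) with hT
  have hT0 : ∀ D, 0 ≤ T D := fun D => Finset.prod_nonneg fun j _ => Nat.cast_nonneg _
  -- the part with `t ≠ 0`
  have hmain : ∀ S' : Finset ℤ, S' ⊆ S → (∀ t ∈ S', t ≠ 0) → ∑ t ∈ S', T t ≤ 2 * C * X ^ θ := by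
    intro S' hS' hne
    set J : ℕ := Nat.log 2 ⌊X⌋₊ with hJ
    have hX1 : 1 ≤ ⌊X⌋₊ := Nat.le_floor (by exact_mod_cast hX)
    have hmaps : ∀ t ∈ S', Nat.log 2 t.natAbs ∈ Finset.range (J + 1) := by
      intro t ht
      rw [mem_range, Nat.lt_succ_iff, hJ]
      apply Nat.log_mono_right
      apply Nat.le_floor
      rw [Nat.cast_natAbs, Int.cast_abs]
      exact (hS t (hS' ht)).1
    have hblock : ∀ j ∈ Finset.range (J + 1),
        ∑ t ∈ S'.filter (fun t => Nat.log 2 t.natAbs = j), T t ≤ C * ((2 : ℝ) ^ θ) ^ j := by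
      intro j _
      set x : ℝ := (2 : ℝ) ^ j with hx
      have hx1 : 1 ≤ x := one_le_pow₀ (by norm_num)
      have hx0 : 0 < x := by positivity
      have hxx : x * x = x ^ (2 : ℝ) := by
        rw [Real.rpow_two]; ring
      have hcond : ∀ i, (x * x) ^ ((Fintype.card ι : ℝ) / ((l i : ℝ) + 1)) ≤ x := by
        intro i
        rw [hxx, ← Real.rpow_mul hx0.le]
        nth_rewrite 2 [← Real.rpow_one x]
        apply Real.rpow_le_rpow_of_exponent_le hx1
        have h2 := hlj i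
        rw [← mul_div_assoc, div_le_one (by positivity)]
        linarith
      have hwin : ∀ t ∈ S'.filter (fun t => Nat.log 2 t.natAbs = j),
          x ≤ |(t : ℝ)| ∧ |(t : ℝ)| ≤ 2 * x := by
        intro t ht
        rw [mem_filter] at ht
        obtain ⟨htS, htj⟩ := ht
        have htne : t.natAbs ≠ 0 := Int.natAbs_ne_zero.mpr (hne t htS)
        have h6 : |(t : ℝ)| = (t.natAbs : ℝ) := by rw [Nat.cast_natAbs, Int.cast_abs]
        refine ⟨?_, ?_⟩
        · rw [h6, hx, ← htj]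
          exact_mod_cast Nat.pow_log_le_self 2 htne
        · have h7 := Nat.lt_pow_succ_log_self (b := 2) (by norm_num) t.natAbs
          rw [htj] at h7
          rw [h6, hx]
          have h8 : (t.natAbs : ℝ) ≤ (2 : ℝ) ^ (j + 1) := by exact_mod_cast h7.le
          rw [pow_succ] at h8
          linarith
      have hcard : ((S'.filter (fun t => Nat.log 2 t.natAbs = j)).card : ℝ) ≤ 4 * x :=
        card_window hx1 _ (fun t ht => ⟨(hwin t ht).1, by linarith [(hwin t ht).2]⟩)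
      have h3 := hC x x hx1 le_rfl hcond (S'.filter (fun t => Nat.log 2 t.natAbs = j)) K hcard (by
        intro t ht
        refine ⟨hwin t ht, ?_⟩
        rw [mem_filter] at ht
        exact (hS t (hS' ht.1)).2)
      refine h3.trans (le_of_eq ?_)
      have h9 : x ^ ε * (x * ∏ i, (x / (x * x) ^ (1 / ((l i : ℝ) + 1)))) = x ^ θ := by
        have e1 : ∀ i, x / (x * x) ^ (1 / ((l i : ℝ) + 1)) = x ^ (1 - 2 / ((l i : ℝ) + 1)) := by
          intro i
          rw [hxx, ← Real.rpow_mul hx0.le, Real.rpow_sub hx0, Real.rpow_one]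
          congr 2
          ring
        rw [Finset.prod_congr rfl fun i _ => e1 i, ← Real.rpow_sum_of_pos hx0]
        nth_rewrite 2 [← Real.rpow_one x]
        rw [← Real.rpow_add hx0, ← Real.rpow_add hx0]
        congr 1
        rw [hθ]; ring
      rw [show C * x ^ ε * x * ∏ i, (x / (x * x) ^ (1 / ((l i : ℝ) + 1))) =
        C * (x ^ ε * (x * ∏ i, (x / (x * x) ^ (1 / ((l i : ℝ) + 1))))) by ring, h9, hx,
        ← Real.rpow_natCast 2 j, ← Real.rpow_mul (by norm_num), mul_comm (j : ℝ),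
        Real.rpow_mul (by norm_num), Real.rpow_natCast]
    have h2θ : (2 : ℝ) ≤ 2 ^ θ := by
      calc (2 : ℝ) = 2 ^ (1 : ℝ) := by rw [Real.rpow_one]
        _ ≤ 2 ^ θ := Real.rpow_le_rpow_of_exponent_le (by norm_num) hθ1
    calc ∑ t ∈ S', T t = ∑ j ∈ Finset.range (J + 1),
          ∑ t ∈ S'.filter (fun t => Nat.log 2 t.natAbs = j), T t :=
          (Finset.sum_fiberwise_of_maps_to hmaps _).symm
      _ ≤ ∑ j ∈ Finset.range (J + 1), C * ((2 : ℝ) ^ θ) ^ j := Finset.sum_le_sum hblock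
      _ = C * ∑ j ∈ Finset.range (J + 1), ((2 : ℝ) ^ θ) ^ j := by rw [Finset.mul_sum]
      _ ≤ C * (2 * ((2 : ℝ) ^ θ) ^ J) := by
          apply mul_le_mul_of_nonneg_left (geom_le h2θ J) hC0.le
      _ ≤ C * (2 * X ^ θ) := by
          have h1 : ((2 : ℝ) ^ θ) ^ J = ((2 : ℝ) ^ J) ^ θ := by
            rw [← Real.rpow_natCast, ← Real.rpow_mul (by norm_num), mul_comm,
              Real.rpow_mul (by norm_num), Real.rpow_natCast]
          have h2 : (2 : ℝ) ^ J ≤ X := by
            have h3 : 2 ^ J ≤ ⌊X⌋₊ := Nat.pow_log_le_self 2 (by omega)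
            calc (2 : ℝ) ^ J ≤ ⌊X⌋₊ := by exact_mod_cast h3
              _ ≤ X := Nat.floor_le hX0.le
          rw [h1]
          gcongr
      _ = _ := by ring
  -- the term `t = 0`
  have hzero : ∑ t ∈ S.filter (fun t => t = 0), T t ≤ E0 * X ^ θ := by
    have h1 : S.filter (fun t => t = 0) ⊆ {0} := by
      intro t ht
      rw [mem_filter] at ht
      rw [mem_singleton]
      exact ht.2
    have hXθ : 1 ≤ X ^ θ := Real.one_le_rpow hX (by linarith)
    by_cases h0 : (0 : ℤ) ∈ S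
    · have h2 : ∑ t ∈ S.filter (fun t => t = 0), T t ≤ ∑ t ∈ ({0} : Finset ℤ), T t :=
        Finset.sum_le_sum_of_subset_of_nonneg h1 fun t _ _ => hT0 t
      rw [sum_singleton] at h2
      obtain ⟨-, h4, h5⟩ := hS 0 h0
      have h3 : ∀ j, tor (l j) (K 0) ≤ C1 * |(c : ℝ)| ^ ((1 : ℝ) / 2 + 1 / 2) := by
        intro j
        have h6 := (hC1 (l j) (by have := hlr j; omega) (K 0) h4 0 ∅ (by simp)).1
        rw [h5] at h6
        have e : ((a * 0 ^ 2 + b * 0 + c : ℤ) : ℝ) = c := by push_cast; ring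
        rw [e] at h6
        exact h6
      have h6 : T 0 ≤ E0 := by
        calc T 0 = ∏ j, tor (l j) (K 0) := rfl
          _ ≤ ∏ _j : ι, C1 * |(c : ℝ)| ^ ((1 : ℝ) / 2 + 1 / 2) :=
              Finset.prod_le_prod (fun j _ => Nat.cast_nonneg _) (fun j _ => h3 j)
          _ = E0 := by rw [prod_const, card_univ]
      nlinarith
    · have h2 : S.filter (fun t => t = 0) = ∅ := by
        apply Finset.filter_eq_empty_iff.mpr
        rintro t ht rfl
        exact h0 ht
      rw [h2, sum_empty]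
      positivity
  have hsplit : ∑ t ∈ S, T t = ∑ t ∈ S.filter (fun t => t = 0), T t +
      ∑ t ∈ S.filter (fun t => ¬ t = 0), T t :=
    (Finset.sum_filter_add_sum_filter_not S _ _).symm
  have h2 := hmain (S.filter (fun t => ¬ t = 0)) (filter_subset _ _) (by
    intro t ht
    exact (mem_filter.mp ht).2)
  rw [hsplit]
  linarith

end Pool.Agent.V146.QT
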