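import Pool.Agent.V146.QT.Prod2

set_option autoImplicit false

/-!
# Quadratic fields with large torsion in the class group: short intervals and all discriminants
-/

namespace Pool.Agent.V146.QT

open NumberField Finset Pool.Agent.TH869.EVF Pool.Agent.Y159.QS
open scoped Classical

/-- how often the torsion is large, in a window -/
theorem large_short (l : ℕ) (hl : 1 ≤ l) (ε : ℝ) (hε : 0 < ε) :
    ∃ C : ℝ, 0 < C ∧
    ∀ X H y : ℝ, 1 ≤ H → H ≤ X → 0 < y →
    ∀ (S : Finset ℤ) (K : ℤ → Type) [∀ D, Field (K D)] [∀ D, NumberField (K D)],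
    (∀ D ∈ S, (X ≤ |(D : ℝ)| ∧ |(D : ℝ)| ≤ X + H) ∧ Module.finrank ℚ (K D) = 2 ∧
      NumberField.discr (K D) = D) →
    ((S.filter (fun D => X ^ (1 / 2 + ε) / y ≤ tor l (K D))).card : ℝ) ≤
      C * X ^ ε * (y * √H + y ^ (l + 1) / √X) := by
  have hε2 : 0 < ε / 2 := by positivity
  obtain ⟨C0, hC00, hC0⟩ := tail2 l hl (ε / 2) (ε / 2) hε2 hε2
  obtain ⟨C1, hC10, hC1⟩ := triv (ε / 2) hε2
  set C2 : ℝ := 1 + C0 + C1 with hC2
  have h21 : 1 ≤ C2 := by linarith
  have h20 : 0 < C2 := by linarith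
  have hp1 : C2 ≤ C2 ^ (l + 1) := by
    calc C2 = C2 ^ 1 := (pow_one _).symm
      _ ≤ C2 ^ (l + 1) := pow_le_pow_right₀ h21 (by omega)
  refine ⟨4 * C2 ^ (l + 2), by positivity, ?_⟩
  intro X H y hH hHX hy S K _ _ hS
  have hX : 1 ≤ X := hH.trans hHX
  have hX0 : 0 < X := by linarith
  have hH0 : 0 < H := by linarith
  have hsX : 0 < √X := Real.sqrt_pos.mpr hX0
  have hsH1 : 1 ≤ √H := by rw [Real.one_le_sqrt]; exact hH
  have hXe : 1 ≤ X ^ ε := Real.one_le_rpow hX hε.le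
  have ha : 0 ≤ y * √H := by positivity
  have hb : 0 ≤ y ^ (l + 1) / √X := by positivity
  rcases le_total X (C2 * y) with h | h
  · -- many fields
    have hcard : (S.card : ℝ) ≤ 4 * H := card_window hH S (fun D hD => (hS D hD).1)
    have h1 : ((S.filter (fun D => X ^ (1 / 2 + ε) / y ≤ tor l (K D))).card : ℝ) ≤ S.card := by
      exact_mod_cast card_filter_le _ _
    have h2 : H ≤ C2 * (y * √H) := by
      calc H ≤ C2 * y * 1 := by linarith
        _ ≤ C2 * y * √H := by gcongr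
        _ = _ := by ring
    have h3 : C2 ≤ C2 ^ (l + 2) := by
      calc C2 = C2 ^ 1 := (pow_one _).symm
        _ ≤ C2 ^ (l + 2) := pow_le_pow_right₀ h21 (by omega)
    calc ((S.filter (fun D => X ^ (1 / 2 + ε) / y ≤ tor l (K D))).card : ℝ) ≤ 4 * H := h1.trans hcard
      _ ≤ 4 * (C2 * (y * √H)) := by linarith
      _ = 4 * C2 * 1 * (y * √H) := by ring
      _ ≤ 4 * C2 ^ (l + 2) * X ^ ε * (y * √H + y ^ (l + 1) / √X) := by
          gcongr
          linarith
  rcases lt_or_ge (C2 * y) (X ^ (ε / 2)) with h' | h'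
  · -- no fields
    have hem : S.filter (fun D => X ^ (1 / 2 + ε) / y ≤ tor l (K D)) = ∅ := by
      rw [Finset.filter_eq_empty_iff]
      intro D hD hle
      have h1 := hC1 l hl X H hX hHX D (K D) (hS D hD)
      have h2 : X ^ (1 / 2 + min (ε / 2) (1 / 2)) ≤ X ^ (1 / 2 + ε / 2) :=
        Real.rpow_le_rpow_of_exponent_le hX (by linarith [min_le_left (ε / 2) (1 / 2 : ℝ)])
      have h3 : C2 * X ^ (1 / 2 + ε / 2) < X ^ (1 / 2 + ε) / y := by
        rw [lt_div_iff₀ hy]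
        calc C2 * X ^ (1 / 2 + ε / 2) * y = X ^ (1 / 2 + ε / 2) * (C2 * y) := by ring
          _ < X ^ (1 / 2 + ε / 2) * X ^ (ε / 2) := by
              apply mul_lt_mul_of_pos_left h' (by positivity)
          _ = X ^ (1 / 2 + ε) := by
              rw [← Real.rpow_add hX0]; congr 1; ring
      have h4 : C1 * X ^ (1 / 2 + min (ε / 2) (1 / 2)) ≤ C2 * X ^ (1 / 2 + ε / 2) := by
        apply mul_le_mul (by linarith) h2 (by positivity) h20.le
      linarith
    rw [hem]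
    simp only [Finset.card_empty, Nat.cast_zero]
    positivity
  · have h1 := hC0 X H (C2 * y) hH hHX h' h S K hS
    have hsub : S.filter (fun D => X ^ (1 / 2 + ε) / y ≤ tor l (K D)) ⊆
        S.filter (fun D => C0 * X ^ (1 / 2 + ε / 2) / (C2 * y) ≤ tor l (K D)) := by
      intro D hD
      rw [mem_filter] at hD ⊢
      refine ⟨hD.1, le_trans ?_ hD.2⟩
      rw [div_le_div_iff₀ (by positivity) hy]
      have h2 : X ^ (1 / 2 + ε / 2) ≤ X ^ (1 / 2 + ε) :=
        Real.rpow_le_rpow_of_exponent_le hX (by linarith)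
      calc C0 * X ^ (1 / 2 + ε / 2) * y ≤ C2 * X ^ (1 / 2 + ε) * y := by
            gcongr
            linarith
        _ = _ := by ring
    have h2 : ((S.filter (fun D => X ^ (1 / 2 + ε) / y ≤ tor l (K D))).card : ℝ) ≤
        (S.filter (fun D => C0 * X ^ (1 / 2 + ε / 2) / (C2 * y) ≤ tor l (K D))).card := by
      exact_mod_cast card_le_card hsub
    have h3 : X ^ (ε / 2) ≤ X ^ ε := Real.rpow_le_rpow_of_exponent_le hX (by linarith)
    calc ((S.filter (fun D => X ^ (1 / 2 + ε) / y ≤ tor l (K D))).card : ℝ)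
        ≤ C0 * X ^ (ε / 2) * (C2 * y * √H + (C2 * y) ^ (l + 1) / √X) := h2.trans h1
      _ ≤ C2 * X ^ ε * (C2 ^ (l + 1) * y * √H + (C2 * y) ^ (l + 1) / √X) := by
          gcongr
          linarith
      _ = 1 * C2 ^ (l + 2) * X ^ ε * (y * √H + y ^ (l + 1) / √X) := by
          rw [mul_pow]; ring
      _ ≤ 4 * C2 ^ (l + 2) * X ^ ε * (y * √H + y ^ (l + 1) / √X) := by
          gcongr
          norm_num

/-- how often the torsion is large, over all discriminants -/
theorem large_full (l : ℕ) (hl : 1 ≤ l) (ε : ℝ) (hε : 0 < ε) :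
    ∃ C : ℝ, 0 < C ∧
    ∀ X y : ℝ, 1 ≤ X → 0 < y →
    ∀ (S : Finset ℤ) (K : ℤ → Type) [∀ D, Field (K D)] [∀ D, NumberField (K D)],
    (∀ D ∈ S, |(D : ℝ)| ≤ X ∧ Module.finrank ℚ (K D) = 2 ∧ NumberField.discr (K D) = D) →
    ((S.filter (fun D => X ^ (1 / 2 + ε) / y ≤ tor l (K D))).card : ℝ) ≤
      C * X ^ ε * (y * √X + y ^ (l + 1) / √X) := by
  have hε2 : 0 < ε / 2 := by positivity
  obtain ⟨C, hC0, hC⟩ := large_short l hl (ε / 2) hε2
  refine ⟨(4 / ε + 1) * C, by positivity, ?_⟩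
  intro X y hX hy S K _ _ hS
  have hX0 : 0 < X := by linarith
  have hsX : 0 < √X := Real.sqrt_pos.mpr hX0
  have hsX1 : 1 ≤ √X := by rw [Real.one_le_sqrt]; exact hX
  set T := S.filter (fun D => X ^ (1 / 2 + ε) / y ≤ tor l (K D)) with hT
  set J : ℕ := Nat.log 2 ⌊X⌋₊ with hJ
  have hX1 : 1 ≤ ⌊X⌋₊ := Nat.le_floor (by exact_mod_cast hX)
  have hJX : (2 : ℝ) ^ J ≤ X := by
    have h3 : 2 ^ J ≤ ⌊X⌋₊ := Nat.pow_log_le_self 2 (by omega)
    calc (2 : ℝ) ^ J ≤ ⌊X⌋₊ := by exact_mod_cast h3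
      _ ≤ X := Nat.floor_le hX0.le
  have hmaps : ∀ D ∈ T, Nat.log 2 D.natAbs ∈ Finset.range (J + 1) := by
    intro D hD
    rw [hT, mem_filter] at hD
    rw [mem_range, Nat.lt_succ_iff, hJ]
    apply Nat.log_mono_right
    apply Nat.le_floor
    rw [Nat.cast_natAbs, Int.cast_abs]
    exact (hS D hD.1).1
  have hblock : ∀ j ∈ Finset.range (J + 1),
      ((T.filter (fun D => Nat.log 2 D.natAbs = j)).card : ℝ) ≤
        C * X ^ (ε / 2) * (y * √X + y ^ (l + 1) / √X) := by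
    intro j hj
    rw [mem_range, Nat.lt_succ_iff] at hj
    set x : ℝ := (2 : ℝ) ^ j with hx
    have hx1 : 1 ≤ x := one_le_pow₀ (by norm_num)
    have hx0 : 0 < x := by positivity
    have hsx : 0 < √x := Real.sqrt_pos.mpr hx0
    have hxX : x ≤ X := (pow_le_pow_right₀ (by norm_num) hj).trans hJX
    have hsxX : √x ≤ √X := Real.sqrt_le_sqrt hxX
    set y' : ℝ := y * (√x / √X) with hy'
    have hy'0 : 0 < y' := by positivity
    have h3 := hC x x y' hx1 le_rfl hy'0 (S.filter (fun D => Nat.log 2 D.natAbs = j)) K (by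
      intro D hD
      rw [mem_filter] at hD
      obtain ⟨hDS, hDj⟩ := hD
      obtain ⟨-, h4, h5⟩ := hS D hDS
      have hDne : D.natAbs ≠ 0 := by
        rw [← h5]
        exact Int.natAbs_ne_zero.mpr (NumberField.discr_ne_zero _)
      have h6 : |(D : ℝ)| = (D.natAbs : ℝ) := by rw [Nat.cast_natAbs, Int.cast_abs]
      refine ⟨⟨?_, ?_⟩, h4, h5⟩
      · rw [h6, hx, ← hDj]
        exact_mod_cast Nat.pow_log_le_self 2 hDne
      · have h7 := Nat.lt_pow_succ_log_self (b := 2) (by norm_num) D.natAbs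
        rw [hDj] at h7
        rw [h6, hx]
        have h8 : (D.natAbs : ℝ) ≤ (2 : ℝ) ^ (j + 1) := by exact_mod_cast h7.le
        rw [pow_succ] at h8
        linarith)
    have hsub : T.filter (fun D => Nat.log 2 D.natAbs = j) ⊆
        (S.filter (fun D => Nat.log 2 D.natAbs = j)).filter
          (fun D => x ^ (1 / 2 + ε / 2) / y' ≤ tor l (K D)) := by
      intro D hD
      rw [mem_filter, hT, mem_filter] at hD
      rw [mem_filter, mem_filter]
      refine ⟨⟨hD.1.1, hD.2⟩, le_trans ?_ hD.1.2⟩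
      have e1 : x ^ (1 / 2 + ε / 2) / y' = x ^ (ε / 2) * √X / y := by
        rw [hy', Real.rpow_add hx0, ← Real.sqrt_eq_rpow]
        field_simp
      have e2 : X ^ (1 / 2 + ε) = X ^ ε * √X := by
        rw [Real.rpow_add hX0, ← Real.sqrt_eq_rpow]; ring
      rw [e1, e2]
      have h4 : x ^ (ε / 2) ≤ X ^ ε := by
        calc x ^ (ε / 2) ≤ X ^ (ε / 2) := Real.rpow_le_rpow hx0.le hxX hε2.le
          _ ≤ X ^ ε := Real.rpow_le_rpow_of_exponent_le hX (by linarith)
      gcongr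
    have h4 : ((T.filter (fun D => Nat.log 2 D.natAbs = j)).card : ℝ) ≤
        C * x ^ (ε / 2) * (y' * √x + y' ^ (l + 1) / √x) :=
      le_trans (by exact_mod_cast card_le_card hsub) h3
    have h5 : y' * √x ≤ y * √X := by
      have : √x / √X ≤ 1 := by rw [div_le_one hsX]; exact hsxX
      calc y' * √x = y * (√x / √X) * √x := by rw [hy']
        _ ≤ y * 1 * √X := by gcongr
        _ = _ := by ring
    have h6 : y' ^ (l + 1) / √x ≤ y ^ (l + 1) / √X := by
      have h7 : √x / √X ≤ 1 := by rw [div_le_one hsX]; exact hsxX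
      have h8 : (√x / √X) ^ (l + 1) ≤ √x / √X := by
        calc (√x / √X) ^ (l + 1) ≤ (√x / √X) ^ 1 :=
              pow_le_pow_of_le_one (by positivity) h7 (by omega)
          _ = _ := pow_one _
      rw [hy', mul_pow, div_le_div_iff₀ hsx hsX]
      calc y ^ (l + 1) * (√x / √X) ^ (l + 1) * √X ≤ y ^ (l + 1) * (√x / √X) * √X := by gcongr
        _ = _ := by field_simp
    refine h4.trans ?_
    have h9 : x ^ (ε / 2) ≤ X ^ (ε / 2) := Real.rpow_le_rpow hx0.le hxX hε2.le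
    gcongr
  have hcard : (T.card : ℝ) ≤ (J + 1) * (C * X ^ (ε / 2) * (y * √X + y ^ (l + 1) / √X)) := by
    have e3 : T.card = ∑ j ∈ Finset.range (J + 1),
        (T.filter (fun D => Nat.log 2 D.natAbs = j)).card :=
      Finset.card_eq_sum_card_fiberwise (f := fun D : ℤ => Nat.log 2 D.natAbs) (s := T)
        (t := Finset.range (J + 1)) (fun D hD => by
          have := hmaps D (by exact_mod_cast hD)
          exact_mod_cast this)
    rw [e3]
    push_cast
    calc ∑ j ∈ Finset.range (J + 1), ((T.filter (fun D => Nat.log 2 D.natAbs = j)).card : ℝ)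
        ≤ ∑ _j ∈ Finset.range (J + 1), C * X ^ (ε / 2) * (y * √X + y ^ (l + 1) / √X) :=
          Finset.sum_le_sum hblock
      _ = _ := by
          rw [Finset.sum_const, Finset.card_range, nsmul_eq_mul]
          push_cast
          ring
  have hJ1 : ((J : ℝ) + 1) ≤ (4 / ε + 1) * X ^ (ε / 2) := by
    have h1 : (J : ℝ) * Real.log 2 ≤ Real.log X := by
      rw [← Real.log_pow]
      exact Real.log_le_log (by positivity) hJX
    have h2 : Real.log X ≤ X ^ (ε / 2) / (ε / 2) := Real.log_le_rpow_div hX0.le hε2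
    have h3 : (1 : ℝ) / 2 ≤ Real.log 2 := by linarith [Real.log_two_gt_d9]
    have h4 : (J : ℝ) * (1 / 2) ≤ (J : ℝ) * Real.log 2 := by gcongr
    have h5 : 1 ≤ X ^ (ε / 2) := Real.one_le_rpow hX hε2.le
    have h6 : X ^ (ε / 2) / (ε / 2) = (2 / ε) * X ^ (ε / 2) := by field_simp
    have h7 : (J : ℝ) ≤ (4 / ε) * X ^ (ε / 2) := by
      rw [h6] at h2
      have h8 : (J : ℝ) ≤ 2 * ((2 / ε) * X ^ (ε / 2)) := by linarith
      calc (J : ℝ) ≤ 2 * ((2 / ε) * X ^ (ε / 2)) := h8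
        _ = _ := by ring
    linarith
  have hXe : X ^ (ε / 2) * X ^ (ε / 2) = X ^ ε := by
    rw [← Real.rpow_add hX0]; congr 1; ring
  calc (T.card : ℝ) ≤ (J + 1) * (C * X ^ (ε / 2) * (y * √X + y ^ (l + 1) / √X)) := hcard
    _ ≤ (4 / ε + 1) * X ^ (ε / 2) * (C * X ^ (ε / 2) * (y * √X + y ^ (l + 1) / √X)) := by
        gcongr
    _ = (4 / ε + 1) * C * (X ^ (ε / 2) * X ^ (ε / 2)) * (y * √X + y ^ (l + 1) / √X) := by ring
    _ = _ := by rw [hXe]

end Pool.Agent.V146.QT
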