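import Pool.Agent.V146.QT.Moment3

set_option autoImplicit false

/-!
# Large torsion in the class groups of a thin family of quadratic fields
-/

namespace Pool.Agent.V146.QT

open NumberField Finset Pool.Agent.TH869.EVF Pool.Agent.Y159.QS Pool.Agent.Y159.TQ
open scoped Classical

/-- how often the torsion is large, in a thin family -/
theorem large_thin (a b c : ℤ) (ha : a ≠ 0) (hΔ : b ^ 2 - 4 * a * c ≠ 0) (l : ℕ) (hl : 1 ≤ l)
    (ε : ℝ) (hε : 0 < ε) :
    ∃ C : ℝ, 0 < C ∧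
    ∀ N y : ℝ, 1 ≤ N → 0 < y →
    ∀ (S : Finset ℤ) (K : ℤ → Type) [∀ D, Field (K D)] [∀ D, NumberField (K D)],
    (∀ t ∈ S, (N ≤ |(t : ℝ)| ∧ |(t : ℝ)| ≤ 2 * N) ∧ Module.finrank ℚ (K t) = 2 ∧
      NumberField.discr (K t) = a * t ^ 2 + b * t + c) →
    ((S.filter (fun t => N ^ (1 + ε) / y ≤ tor l (K t))).card : ℝ) ≤
      C * N ^ ε * (1 + y ^ (l + 1) / N) := by
  have hε2 : 0 < ε / 2 := by positivity
  obtain ⟨C0, hC00, hC0⟩ := tail3 a b c ha hΔ l hl (ε / 2) (ε / 2) hε2 hε2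
  obtain ⟨C1, hC10, hC1⟩ := triv_t a b c ha (ε / 2) hε2
  set C2 : ℝ := 1 + C0 + C1 with hC2
  have h21 : 1 ≤ C2 := by linarith
  have h20 : 0 < C2 := by linarith
  refine ⟨4 * C2 ^ (l + 2), by positivity, ?_⟩
  intro N y hN hy S K _ _ hS
  have hN0 : 0 < N := by linarith
  have hNe : 1 ≤ N ^ ε := Real.one_le_rpow hN hε.le
  have hb : 0 ≤ y ^ (l + 1) / N := by positivity
  rcases le_total N (C2 * y) with h | h
  · -- many fields
    have hcard : (S.card : ℝ) ≤ 4 * N := card_window hN S (fun t ht => by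
      have := (hS t ht).1
      exact ⟨this.1, by linarith [this.2]⟩)
    have h1 : ((S.filter (fun t => N ^ (1 + ε) / y ≤ tor l (K t))).card : ℝ) ≤ S.card := by
      exact_mod_cast card_filter_le _ _
    have h2 : N ^ 2 ≤ (C2 * y) ^ (l + 1) := by
      have h3 : 1 ≤ C2 * y := hN.trans h
      calc N ^ 2 ≤ (C2 * y) ^ 2 := by gcongr
        _ ≤ (C2 * y) ^ (l + 1) := pow_le_pow_right₀ h3 (by omega)
    have h4 : N ≤ C2 ^ (l + 1) * (y ^ (l + 1) / N) := by
      rw [← mul_div_assoc, le_div_iff₀ hN0, ← mul_pow]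
      nlinarith
    have h5 : C2 ^ (l + 1) ≤ C2 ^ (l + 2) := pow_le_pow_right₀ h21 (by omega)
    calc ((S.filter (fun t => N ^ (1 + ε) / y ≤ tor l (K t))).card : ℝ) ≤ 4 * N := h1.trans hcard
      _ ≤ 4 * (C2 ^ (l + 1) * (y ^ (l + 1) / N)) := by linarith
      _ = 4 * C2 ^ (l + 1) * 1 * (y ^ (l + 1) / N) := by ring
      _ ≤ 4 * C2 ^ (l + 2) * N ^ ε * (1 + y ^ (l + 1) / N) := by
          gcongr
          linarith
  rcases lt_or_ge (C2 * y) (N ^ (ε / 2)) with h' | h'
  · -- no fields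
    have hem : S.filter (fun t => N ^ (1 + ε) / y ≤ tor l (K t)) = ∅ := by
      rw [Finset.filter_eq_empty_iff]
      intro t ht hle
      have h1 := hC1 l hl N hN t (K t) (hS t ht)
      have h3 : C2 * N ^ (1 + ε / 2) < N ^ (1 + ε) / y := by
        rw [lt_div_iff₀ hy]
        calc C2 * N ^ (1 + ε / 2) * y = N ^ (1 + ε / 2) * (C2 * y) := by ring
          _ < N ^ (1 + ε / 2) * N ^ (ε / 2) := by
              apply mul_lt_mul_of_pos_left h' (by positivity)
          _ = N ^ (1 + ε) := by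
              rw [← Real.rpow_add hN0]; congr 1; ring
      have h4 : C1 * N ^ (1 + ε / 2) ≤ C2 * N ^ (1 + ε / 2) := by
        apply mul_le_mul_of_nonneg_right (by linarith) (by positivity)
      linarith
    rw [hem]
    simp only [Finset.card_empty, Nat.cast_zero]
    positivity
  · have h1 := hC0 N (C2 * y) hN h' h S K hS
    have hsub : S.filter (fun t => N ^ (1 + ε) / y ≤ tor l (K t)) ⊆
        S.filter (fun t => C0 * N ^ (1 + ε / 2) / (C2 * y) ≤ tor l (K t)) := by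
      intro D hD
      rw [mem_filter] at hD ⊢
      refine ⟨hD.1, le_trans ?_ hD.2⟩
      rw [div_le_div_iff₀ (by positivity) hy]
      have h2 : N ^ (1 + ε / 2) ≤ N ^ (1 + ε) :=
        Real.rpow_le_rpow_of_exponent_le hN (by linarith)
      calc C0 * N ^ (1 + ε / 2) * y ≤ C2 * N ^ (1 + ε) * y := by
            gcongr
            linarith
        _ = _ := by ring
    have h2 : ((S.filter (fun t => N ^ (1 + ε) / y ≤ tor l (K t))).card : ℝ) ≤
        (S.filter (fun t => C0 * N ^ (1 + ε / 2) / (C2 * y) ≤ tor l (K t))).card := by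
      exact_mod_cast card_le_card hsub
    have h3 : N ^ (ε / 2) ≤ N ^ ε := Real.rpow_le_rpow_of_exponent_le hN (by linarith)
    have h4 : 1 ≤ C2 ^ (l + 1) := one_le_pow₀ h21
    calc ((S.filter (fun t => N ^ (1 + ε) / y ≤ tor l (K t))).card : ℝ)
        ≤ C0 * N ^ (ε / 2) * (1 + (C2 * y) ^ (l + 1) / N) := h2.trans h1
      _ ≤ C2 * N ^ ε * (C2 ^ (l + 1) + (C2 * y) ^ (l + 1) / N) := by
          gcongr
          linarith
      _ = 1 * C2 ^ (l + 2) * N ^ ε * (1 + y ^ (l + 1) / N) := by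
          rw [mul_pow]; ring
      _ ≤ 4 * C2 ^ (l + 2) * N ^ ε * (1 + y ^ (l + 1) / N) := by
          gcongr
          norm_num

end Pool.Agent.V146.QT
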