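import Pool.Agent.V146.QT.Tail

set_option autoImplicit false

/-!
# Moments of the torsion of class groups of quadratic fields in short intervals
-/

namespace Pool.Agent.V146.QT

open NumberField Finset Pool.Agent.TH869.EVF Pool.Agent.Y159.QS
open scoped Classical

/-- order of the moment for the supply of primes at the scale `k` -/
def mo (r n k : ℕ) : ℕ := (r * (n - k) + k) / (k + 1)

theorem mo_facts {r n k : ℕ} (hr : 1 ≤ r) (hk : k < n) : 1 ≤ mo r n k ∧
    r * (n - k) ≤ mo r n k * (k + 1) ∧ mo r n k * (k + 1) ≤ r * (n - k) + k := by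
  have h1 : mo r n k * (k + 1) ≤ r * (n - k) + k := Nat.div_mul_le_self _ _
  have h2 : r * (n - k) + k < (mo r n k + 1) * (k + 1) := by
    have := Nat.lt_succ_iff.2 (le_refl ((r * (n - k) + k) / (k + 1)))
    have h3 := Nat.lt_mul_of_div_lt this (Nat.succ_pos k)
    simpa [mo, mul_comm] using h3
  have h4 : r * (n - k) ≤ mo r n k * (k + 1) := by
    have e : (mo r n k + 1) * (k + 1) = mo r n k * (k + 1) + (k + 1) := by ring
    rw [e] at h2
    omega
  refine ⟨?_, h4, h1⟩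
  by_contra hcon
  have h5 : mo r n k = 0 := by omega
  rw [h5, zero_mul] at h4
  have h6 : 0 < r * (n - k) := Nat.mul_pos (by omega) (by omega)
  omega

/-- the four terms of the tail bound at one scale -/
theorem terms {l r n k : ℕ} (hr : 1 ≤ r) (hlr : r ≤ l + 1) (hk : k < n) {X H t : ℝ}
    (hH : 1 ≤ H) (hX : 1 ≤ X) (ht1 : 1 ≤ t) (ht : t ^ (l + 1) = H * √X) (ht3 : t ^ (3 * r) ≤ H) :
    (1 / (t ^ ((k : ℝ) / n)) ^ r) * (t ^ (((k + 1 : ℕ) : ℝ) / n) * √H +
      (t ^ (((k + 1 : ℕ) : ℝ) / n)) ^ (l + 1) / √X + H / (t ^ (((k + 1 : ℕ) : ℝ) / n)) ^ (mo r n k) +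
      (t ^ (((k + 1 : ℕ) : ℝ) / n)) ^ (2 * mo r n k)) ≤ 4 * t ^ ((r : ℝ) / n) * (H / t ^ r) := by
  obtain ⟨-, hm1, hm2⟩ := mo_facts hr hk
  set m := mo r n k with hm
  have ht0 : 0 < t := by linarith
  have hn0 : (0 : ℝ) < n := by
    have : 0 < n := by omega
    exact_mod_cast this
  have hsX : 0 < √X := Real.sqrt_pos.mpr (by linarith)
  have hH0 : 0 < H := by linarith
  have hrr : (1 : ℝ) ≤ r := by exact_mod_cast hr
  have hlr' : (r : ℝ) ≤ l + 1 := by exact_mod_cast hlr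
  have hkn : (k : ℝ) + 1 ≤ n := by exact_mod_cast hk
  have hk0 : (0 : ℝ) ≤ k := Nat.cast_nonneg _
  have hm1' : (r : ℝ) * (n - k) ≤ m * (k + 1) := by
    have h1 : ((r * (n - k) : ℕ) : ℝ) ≤ ((m * (k + 1) : ℕ) : ℝ) := by exact_mod_cast hm1
    push_cast [Nat.cast_sub hk.le] at h1
    exact h1
  have hm2' : (m : ℝ) * (k + 1) ≤ r * (n - k) + k := by
    have h1 : ((m * (k + 1) : ℕ) : ℝ) ≤ ((r * (n - k) + k : ℕ) : ℝ) := by exact_mod_cast hm2
    push_cast [Nat.cast_sub hk.le] at h1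
    exact h1
  -- all powers in terms of `t`
  have e0 : ∀ (a : ℝ) (j : ℕ), (t ^ a) ^ j = t ^ (a * j) := by
    intro a j
    rw [← Real.rpow_natCast, ← Real.rpow_mul ht0.le]
  have etr : t ^ r = t ^ (r : ℝ) := (Real.rpow_natCast t r).symm
  have hinv : 1 / (t ^ ((k : ℝ) / n)) ^ r = t ^ (-((k : ℝ) / n * r)) := by
    rw [e0, Real.rpow_neg ht0.le, one_div]
  have htH : t ^ r ≤ √H := by
    apply Real.le_sqrt_of_sq_le
    refine le_trans ?_ ht3
    rw [← pow_mul, mul_comm 3 r]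
    exact pow_le_pow_right₀ ht1 (by omega)
  have hsH : √H ≤ H / t ^ r := by
    rw [le_div_iff₀ (by positivity)]
    have h2 : √H * √H = H := Real.mul_self_sqrt (by linarith)
    have := Real.sqrt_nonneg H
    nlinarith
  have hV0 : 0 < H / t ^ r := by positivity
  have hG1 : 1 ≤ t ^ ((r : ℝ) / n) := Real.one_le_rpow ht1 (by positivity)
  rw [hinv, mul_add, mul_add, mul_add]
  -- first term
  have ta : t ^ (-((k : ℝ) / n * r)) * (t ^ (((k + 1 : ℕ) : ℝ) / n) * √H) ≤
      t ^ ((r : ℝ) / n) * (H / t ^ r) := by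
    rw [← mul_assoc, ← Real.rpow_add ht0]
    apply mul_le_mul _ hsH (Real.sqrt_nonneg _) (by positivity)
    apply Real.rpow_le_rpow_of_exponent_le ht1
    rw [← sub_nonneg]
    have e : (r : ℝ) / n - (-((k : ℝ) / n * r) + ((k + 1 : ℕ) : ℝ) / n) =
        (k * (r - 1) + (r - 1)) / n := by
      push_cast; field_simp; ring
    rw [e]
    have : 0 ≤ (r : ℝ) - 1 := by linarith
    positivity
  -- second term
  have tb : t ^ (-((k : ℝ) / n * r)) * ((t ^ (((k + 1 : ℕ) : ℝ) / n)) ^ (l + 1) / √X) ≤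
      t ^ ((r : ℝ) / n) * (H / t ^ r) := by
    have h1 : H / t ^ r = t ^ (((l + 1 : ℕ) : ℝ) - r) / √X := by
      rw [Real.rpow_sub ht0, Real.rpow_natCast, Real.rpow_natCast, ht]
      field_simp
    rw [h1, e0, ← mul_div_assoc, ← mul_div_assoc, ← Real.rpow_add ht0, ← Real.rpow_add ht0]
    apply div_le_div_of_nonneg_right _ hsX.le
    apply Real.rpow_le_rpow_of_exponent_le ht1
    rw [← sub_nonneg]
    have e : (r : ℝ) / n + (((l + 1 : ℕ) : ℝ) - r) - (-((k : ℝ) / n * r) +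
        ((k + 1 : ℕ) : ℝ) / n * ((l + 1 : ℕ) : ℝ)) = ((l + 1 - r) * (n - k - 1)) / n := by
      push_cast; field_simp; ring
    rw [e]
    apply div_nonneg _ hn0.le
    apply mul_nonneg <;> linarith
  -- third term
  have tc : t ^ (-((k : ℝ) / n * r)) * (H / (t ^ (((k + 1 : ℕ) : ℝ) / n)) ^ m) ≤
      t ^ ((r : ℝ) / n) * (H / t ^ r) := by
    have h1 : t ^ (-((k : ℝ) / n * r)) * (H / (t ^ (((k + 1 : ℕ) : ℝ) / n)) ^ m) =
        H * t ^ (-((k : ℝ) / n * r) + -(((k + 1 : ℕ) : ℝ) / n * m)) := by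
      rw [Real.rpow_add ht0, e0, Real.rpow_neg ht0.le (((k + 1 : ℕ) : ℝ) / n * m)]
      field_simp
    have h2 : H / t ^ r = H * t ^ (-(r : ℝ)) := by
      rw [Real.rpow_neg ht0.le, Real.rpow_natCast]; field_simp
    have h3 : t ^ (-((k : ℝ) / n * r) + -(((k + 1 : ℕ) : ℝ) / n * m)) ≤ t ^ (-(r : ℝ)) := by
      apply Real.rpow_le_rpow_of_exponent_le ht1
      rw [← sub_nonneg]
      have e : -(r : ℝ) - (-((k : ℝ) / n * r) + -(((k + 1 : ℕ) : ℝ) / n * m)) =
          (m * (k + 1) - r * (n - k)) / n := by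
        push_cast; field_simp; ring
      rw [e]
      apply div_nonneg _ hn0.le
      linarith
    rw [h1]
    calc H * t ^ (-((k : ℝ) / n * r) + -(((k + 1 : ℕ) : ℝ) / n * m)) ≤ H * t ^ (-(r : ℝ)) := by gcongr
      _ = 1 * (H / t ^ r) := by rw [h2]; ring
      _ ≤ _ := by gcongr
  -- fourth term
  have td : t ^ (-((k : ℝ) / n * r)) * (t ^ (((k + 1 : ℕ) : ℝ) / n)) ^ (2 * m) ≤
      t ^ ((r : ℝ) / n) * (H / t ^ r) := by
    have h1 : t ^ (2 * r) ≤ H / t ^ r := by
      rw [le_div_iff₀ (by positivity), ← pow_add]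
      have e : 2 * r + r = 3 * r := by ring
      rw [e]; exact ht3
    have h2 : t ^ (-((k : ℝ) / n * r)) * (t ^ (((k + 1 : ℕ) : ℝ) / n)) ^ (2 * m) ≤ t ^ (2 * r) := by
      rw [e0, ← Real.rpow_add ht0, ← Real.rpow_natCast t (2 * r)]
      apply Real.rpow_le_rpow_of_exponent_le ht1
      rw [← sub_nonneg]
      have e : ((2 * r : ℕ) : ℝ) - (-((k : ℝ) / n * r) + ((k + 1 : ℕ) : ℝ) / n * ((2 * m : ℕ) : ℝ)) =
          (2 * r * n + k * r - 2 * (m * (k + 1))) / n := by
        push_cast; field_simp; ring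
      rw [e]
      apply div_nonneg _ hn0.le
      nlinarith
    calc t ^ (-((k : ℝ) / n * r)) * (t ^ (((k + 1 : ℕ) : ℝ) / n)) ^ (2 * m) ≤ H / t ^ r := h2.trans h1
      _ = 1 * (H / t ^ r) := by ring
      _ ≤ _ := by gcongr
  linarith

/-- the moments of the torsion in a short interval -/
theorem moment (l r : ℕ) (hl : 1 ≤ l) (hr : 1 ≤ r) (hlr : r ≤ l + 1) (ε : ℝ) (hε : 0 < ε) :
    ∃ C : ℝ, 0 < C ∧ ∀ X H t : ℝ, 1 ≤ H → H ≤ X → 0 < t → t ^ (l + 1) = H * √X → t ^ (3 * r) ≤ H →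
    ∀ (S : Finset ℤ) (K : ℤ → Type) [∀ D, Field (K D)] [∀ D, NumberField (K D)],
    (∀ D ∈ S, (X ≤ |(D : ℝ)| ∧ |(D : ℝ)| ≤ X + H) ∧ Module.finrank ℚ (K D) = 2 ∧
      NumberField.discr (K D) = D) →
    ∑ D ∈ S, tor l (K D) ^ r ≤ C * X ^ ε * (√X ^ r * (H / t ^ r)) := by
  have hrr : (1 : ℝ) ≤ r := by exact_mod_cast hr
  have hlr1 : (1 : ℝ) ≤ l := by exact_mod_cast hl
  set ε1 : ℝ := min (ε / (r + 2)) (1 / 2) with hε1
  have hε10 : 0 < ε1 := lt_min (by positivity) (by norm_num)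
  have hε1h : ε1 ≤ 1 / 2 := min_le_right _ _
  have hε1a : (r + 2) * ε1 ≤ ε := by
    have h1 : ε1 ≤ ε / (r + 2) := min_le_left _ _
    rw [le_div_iff₀ (by positivity)] at h1
    linarith
  obtain ⟨n, hn⟩ := exists_nat_ge ((r : ℝ) / ε1)
  have hn0 : (0 : ℝ) < n := lt_of_lt_of_le (by positivity) hn
  have hnpos : 0 < n := by exact_mod_cast hn0
  have hrn : (r : ℝ) / n ≤ ε1 := by
    rw [div_le_iff₀ hε10] at hn
    rw [div_le_iff₀ hn0]
    linarith
  set κ : ℝ := 1 / (2 * ((l : ℝ) + 1)) * (1 / n) with hκ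
  have hκ0 : 0 < κ := by positivity
  have hT : ∀ k : ℕ, ∃ C : ℝ, 0 < C ∧ (k < n → ∀ X H y : ℝ, 1 ≤ H → H ≤ X → X ^ κ ≤ y → y ≤ X →
    ∀ (S : Finset ℤ) (K : ℤ → Type) [∀ D, Field (K D)] [∀ D, NumberField (K D)],
    (∀ D ∈ S, (X ≤ |(D : ℝ)| ∧ |(D : ℝ)| ≤ X + H) ∧ Module.finrank ℚ (K D) = 2 ∧
      NumberField.discr (K D) = D) →
    ((S.filter (fun D => C * X ^ (1 / 2 + ε1) / y ≤ tor l (K D))).card : ℝ) ≤
      C * X ^ ε1 * (y * √H + y ^ (l + 1) / √X + H / y ^ (mo r n k) + y ^ (2 * mo r n k))) := by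
    intro k
    by_cases hk : k < n
    · obtain ⟨C, hC, h⟩ := tail l (mo r n k) hl (mo_facts hr hk).1 κ ε1 hκ0 hε10
      exact ⟨C, hC, fun _ => h⟩
    · exact ⟨1, one_pos, fun h => absurd h hk⟩
  choose Ck hCk0 hCk using hT
  obtain ⟨C0, hC00, hC0⟩ := triv ε1 hε10
  set A : ℝ := C0 + ∑ k ∈ range n, Ck k with hA
  have hsum0 : 0 ≤ ∑ k ∈ range n, Ck k := Finset.sum_nonneg fun k _ => (hCk0 k).le
  have hA0 : 0 < A := by positivity
  have hC0A : C0 ≤ A := by rw [hA]; linarith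
  have hsumA : ∑ k ∈ range n, Ck k ≤ A := by rw [hA]; linarith
  have hCkA : ∀ k < n, Ck k ≤ A := fun k hk =>
    (Finset.single_le_sum (fun j _ => (hCk0 j).le) (mem_range.2 hk)).trans hsumA
  refine ⟨A ^ r * (16 * A + 4), by positivity, ?_⟩
  intro X H t hH hHX ht0 ht ht3 S K _ _ hS
  have hX : 1 ≤ X := hH.trans hHX
  have hX0 : 0 < X := by linarith
  have hH0 : 0 < H := by linarith
  have hsX1 : 1 ≤ √X := by rw [Real.one_le_sqrt]; exact hX
  have hsXX : √X ≤ X := by
    rw [Real.sqrt_le_iff]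
    exact ⟨hX0.le, by nlinarith⟩
  have ht1 : 1 ≤ t := by
    by_contra h
    push Not at h
    have h1 : t ^ (l + 1) < 1 := pow_lt_one₀ ht0.le h (by omega)
    rw [ht] at h1
    nlinarith
  have htX : t ≤ X := by
    by_contra h
    push Not at h
    have h1 : t ^ 2 ≤ t ^ (l + 1) := pow_le_pow_right₀ ht1 (by omega)
    rw [ht] at h1
    nlinarith
  have htlow : X ^ (1 / (2 * ((l : ℝ) + 1))) ≤ t := by
    have h1 : (X ^ (1 / (2 * ((l : ℝ) + 1)))) ^ (l + 1) ≤ t ^ (l + 1) := by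
      rw [ht, ← Real.rpow_natCast, ← Real.rpow_mul hX0.le]
      have e : 1 / (2 * ((l : ℝ) + 1)) * ((l + 1 : ℕ) : ℝ) = 1 / 2 := by
        push_cast
        field_simp
      rw [e, ← Real.sqrt_eq_rpow]
      nlinarith
    exact (pow_le_pow_iff_left₀ (by positivity) ht0.le (by omega)).mp h1
  set M : ℝ := X ^ (1 / 2 + ε1) with hM
  have hM0 : 0 < M := Real.rpow_pos_of_pos hX0 _
  set y : ℕ → ℝ := fun k => t ^ ((k : ℝ) / n) with hy
  have hy0 : ∀ k, 0 < y k := fun k => Real.rpow_pos_of_pos ht0 _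
  have hyz : y 0 = 1 := by rw [hy]; simp
  have hyn : y n = t := by
    show t ^ ((n : ℝ) / n) = t
    rw [div_self hn0.ne', Real.rpow_one]
  have hTM : ∀ D ∈ S, tor l (K D) ≤ C0 * M := by
    intro D hD
    have h1 := hC0 l hl X H hX hHX D (K D) (hS D hD)
    rwa [min_eq_left hε1h] at h1
  set G : ℝ := H / t ^ r with hG
  have hG0 : 0 < G := by positivity
  have hpt : ∀ D ∈ S, tor l (K D) ^ r ≤ (A * M) ^ r * (∑ k ∈ range n,
      (1 / y k ^ r) * (if Ck k * M / y (k + 1) ≤ tor l (K D) then 1 else 0) + 1 / t ^ r) := by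
    intro D hD
    have hT0 : 0 ≤ tor l (K D) := Nat.cast_nonneg _
    have hs0 : ∀ k ∈ range n, 0 ≤
        (1 / y k ^ r) * (if Ck k * M / y (k + 1) ≤ tor l (K D) then (1 : ℝ) else 0) := by
      intro k _
      have := hy0 k
      split_ifs <;> positivity
    by_cases hex : ∃ k, k < n ∧ Ck k * M / y (k + 1) ≤ tor l (K D)
    · obtain ⟨hk1, hk2⟩ := Nat.find_spec hex
      have hmin : ∀ j, j < Nat.find hex → ¬ (j < n ∧ Ck j * M / y (j + 1) ≤ tor l (K D)) :=
        fun j hj => Nat.find_min hex hj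
      set k0 := Nat.find hex with hk0
      have hle : tor l (K D) ≤ A * M / y k0 := by
        rcases Nat.eq_zero_or_pos k0 with h | h
        · rw [h, hyz, div_one]
          exact (hTM D hD).trans (by gcongr)
        · obtain ⟨j, hj⟩ : ∃ j, k0 = j + 1 := ⟨k0 - 1, by omega⟩
          have h1 := hmin j (by omega)
          have h2 : tor l (K D) < Ck j * M / y (j + 1) := by
            by_contra hcon
            push Not at hcon
            exact h1 ⟨by omega, hcon⟩
          rw [hj]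
          refine h2.le.trans ?_
          have := hy0 (j + 1)
          have h3 := hCkA j (by omega)
          gcongr
      have h1 := Finset.single_le_sum hs0 (mem_range.2 hk1)
      rw [if_pos hk2, mul_one] at h1
      calc tor l (K D) ^ r ≤ (A * M / y k0) ^ r := by gcongr
        _ = (A * M) ^ r * (1 / y k0 ^ r) := by rw [div_pow]; ring
        _ ≤ _ := by
            apply mul_le_mul_of_nonneg_left _ (by positivity)
            have : 0 ≤ 1 / t ^ r := by positivity
            linarith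
    · push Not at hex
      have h1 := hex (n - 1) (by omega)
      have e : n - 1 + 1 = n := by omega
      rw [e, hyn] at h1
      have h2 : tor l (K D) ≤ A * M / t := by
        refine h1.le.trans ?_
        have h3 := hCkA (n - 1) (by omega)
        gcongr
      calc tor l (K D) ^ r ≤ (A * M / t) ^ r := by gcongr
        _ = (A * M) ^ r * (1 / t ^ r) := by rw [div_pow]; ring
        _ ≤ _ := by
            apply mul_le_mul_of_nonneg_left _ (by positivity)
            have := Finset.sum_nonneg hs0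
            linarith
  have hScard : (S.card : ℝ) ≤ 4 * H := card_window hH S (fun D hD => (hS D hD).1)
  have htrn : t ^ ((r : ℝ) / n) ≤ X ^ ε1 := by
    calc t ^ ((r : ℝ) / n) ≤ X ^ ((r : ℝ) / n) := Real.rpow_le_rpow ht0.le htX (by positivity)
      _ ≤ X ^ ε1 := Real.rpow_le_rpow_of_exponent_le hX hrn
  have hcount : ∀ k ∈ range n, (1 / y k ^ r) *
      ((S.filter (fun D => Ck k * M / y (k + 1) ≤ tor l (K D))).card : ℝ) ≤
      Ck k * (4 * (X ^ ε1 * X ^ ε1) * G) := by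
    intro k hk
    rw [mem_range] at hk
    have hlow : X ^ κ ≤ y (k + 1) := by
      calc X ^ κ = (X ^ (1 / (2 * ((l : ℝ) + 1)))) ^ ((1 : ℝ) / n) := by
            rw [← Real.rpow_mul hX0.le]
        _ ≤ t ^ ((1 : ℝ) / n) := Real.rpow_le_rpow (by positivity) htlow (by positivity)
        _ ≤ t ^ (((k + 1 : ℕ) : ℝ) / n) := by
            apply Real.rpow_le_rpow_of_exponent_le ht1
            apply div_le_div_of_nonneg_right _ hn0.le
            push_cast
            have : (0 : ℝ) ≤ k := Nat.cast_nonneg _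
            linarith
    have hup : y (k + 1) ≤ X := by
      refine le_trans ?_ htX
      calc y (k + 1) ≤ t ^ (1 : ℝ) := by
            apply Real.rpow_le_rpow_of_exponent_le ht1
            rw [div_le_one hn0]
            exact_mod_cast hk
        _ = t := Real.rpow_one t
    have h1 := hCk k hk X H (y (k + 1)) hH hHX hlow hup S K hS
    have h2 := terms (l := l) (n := n) hr hlr hk hH hX ht1 ht ht3
    have hyk := hy0 k
    calc (1 / y k ^ r) * ((S.filter (fun D => Ck k * M / y (k + 1) ≤ tor l (K D))).card : ℝ)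
        ≤ (1 / y k ^ r) * (Ck k * X ^ ε1 * (y (k + 1) * √H + y (k + 1) ^ (l + 1) / √X +
            H / y (k + 1) ^ (mo r n k) + y (k + 1) ^ (2 * mo r n k))) := by gcongr
      _ = Ck k * X ^ ε1 * ((1 / y k ^ r) * (y (k + 1) * √H + y (k + 1) ^ (l + 1) / √X +
            H / y (k + 1) ^ (mo r n k) + y (k + 1) ^ (2 * mo r n k))) := by ring
      _ ≤ Ck k * X ^ ε1 * (4 * t ^ ((r : ℝ) / n) * (H / t ^ r)) := by
          apply mul_le_mul_of_nonneg_left h2
          have := (hCk0 k).le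
          positivity
      _ ≤ Ck k * X ^ ε1 * (4 * X ^ ε1 * (H / t ^ r)) := by
          have := (hCk0 k).le
          gcongr
      _ = _ := by rw [hG]; ring
  have hsum : ∑ D ∈ S, tor l (K D) ^ r ≤ (A * M) ^ r * (A * (4 * (X ^ ε1 * X ^ ε1) * G) + 4 * G) := by
    calc ∑ D ∈ S, tor l (K D) ^ r ≤ ∑ D ∈ S, (A * M) ^ r * (∑ k ∈ range n,
          (1 / y k ^ r) * (if Ck k * M / y (k + 1) ≤ tor l (K D) then 1 else 0) + 1 / t ^ r) :=
          Finset.sum_le_sum hpt
      _ = (A * M) ^ r * (∑ k ∈ range n, (1 / y k ^ r) *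
          ((S.filter (fun D => Ck k * M / y (k + 1) ≤ tor l (K D))).card : ℝ) +
            S.card * (1 / t ^ r)) := by
          rw [← Finset.mul_sum, Finset.sum_add_distrib, Finset.sum_comm, sum_const, nsmul_eq_mul]
          congr 2
          apply Finset.sum_congr rfl
          intro k _
          rw [← Finset.mul_sum, ← Finset.sum_filter, sum_const, nsmul_eq_mul, mul_one]
      _ ≤ (A * M) ^ r * (∑ k ∈ range n, Ck k * (4 * (X ^ ε1 * X ^ ε1) * G) +
            4 * H * (1 / t ^ r)) := by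
          apply mul_le_mul_of_nonneg_left _ (by positivity)
          apply add_le_add (Finset.sum_le_sum hcount)
          gcongr
      _ ≤ _ := by
          apply mul_le_mul_of_nonneg_left _ (by positivity)
          rw [← Finset.sum_mul]
          apply add_le_add
          · gcongr
          · rw [hG]; apply le_of_eq; ring
  have hMr : M ^ r = √X ^ r * X ^ (r * ε1) := by rw [hM]; exact rpow_half_add hX r
  have hF1 : 1 ≤ X ^ ε1 := Real.one_le_rpow hX hε10.le
  have hXX : X ^ ((r : ℝ) * ε1) * (X ^ ε1 * X ^ ε1) ≤ X ^ ε := by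
    rw [← Real.rpow_add hX0, ← Real.rpow_add hX0]
    apply Real.rpow_le_rpow_of_exponent_le hX
    linarith
  have hone : 1 ≤ X ^ ε1 * X ^ ε1 := by nlinarith
  refine hsum.trans ?_
  calc (A * M) ^ r * (A * (4 * (X ^ ε1 * X ^ ε1) * G) + 4 * G)
      ≤ (A * M) ^ r * (A * (4 * (X ^ ε1 * X ^ ε1) * G) + 4 * (X ^ ε1 * X ^ ε1) * G) := by
        apply mul_le_mul_of_nonneg_left _ (by positivity)
        have : 4 * G ≤ 4 * (X ^ ε1 * X ^ ε1) * G := by nlinarith
        linarith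
    _ = A ^ r * (4 * A + 4) * (X ^ ((r : ℝ) * ε1) * (X ^ ε1 * X ^ ε1)) * (√X ^ r * G) := by
        rw [mul_pow, hMr]; ring
    _ ≤ A ^ r * (4 * A + 4) * X ^ ε * (√X ^ r * G) := by gcongr
    _ ≤ _ := by
        apply mul_le_mul_of_nonneg_right _ (by positivity)
        apply mul_le_mul_of_nonneg_right _ (by positivity)
        apply mul_le_mul_of_nonneg_left _ (by positivity)
        linarith

end Pool.Agent.V146.QT
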