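import Pool.Agent.V146.QT.Tail2
import Pool.Agent.V146.QT.Prod

set_option autoImplicit false

/-!
# Moments of the torsion of class groups over arbitrary families of quadratic fields
-/

namespace Pool.Agent.V146.QT

open NumberField Finset Pool.Agent.TH869.EVF Pool.Agent.Y159.QS
open scoped Classical

/-- the two terms of the tail bound at one scale -/
theorem terms2 {l r n k : ℕ} (hr : 1 ≤ r) (hlr : r ≤ l + 1) (hk : k < n) {X H t : ℝ}
    (hX : 1 ≤ X) (ht1 : 1 ≤ t) :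
    (1 / (t ^ ((k : ℝ) / n)) ^ r) * (t ^ (((k + 1 : ℕ) : ℝ) / n) * √H +
      (t ^ (((k + 1 : ℕ) : ℝ) / n)) ^ (l + 1) / √X) ≤
      t ^ ((r : ℝ) / n) * (√H + t ^ (l + 1) / (t ^ r * √X)) := by
  have ht0 : 0 < t := by linarith
  have hn0 : (0 : ℝ) < n := by
    have : 0 < n := by omega
    exact_mod_cast this
  have hsX : 0 < √X := Real.sqrt_pos.mpr (by linarith)
  have hrr : (1 : ℝ) ≤ r := by exact_mod_cast hr
  have hlr' : (r : ℝ) ≤ l + 1 := by exact_mod_cast hlr
  have hkn : (k : ℝ) + 1 ≤ n := by exact_mod_cast hk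
  have hk0 : (0 : ℝ) ≤ k := Nat.cast_nonneg _
  have e0 : ∀ (a : ℝ) (j : ℕ), (t ^ a) ^ j = t ^ (a * j) := by
    intro a j
    rw [← Real.rpow_natCast, ← Real.rpow_mul ht0.le]
  have hinv : 1 / (t ^ ((k : ℝ) / n)) ^ r = t ^ (-((k : ℝ) / n * r)) := by
    rw [e0, Real.rpow_neg ht0.le, one_div]
  rw [hinv, mul_add, mul_add]
  apply add_le_add
  · rw [← mul_assoc, ← Real.rpow_add ht0]
    apply mul_le_mul_of_nonneg_right _ (Real.sqrt_nonneg _)
    apply Real.rpow_le_rpow_of_exponent_le ht1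
    rw [← sub_nonneg]
    have e : (r : ℝ) / n - (-((k : ℝ) / n * r) + ((k + 1 : ℕ) : ℝ) / n) =
        (k * (r - 1) + (r - 1)) / n := by
      push_cast; field_simp; ring
    rw [e]
    have : 0 ≤ (r : ℝ) - 1 := by linarith
    positivity
  · have h1 : t ^ (l + 1) / (t ^ r * √X) = t ^ (((l + 1 : ℕ) : ℝ) - r) / √X := by
      rw [Real.rpow_sub ht0, Real.rpow_natCast, Real.rpow_natCast]
      field_simp
    rw [h1, e0, ← mul_div_assoc, ← mul_div_assoc, ← Real.rpow_add ht0, ← Real.rpow_add ht0]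
    apply div_le_div_of_nonneg_right _ hsX.le
    apply Real.rpow_le_rpow_of_exponent_le ht1
    rw [← sub_nonneg]
    have e : (r : ℝ) / n + (((l + 1 : ℕ) : ℝ) - r) - (-((k : ℝ) / n * r) +
        ((k + 1 : ℕ) : ℝ) / n * ((l + 1 : ℕ) : ℝ)) = ((l + 1 - r) * (n - k - 1)) / n := by
      push_cast; field_simp; ring
    rw [e]
    apply div_nonneg _ hn0.le
    apply mul_nonneg <;> linarith

/-- the moments of the torsion over an arbitrary family, with a parameter `t` -/
theorem moment2 (l r : ℕ) (hl : 1 ≤ l) (hr : 1 ≤ r) (hlr : r ≤ l + 1) (κ0 ε : ℝ) (hκ00 : 0 < κ0)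
    (hε : 0 < ε) : ∃ C : ℝ, 0 < C ∧ ∀ X H t : ℝ, 1 ≤ H → H ≤ X → X ^ κ0 ≤ t → t ≤ X →
    ∀ (S : Finset ℤ) (K : ℤ → Type) [∀ D, Field (K D)] [∀ D, NumberField (K D)],
    (∀ D ∈ S, (X ≤ |(D : ℝ)| ∧ |(D : ℝ)| ≤ X + H) ∧ Module.finrank ℚ (K D) = 2 ∧
      NumberField.discr (K D) = D) →
    ∑ D ∈ S, tor l (K D) ^ r ≤
      C * X ^ ε * (√X ^ r * ((S.card : ℝ) / t ^ r + √H + t ^ (l + 1) / (t ^ r * √X))) := by
  have hrr : (1 : ℝ) ≤ r := by exact_mod_cast hr
  have hlr1 : (1 : ℝ) ≤ l := by exact_mod_cast hl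
  set ε1 : ℝ := min (ε / (r + 2)) (1 / 2) with hε1
  have hε10 : 0 < ε1 := lt_min (by positivity) (by norm_num)
  have hε1h : ε1 ≤ 1 / 2 := min_le_right _ _
  have hε1a : (r + 2) * ε1 ≤ ε := by
    have h1 : ε1 ≤ ε / (r + 2) := min_le_left _ _
    rw [le_div_iff₀ (by positivity)] at h1
    linarith
  obtain ⟨n, hn⟩ := exists_nat_ge ((r : ℝ) / ε1)
  have hn0 : (0 : ℝ) < n := lt_of_lt_of_le (by positivity) hn
  have hnpos : 0 < n := by exact_mod_cast hn0
  have hrn : (r : ℝ) / n ≤ ε1 := by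
    rw [div_le_iff₀ hε10] at hn
    rw [div_le_iff₀ hn0]
    linarith
  set κ : ℝ := κ0 * (1 / n) with hκ
  have hκ0 : 0 < κ := by positivity
  obtain ⟨C1, hC10, hC1⟩ := tail2 l hl κ ε1 hκ0 hε10
  obtain ⟨C0, hC00, hC0⟩ := triv ε1 hε10
  set A : ℝ := C0 + C1 with hA
  have hA0 : 0 < A := by positivity
  have hC0A : C0 ≤ A := by rw [hA]; linarith
  have hC1A : C1 ≤ A := by rw [hA]; linarith
  refine ⟨A ^ r * (n * C1 + 1), by positivity, ?_⟩
  intro X H t hH hHX htlow htX S K _ _ hS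
  have hX : 1 ≤ X := hH.trans hHX
  have hX0 : 0 < X := by linarith
  have hH0 : 0 < H := by linarith
  have ht1 : 1 ≤ t := (Real.one_le_rpow hX hκ00.le).trans htlow
  have ht0 : 0 < t := by linarith
  have hsX : 0 < √X := Real.sqrt_pos.mpr hX0
  set M : ℝ := X ^ (1 / 2 + ε1) with hM
  have hM0 : 0 < M := Real.rpow_pos_of_pos hX0 _
  set y : ℕ → ℝ := fun k => t ^ ((k : ℝ) / n) with hy
  have hy0 : ∀ k, 0 < y k := fun k => Real.rpow_pos_of_pos ht0 _
  have hyz : y 0 = 1 := by rw [hy]; simp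
  have hyn : y n = t := by
    show t ^ ((n : ℝ) / n) = t
    rw [div_self hn0.ne', Real.rpow_one]
  have hTM : ∀ D ∈ S, tor l (K D) ≤ C0 * M := by
    intro D hD
    have h1 := hC0 l hl X H hX hHX D (K D) (hS D hD)
    rwa [min_eq_left hε1h] at h1
  set G : ℝ := √H + t ^ (l + 1) / (t ^ r * √X) with hG
  have hG0 : 0 < G := by
    have : 0 < √H := Real.sqrt_pos.mpr hH0
    positivity
  have hpt : ∀ D ∈ S, tor l (K D) ^ r ≤ (A * M) ^ r * (∑ k ∈ range n,
      (1 / y k ^ r) * (if C1 * M / y (k + 1) ≤ tor l (K D) then 1 else 0) + 1 / t ^ r) := by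
    intro D hD
    have hT0 : 0 ≤ tor l (K D) := Nat.cast_nonneg _
    have hs0 : ∀ k ∈ range n, 0 ≤
        (1 / y k ^ r) * (if C1 * M / y (k + 1) ≤ tor l (K D) then (1 : ℝ) else 0) := by
      intro k _
      have := hy0 k
      split_ifs <;> positivity
    by_cases hex : ∃ k, k < n ∧ C1 * M / y (k + 1) ≤ tor l (K D)
    · obtain ⟨hk1, hk2⟩ := Nat.find_spec hex
      have hmin : ∀ j, j < Nat.find hex → ¬ (j < n ∧ C1 * M / y (j + 1) ≤ tor l (K D)) :=
        fun j hj => Nat.find_min hex hj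
      set k0 := Nat.find hex with hk0
      have hle : tor l (K D) ≤ A * M / y k0 := by
        rcases Nat.eq_zero_or_pos k0 with h | h
        · rw [h, hyz, div_one]
          exact (hTM D hD).trans (by gcongr)
        · obtain ⟨j, hj⟩ : ∃ j, k0 = j + 1 := ⟨k0 - 1, by omega⟩
          have h1 := hmin j (by omega)
          have h2 : tor l (K D) < C1 * M / y (j + 1) := by
            by_contra hcon
            push Not at hcon
            exact h1 ⟨by omega, hcon⟩
          rw [hj]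
          refine h2.le.trans ?_
          have := hy0 (j + 1)
          gcongr
      have h1 := Finset.single_le_sum hs0 (mem_range.2 hk1)
      rw [if_pos hk2, mul_one] at h1
      calc tor l (K D) ^ r ≤ (A * M / y k0) ^ r := by gcongr
        _ = (A * M) ^ r * (1 / y k0 ^ r) := by rw [div_pow]; ring
        _ ≤ _ := by
            apply mul_le_mul_of_nonneg_left _ (by positivity)
            have : 0 ≤ 1 / t ^ r := by positivity
            linarith
    · push Not at hex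
      have h1 := hex (n - 1) (by omega)
      have e : n - 1 + 1 = n := by omega
      rw [e, hyn] at h1
      have h2 : tor l (K D) ≤ A * M / t := by
        refine h1.le.trans ?_
        gcongr
      calc tor l (K D) ^ r ≤ (A * M / t) ^ r := by gcongr
        _ = (A * M) ^ r * (1 / t ^ r) := by rw [div_pow]; ring
        _ ≤ _ := by
            apply mul_le_mul_of_nonneg_left _ (by positivity)
            have := Finset.sum_nonneg hs0
            linarith
  have htrn : t ^ ((r : ℝ) / n) ≤ X ^ ε1 := by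
    calc t ^ ((r : ℝ) / n) ≤ X ^ ((r : ℝ) / n) := Real.rpow_le_rpow ht0.le htX (by positivity)
      _ ≤ X ^ ε1 := Real.rpow_le_rpow_of_exponent_le hX hrn
  have hcount : ∀ k ∈ range n, (1 / y k ^ r) *
      ((S.filter (fun D => C1 * M / y (k + 1) ≤ tor l (K D))).card : ℝ) ≤
      C1 * ((X ^ ε1 * X ^ ε1) * G) := by
    intro k hk
    rw [mem_range] at hk
    have hlow : X ^ κ ≤ y (k + 1) := by
      calc X ^ κ = (X ^ κ0) ^ ((1 : ℝ) / n) := by
            rw [← Real.rpow_mul hX0.le]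
        _ ≤ t ^ ((1 : ℝ) / n) := Real.rpow_le_rpow (by positivity) htlow (by positivity)
        _ ≤ t ^ (((k + 1 : ℕ) : ℝ) / n) := by
            apply Real.rpow_le_rpow_of_exponent_le ht1
            apply div_le_div_of_nonneg_right _ hn0.le
            push_cast
            have : (0 : ℝ) ≤ k := Nat.cast_nonneg _
            linarith
    have hup : y (k + 1) ≤ X := by
      refine le_trans ?_ htX
      calc y (k + 1) ≤ t ^ (1 : ℝ) := by
            apply Real.rpow_le_rpow_of_exponent_le ht1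
            rw [div_le_one hn0]
            exact_mod_cast hk
        _ = t := Real.rpow_one t
    have h1 := hC1 X H (y (k + 1)) hH hHX hlow hup S K hS
    have h2 := terms2 (l := l) (n := n) (H := H) hr hlr hk hX ht1
    have hyk := hy0 k
    calc (1 / y k ^ r) * ((S.filter (fun D => C1 * M / y (k + 1) ≤ tor l (K D))).card : ℝ)
        ≤ (1 / y k ^ r) * (C1 * X ^ ε1 * (y (k + 1) * √H + y (k + 1) ^ (l + 1) / √X)) := by gcongr
      _ = C1 * X ^ ε1 * ((1 / y k ^ r) * (y (k + 1) * √H + y (k + 1) ^ (l + 1) / √X)) := by ring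
      _ ≤ C1 * X ^ ε1 * (t ^ ((r : ℝ) / n) * G) := by
          apply mul_le_mul_of_nonneg_left h2
          positivity
      _ ≤ C1 * X ^ ε1 * (X ^ ε1 * G) := by gcongr
      _ = _ := by ring
  have hsum : ∑ D ∈ S, tor l (K D) ^ r ≤
      (A * M) ^ r * (n * (C1 * ((X ^ ε1 * X ^ ε1) * G)) + S.card * (1 / t ^ r)) := by
    calc ∑ D ∈ S, tor l (K D) ^ r ≤ ∑ D ∈ S, (A * M) ^ r * (∑ k ∈ range n,
          (1 / y k ^ r) * (if C1 * M / y (k + 1) ≤ tor l (K D) then 1 else 0) + 1 / t ^ r) :=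
          Finset.sum_le_sum hpt
      _ = (A * M) ^ r * (∑ k ∈ range n, (1 / y k ^ r) *
          ((S.filter (fun D => C1 * M / y (k + 1) ≤ tor l (K D))).card : ℝ) +
            S.card * (1 / t ^ r)) := by
          rw [← Finset.mul_sum, Finset.sum_add_distrib, Finset.sum_comm, sum_const, nsmul_eq_mul]
          congr 2
          apply Finset.sum_congr rfl
          intro k _
          rw [← Finset.mul_sum, ← Finset.sum_filter, sum_const, nsmul_eq_mul, mul_one]
      _ ≤ (A * M) ^ r * (∑ k ∈ range n, C1 * ((X ^ ε1 * X ^ ε1) * G) +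
            S.card * (1 / t ^ r)) := by
          apply mul_le_mul_of_nonneg_left _ (by positivity)
          apply add_le_add (Finset.sum_le_sum hcount) le_rfl
      _ = _ := by rw [sum_const, card_range, nsmul_eq_mul]
  have hMr : M ^ r = √X ^ r * X ^ (r * ε1) := by rw [hM]; exact rpow_half_add hX r
  have hF1 : 1 ≤ X ^ ε1 := Real.one_le_rpow hX hε10.le
  have hXX : X ^ ((r : ℝ) * ε1) * (X ^ ε1 * X ^ ε1) ≤ X ^ ε := by
    rw [← Real.rpow_add hX0, ← Real.rpow_add hX0]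
    apply Real.rpow_le_rpow_of_exponent_le hX
    linarith
  have hone : 1 ≤ X ^ ε1 * X ^ ε1 := by nlinarith
  set Q : ℝ := (S.card : ℝ) / t ^ r with hQ
  have hQ0 : 0 ≤ Q := by positivity
  refine hsum.trans ?_
  have hGle : (S.card : ℝ) / t ^ r + √H + t ^ (l + 1) / (t ^ r * √X) = Q + G := by
    rw [hQ, hG]; ring
  rw [hGle]
  calc (A * M) ^ r * (n * (C1 * ((X ^ ε1 * X ^ ε1) * G)) + S.card * (1 / t ^ r))
      = (A * M) ^ r * (n * C1 * (X ^ ε1 * X ^ ε1) * G + Q) := by rw [hQ]; ring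
    _ ≤ (A * M) ^ r * ((n * C1 + 1) * (X ^ ε1 * X ^ ε1) * (Q + G)) := by
        apply mul_le_mul_of_nonneg_left _ (by positivity)
        have h1 : Q ≤ (X ^ ε1 * X ^ ε1) * Q := by nlinarith
        have h2 : 0 ≤ n * C1 * (X ^ ε1 * X ^ ε1) * Q := by positivity
        have h3 : 0 ≤ (X ^ ε1 * X ^ ε1) * G := by positivity
        nlinarith
    _ = A ^ r * (n * C1 + 1) * (X ^ ((r : ℝ) * ε1) * (X ^ ε1 * X ^ ε1)) * (√X ^ r * (Q + G)) := by
        rw [mul_pow, hMr]; ring
    _ ≤ _ := by gcongr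

/-- the moments of the torsion over an arbitrary family -/
theorem moment3 (l r : ℕ) (hl : 1 ≤ l) (hr : 1 ≤ r) (hlr : r ≤ l + 1) (ε : ℝ) (hε : 0 < ε) :
    ∃ C : ℝ, 0 < C ∧ ∀ X H M : ℝ, 1 ≤ M → M ≤ H → H ≤ X →
    ∀ (S : Finset ℤ) (K : ℤ → Type) [∀ D, Field (K D)] [∀ D, NumberField (K D)],
    (S.card : ℝ) ≤ 4 * M →
    (∀ D ∈ S, (X ≤ |(D : ℝ)| ∧ |(D : ℝ)| ≤ X + H) ∧ Module.finrank ℚ (K D) = 2 ∧
      NumberField.discr (K D) = D) →
    ∑ D ∈ S, tor l (K D) ^ r ≤
      C * X ^ ε * (√X ^ r * (M / ((M * √X) ^ (1 / ((l : ℝ) + 1))) ^ r + √H)) := by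
  have hl1 : (1 : ℝ) ≤ l := by exact_mod_cast hl
  obtain ⟨C, hC0, hC⟩ := moment2 l r hl hr hlr (1 / (2 * ((l : ℝ) + 1))) ε (by positivity) hε
  refine ⟨5 * C, by positivity, ?_⟩
  intro X H M hM hMH hHX S K _ _ hSM hS
  have hH : 1 ≤ H := hM.trans hMH
  have hX : 1 ≤ X := hH.trans hHX
  have hX0 : 0 < X := by linarith
  have hsX1 : 1 ≤ √X := by rw [Real.one_le_sqrt]; exact hX
  have hsXX : √X ≤ X := by
    rw [Real.sqrt_le_iff]
    exact ⟨hX0.le, by nlinarith⟩
  have hQ : 0 < M * √X := by positivity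
  set t : ℝ := (M * √X) ^ (1 / ((l : ℝ) + 1)) with ht
  have ht0 : 0 < t := Real.rpow_pos_of_pos hQ _
  have htl : t ^ (l + 1) = M * √X := by
    rw [ht, ← Real.rpow_natCast, ← Real.rpow_mul hQ.le]
    push_cast
    rw [one_div, inv_mul_cancel₀ (by positivity), Real.rpow_one]
  have ht1 : 1 ≤ t := by
    rw [ht]
    apply Real.one_le_rpow _ (by positivity)
    nlinarith
  have htX : t ≤ X := by
    by_contra h
    push Not at h
    have h1 : t ^ 2 ≤ t ^ (l + 1) := pow_le_pow_right₀ ht1 (by omega)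
    rw [htl] at h1
    nlinarith
  have htlow : X ^ (1 / (2 * ((l : ℝ) + 1))) ≤ t := by
    have h1 : (X ^ (1 / (2 * ((l : ℝ) + 1)))) ^ (l + 1) ≤ t ^ (l + 1) := by
      rw [htl, ← Real.rpow_natCast, ← Real.rpow_mul hX0.le]
      have e : 1 / (2 * ((l : ℝ) + 1)) * ((l + 1 : ℕ) : ℝ) = 1 / 2 := by
        push_cast
        field_simp
      rw [e, ← Real.sqrt_eq_rpow]
      nlinarith
    exact (pow_le_pow_iff_left₀ (by positivity) ht0.le (by omega)).mp h1
  have h1 := hC X H t hH hHX htlow htX S K hS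
  refine h1.trans ?_
  have h2 : t ^ (l + 1) / (t ^ r * √X) = M / t ^ r := by
    rw [htl]
    have : 0 < √X := by linarith
    field_simp
  rw [h2]
  have h3 : (S.card : ℝ) / t ^ r ≤ 4 * (M / t ^ r) := by
    rw [← mul_div_assoc]
    gcongr
  have h4 : 0 ≤ √H := Real.sqrt_nonneg _
  have h5 : (S.card : ℝ) / t ^ r + √H + M / t ^ r ≤ 5 * (M / t ^ r + √H) := by linarith
  calc C * X ^ ε * (√X ^ r * ((S.card : ℝ) / t ^ r + √H + M / t ^ r))
      ≤ C * X ^ ε * (√X ^ r * (5 * (M / t ^ r + √H))) := by gcongr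
    _ = _ := by ring

end Pool.Agent.V146.QT
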