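import Pool.Agent.V146.QT.Thin

set_option autoImplicit false

/-!
# Moments of the torsion of class groups over arbitrary subfamilies of thin families
-/

namespace Pool.Agent.V146.QT

open NumberField Finset Pool.Agent.TH869.EVF Pool.Agent.Y159.QS Pool.Agent.Y159.TQ
open scoped Classical

/-- trivial bound in a thin family -/
theorem triv_t (a b c : ℤ) (ha : a ≠ 0) (ε : ℝ) (hε : 0 < ε) : ∃ C : ℝ, 0 < C ∧ ∀ l : ℕ, 1 ≤ l →
    ∀ N : ℝ, 1 ≤ N → ∀ (t : ℤ) (K : Type) [Field K] [NumberField K],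
    ((N ≤ |(t : ℝ)| ∧ |(t : ℝ)| ≤ 2 * N) ∧ Module.finrank ℚ K = 2 ∧
      NumberField.discr K = a * t ^ 2 + b * t + c) →
    tor l K ≤ C * N ^ (1 + ε) := by
  set ε1 : ℝ := min (ε / 2) (1 / 2) with hε1
  have hε10 : 0 < ε1 := lt_min (by positivity) (by norm_num)
  have hε1h : ε1 ≤ 1 / 2 := min_le_right _ _
  have hε12 : 2 * ε1 ≤ ε := by linarith [min_le_left (ε / 2) (1 / 2 : ℝ)]
  obtain ⟨C0, hC00, hC0⟩ := single ε1 hε10
  set G0 : ℝ := |(a : ℝ)| + |(b : ℝ)| + |(c : ℝ)| with hG0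
  have hG01 : 1 ≤ G0 := by
    have ha1 : (1 : ℝ) ≤ |(a : ℝ)| := by exact_mod_cast Int.one_le_abs ha
    have := abs_nonneg (b : ℝ)
    have := abs_nonneg (c : ℝ)
    linarith
  set G : ℝ := 4 * G0 with hG
  have hG1 : 1 ≤ G := by linarith
  have hG0' : 0 < G := by linarith
  refine ⟨C0 * G, by positivity, ?_⟩
  intro l hl N hN t K _ _ hS
  have hN0 : 0 < N := by linarith
  have hup : |((a * t ^ 2 + b * t + c : ℤ) : ℝ)| ≤ G * N ^ 2 := by
    refine (quad_upper a b c t (hN.trans hS.1.1)).trans ?_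
    calc G0 * |(t : ℝ)| ^ 2 ≤ G0 * (2 * N) ^ 2 := by gcongr; exact hS.1.2
      _ = G * N ^ 2 := by rw [hG]; ring
  have h2 : |((a * t ^ 2 + b * t + c : ℤ) : ℝ)| ^ (1 / 2 + ε1) ≤ G * N ^ (1 + 2 * ε1) := by
    calc |((a * t ^ 2 + b * t + c : ℤ) : ℝ)| ^ (1 / 2 + ε1) ≤ (G * N ^ 2) ^ (1 / 2 + ε1) :=
          Real.rpow_le_rpow (abs_nonneg _) hup (by positivity)
      _ = G ^ (1 / 2 + ε1) * (N ^ 2) ^ (1 / 2 + ε1) := Real.mul_rpow hG0'.le (by positivity)
      _ = G ^ (1 / 2 + ε1) * N ^ (1 + 2 * ε1) := by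
          congr 1
          rw [← Real.rpow_natCast N 2, ← Real.rpow_mul hN0.le]
          congr 1
          push_cast; ring
      _ ≤ G ^ (1 : ℝ) * N ^ (1 + 2 * ε1) := by
          gcongr
          linarith
      _ = _ := by rw [Real.rpow_one]
  have h1 := (hC0 l hl K hS.2.1 0 ∅ (by simp)).1
  rw [hS.2.2] at h1
  have h3 : N ^ (1 + 2 * ε1) ≤ N ^ (1 + ε) :=
    Real.rpow_le_rpow_of_exponent_le hN (by linarith)
  calc tor l K ≤ C0 * |((a * t ^ 2 + b * t + c : ℤ) : ℝ)| ^ (1 / 2 + ε1) := h1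
    _ ≤ C0 * (G * N ^ (1 + ε)) := by
        apply mul_le_mul_of_nonneg_left _ hC00.le
        exact h2.trans (by gcongr)
    _ = _ := by ring

/-- the two terms of the tail bound at one scale -/
theorem terms3 {l r n k : ℕ} (hr : 1 ≤ r) (hlr : r ≤ l + 1) (hk : k < n) {N t : ℝ}
    (hN : 1 ≤ N) (ht1 : 1 ≤ t) :
    (1 / (t ^ ((k : ℝ) / n)) ^ r) * (1 + (t ^ (((k + 1 : ℕ) : ℝ) / n)) ^ (l + 1) / N) ≤
      t ^ ((r : ℝ) / n) * (1 + t ^ (l + 1) / (t ^ r * N)) := by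
  have hN2 : 1 ≤ N ^ 2 := one_le_pow₀ hN
  have h := terms2 (l := l) (n := n) (H := 1) hr hlr hk hN2 ht1
  rw [Real.sqrt_one, Real.sqrt_sq (by linarith), mul_one] at h
  refine le_trans ?_ h
  have ht0 : 0 < t := by linarith
  have hyk : 0 < t ^ ((k : ℝ) / n) := Real.rpow_pos_of_pos ht0 _
  apply mul_le_mul_of_nonneg_left _ (by positivity)
  have h1 : 1 ≤ t ^ (((k + 1 : ℕ) : ℝ) / n) := Real.one_le_rpow ht1 (by positivity)
  linarith

theorem moment_t (a b c : ℤ) (ha : a ≠ 0) (hΔ : b ^ 2 - 4 * a * c ≠ 0)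
    (l r : ℕ) (hl : 1 ≤ l) (hr : 1 ≤ r) (hlr : r ≤ l + 1) (κ0 ε : ℝ) (hκ00 : 0 < κ0)
    (hε : 0 < ε) : ∃ C : ℝ, 0 < C ∧ ∀ N t : ℝ, 1 ≤ N → N ^ κ0 ≤ t → t ≤ N →
    ∀ (S : Finset ℤ) (K : ℤ → Type) [∀ D, Field (K D)] [∀ D, NumberField (K D)],
    (∀ s ∈ S, (N ≤ |(s : ℝ)| ∧ |(s : ℝ)| ≤ 2 * N) ∧ Module.finrank ℚ (K s) = 2 ∧
      NumberField.discr (K s) = a * s ^ 2 + b * s + c) →
    ∑ s ∈ S, tor l (K s) ^ r ≤
      C * N ^ ε * (N ^ r * ((S.card : ℝ) / t ^ r + 1 + t ^ (l + 1) / (t ^ r * N))) := by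
  have hrr : (1 : ℝ) ≤ r := by exact_mod_cast hr
  have hlr1 : (1 : ℝ) ≤ l := by exact_mod_cast hl
  set ε1 : ℝ := ε / (r + 2) with hε1
  have hε10 : 0 < ε1 := by positivity
  have hε1a : (r + 2) * ε1 ≤ ε := by
    rw [hε1, mul_div_cancel₀ _ (by positivity)]
  obtain ⟨n, hn⟩ := exists_nat_ge ((r : ℝ) / ε1)
  have hn0 : (0 : ℝ) < n := lt_of_lt_of_le (by positivity) hn
  have hnpos : 0 < n := by exact_mod_cast hn0
  have hrn : (r : ℝ) / n ≤ ε1 := by
    rw [div_le_iff₀ hε10] at hn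
    rw [div_le_iff₀ hn0]
    linarith
  set κ : ℝ := κ0 * (1 / n) with hκ
  have hκ0 : 0 < κ := by positivity
  obtain ⟨C1, hC10, hC1⟩ := tail3 a b c ha hΔ l hl κ ε1 hκ0 hε10
  obtain ⟨C0, hC00, hC0⟩ := triv_t a b c ha ε1 hε10
  set A : ℝ := C0 + C1 with hA
  have hA0 : 0 < A := by positivity
  have hC0A : C0 ≤ A := by rw [hA]; linarith
  have hC1A : C1 ≤ A := by rw [hA]; linarith
  refine ⟨A ^ r * (n * C1 + 1), by positivity, ?_⟩
  intro N t hN htlow htN S K _ _ hS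
  have hN0 : 0 < N := by linarith
  have ht1 : 1 ≤ t := (Real.one_le_rpow hN hκ00.le).trans htlow
  have ht0 : 0 < t := by linarith
  set M : ℝ := N ^ (1 + ε1) with hM
  have hM0 : 0 < M := Real.rpow_pos_of_pos hN0 _
  set y : ℕ → ℝ := fun k => t ^ ((k : ℝ) / n) with hy
  have hy0 : ∀ k, 0 < y k := fun k => Real.rpow_pos_of_pos ht0 _
  have hyz : y 0 = 1 := by rw [hy]; simp
  have hyn : y n = t := by
    show t ^ ((n : ℝ) / n) = t
    rw [div_self hn0.ne', Real.rpow_one]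
  have hTM : ∀ D ∈ S, tor l (K D) ≤ C0 * M := by
    intro D hD
    exact hC0 l hl N hN D (K D) (hS D hD)
  set G : ℝ := 1 + t ^ (l + 1) / (t ^ r * N) with hG
  have hG0 : 0 < G := by positivity
  have hpt : ∀ D ∈ S, tor l (K D) ^ r ≤ (A * M) ^ r * (∑ k ∈ range n,
      (1 / y k ^ r) * (if C1 * M / y (k + 1) ≤ tor l (K D) then 1 else 0) + 1 / t ^ r) := by
    intro D hD
    have hT0 : 0 ≤ tor l (K D) := Nat.cast_nonneg _
    have hs0 : ∀ k ∈ range n, 0 ≤
        (1 / y k ^ r) * (if C1 * M / y (k + 1) ≤ tor l (K D) then (1 : ℝ) else 0) := by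
      intro k _
      have := hy0 k
      split_ifs <;> positivity
    by_cases hex : ∃ k, k < n ∧ C1 * M / y (k + 1) ≤ tor l (K D)
    · obtain ⟨hk1, hk2⟩ := Nat.find_spec hex
      have hmin : ∀ j, j < Nat.find hex → ¬ (j < n ∧ C1 * M / y (j + 1) ≤ tor l (K D)) :=
        fun j hj => Nat.find_min hex hj
      set k0 := Nat.find hex with hk0
      have hle : tor l (K D) ≤ A * M / y k0 := by
        rcases Nat.eq_zero_or_pos k0 with h | h
        · rw [h, hyz, div_one]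
          exact (hTM D hD).trans (by gcongr)
        · obtain ⟨j, hj⟩ : ∃ j, k0 = j + 1 := ⟨k0 - 1, by omega⟩
          have h1 := hmin j (by omega)
          have h2 : tor l (K D) < C1 * M / y (j + 1) := by
            by_contra hcon
            push Not at hcon
            exact h1 ⟨by omega, hcon⟩
          rw [hj]
          refine h2.le.trans ?_
          have := hy0 (j + 1)
          gcongr
      have h1 := Finset.single_le_sum hs0 (mem_range.2 hk1)
      rw [if_pos hk2, mul_one] at h1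
      calc tor l (K D) ^ r ≤ (A * M / y k0) ^ r := by gcongr
        _ = (A * M) ^ r * (1 / y k0 ^ r) := by rw [div_pow]; ring
        _ ≤ _ := by
            apply mul_le_mul_of_nonneg_left _ (by positivity)
            have : 0 ≤ 1 / t ^ r := by positivity
            linarith
    · push Not at hex
      have h1 := hex (n - 1) (by omega)
      have e : n - 1 + 1 = n := by omega
      rw [e, hyn] at h1
      have h2 : tor l (K D) ≤ A * M / t := by
        refine h1.le.trans ?_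
        gcongr
      calc tor l (K D) ^ r ≤ (A * M / t) ^ r := by gcongr
        _ = (A * M) ^ r * (1 / t ^ r) := by rw [div_pow]; ring
        _ ≤ _ := by
            apply mul_le_mul_of_nonneg_left _ (by positivity)
            have := Finset.sum_nonneg hs0
            linarith
  have htrn : t ^ ((r : ℝ) / n) ≤ N ^ ε1 := by
    calc t ^ ((r : ℝ) / n) ≤ N ^ ((r : ℝ) / n) := Real.rpow_le_rpow ht0.le htN (by positivity)
      _ ≤ N ^ ε1 := Real.rpow_le_rpow_of_exponent_le hN hrn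
  have hcount : ∀ k ∈ range n, (1 / y k ^ r) *
      ((S.filter (fun D => C1 * M / y (k + 1) ≤ tor l (K D))).card : ℝ) ≤
      C1 * ((N ^ ε1 * N ^ ε1) * G) := by
    intro k hk
    rw [mem_range] at hk
    have hlow : N ^ κ ≤ y (k + 1) := by
      calc N ^ κ = (N ^ κ0) ^ ((1 : ℝ) / n) := by
            rw [← Real.rpow_mul hN0.le]
        _ ≤ t ^ ((1 : ℝ) / n) := Real.rpow_le_rpow (by positivity) htlow (by positivity)
        _ ≤ t ^ (((k + 1 : ℕ) : ℝ) / n) := by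
            apply Real.rpow_le_rpow_of_exponent_le ht1
            apply div_le_div_of_nonneg_right _ hn0.le
            push_cast
            have : (0 : ℝ) ≤ k := Nat.cast_nonneg _
            linarith
    have hup : y (k + 1) ≤ N := by
      refine le_trans ?_ htN
      calc y (k + 1) ≤ t ^ (1 : ℝ) := by
            apply Real.rpow_le_rpow_of_exponent_le ht1
            rw [div_le_one hn0]
            exact_mod_cast hk
        _ = t := Real.rpow_one t
    have h1 := hC1 N (y (k + 1)) hN hlow hup S K hS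
    have h2 := terms3 (l := l) (n := n) hr hlr hk hN ht1
    have hyk := hy0 k
    calc (1 / y k ^ r) * ((S.filter (fun D => C1 * M / y (k + 1) ≤ tor l (K D))).card : ℝ)
        ≤ (1 / y k ^ r) * (C1 * N ^ ε1 * (1 + y (k + 1) ^ (l + 1) / N)) := by gcongr
      _ = C1 * N ^ ε1 * ((1 / y k ^ r) * (1 + y (k + 1) ^ (l + 1) / N)) := by ring
      _ ≤ C1 * N ^ ε1 * (t ^ ((r : ℝ) / n) * G) := by
          apply mul_le_mul_of_nonneg_left h2
          positivity
      _ ≤ C1 * N ^ ε1 * (N ^ ε1 * G) := by gcongr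
      _ = _ := by ring
  have hsum : ∑ D ∈ S, tor l (K D) ^ r ≤
      (A * M) ^ r * (n * (C1 * ((N ^ ε1 * N ^ ε1) * G)) + S.card * (1 / t ^ r)) := by
    calc ∑ D ∈ S, tor l (K D) ^ r ≤ ∑ D ∈ S, (A * M) ^ r * (∑ k ∈ range n,
          (1 / y k ^ r) * (if C1 * M / y (k + 1) ≤ tor l (K D) then 1 else 0) + 1 / t ^ r) :=
          Finset.sum_le_sum hpt
      _ = (A * M) ^ r * (∑ k ∈ range n, (1 / y k ^ r) *
          ((S.filter (fun D => C1 * M / y (k + 1) ≤ tor l (K D))).card : ℝ) +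
            S.card * (1 / t ^ r)) := by
          rw [← Finset.mul_sum, Finset.sum_add_distrib, Finset.sum_comm, sum_const, nsmul_eq_mul]
          congr 2
          apply Finset.sum_congr rfl
          intro k _
          rw [← Finset.mul_sum, ← Finset.sum_filter, sum_const, nsmul_eq_mul, mul_one]
      _ ≤ (A * M) ^ r * (∑ k ∈ range n, C1 * ((N ^ ε1 * N ^ ε1) * G) +
            S.card * (1 / t ^ r)) := by
          apply mul_le_mul_of_nonneg_left _ (by positivity)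
          apply add_le_add (Finset.sum_le_sum hcount) le_rfl
      _ = _ := by rw [sum_const, card_range, nsmul_eq_mul]
  have hMr : M ^ r = N ^ r * N ^ (r * ε1) := by rw [hM]; exact rpow_one_add hN r
  have hF1 : 1 ≤ N ^ ε1 := Real.one_le_rpow hN hε10.le
  have hXX : N ^ ((r : ℝ) * ε1) * (N ^ ε1 * N ^ ε1) ≤ N ^ ε := by
    rw [← Real.rpow_add hN0, ← Real.rpow_add hN0]
    apply Real.rpow_le_rpow_of_exponent_le hN
    linarith
  have hone : 1 ≤ N ^ ε1 * N ^ ε1 := by nlinarith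
  set Q : ℝ := (S.card : ℝ) / t ^ r with hQ
  have hQ0 : 0 ≤ Q := by positivity
  refine hsum.trans ?_
  have hGle : Q + 1 + t ^ (l + 1) / (t ^ r * N) = Q + G := by
    rw [hG]; ring
  rw [hGle]
  calc (A * M) ^ r * (n * (C1 * ((N ^ ε1 * N ^ ε1) * G)) + S.card * (1 / t ^ r))
      = (A * M) ^ r * (n * C1 * (N ^ ε1 * N ^ ε1) * G + Q) := by rw [hQ]; ring
    _ ≤ (A * M) ^ r * ((n * C1 + 1) * (N ^ ε1 * N ^ ε1) * (Q + G)) := by
        apply mul_le_mul_of_nonneg_left _ (by positivity)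
        have h1 : Q ≤ (N ^ ε1 * N ^ ε1) * Q := by nlinarith
        have h2 : 0 ≤ n * C1 * (N ^ ε1 * N ^ ε1) * Q := by positivity
        have h3 : 0 ≤ (N ^ ε1 * N ^ ε1) * G := by positivity
        nlinarith
    _ = A ^ r * (n * C1 + 1) * (N ^ ((r : ℝ) * ε1) * (N ^ ε1 * N ^ ε1)) * (N ^ r * (Q + G)) := by
        rw [mul_pow, hMr]; ring
    _ ≤ _ := by gcongr

/-- the moments of the torsion over an arbitrary subfamily of a thin family -/
theorem moment_t' (a b c : ℤ) (ha : a ≠ 0) (hΔ : b ^ 2 - 4 * a * c ≠ 0)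
    (l r : ℕ) (hl : 1 ≤ l) (hr : 1 ≤ r) (hlr : r ≤ l + 1) (ε : ℝ) (hε : 0 < ε) :
    ∃ C : ℝ, 0 < C ∧ ∀ N M : ℝ, 1 ≤ M → M ≤ N →
    ∀ (S : Finset ℤ) (K : ℤ → Type) [∀ D, Field (K D)] [∀ D, NumberField (K D)],
    (S.card : ℝ) ≤ 4 * M →
    (∀ s ∈ S, (N ≤ |(s : ℝ)| ∧ |(s : ℝ)| ≤ 2 * N) ∧ Module.finrank ℚ (K s) = 2 ∧
      NumberField.discr (K s) = a * s ^ 2 + b * s + c) →
    ∑ D ∈ S, tor l (K D) ^ r ≤
      C * N ^ ε * (N ^ r * (M / ((M * N) ^ (1 / ((l : ℝ) + 1))) ^ r + 1)) := by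
  have hl1 : (1 : ℝ) ≤ l := by exact_mod_cast hl
  obtain ⟨C, hC0, hC⟩ := moment_t a b c ha hΔ l r hl hr hlr (1 / ((l : ℝ) + 1)) ε (by positivity) hε
  refine ⟨5 * C, by positivity, ?_⟩
  intro N M hM hMN S K _ _ hSM hS
  have hN : 1 ≤ N := hM.trans hMN
  have hN0 : 0 < N := by linarith
  have hQ : 0 < M * N := by positivity
  set t : ℝ := (M * N) ^ (1 / ((l : ℝ) + 1)) with ht
  have ht0 : 0 < t := Real.rpow_pos_of_pos hQ _
  have htl : t ^ (l + 1) = M * N := by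
    rw [ht, ← Real.rpow_natCast, ← Real.rpow_mul hQ.le]
    push_cast
    rw [one_div, inv_mul_cancel₀ (by positivity), Real.rpow_one]
  have ht1 : 1 ≤ t := by
    rw [ht]
    apply Real.one_le_rpow _ (by positivity)
    nlinarith
  have htN : t ≤ N := by
    by_contra h
    push Not at h
    have h1 : t ^ 2 ≤ t ^ (l + 1) := pow_le_pow_right₀ ht1 (by omega)
    rw [htl] at h1
    nlinarith
  have htlow : N ^ (1 / ((l : ℝ) + 1)) ≤ t := by
    rw [ht]
    apply Real.rpow_le_rpow hN0.le _ (by positivity)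
    nlinarith
  have h1 := hC N t hN htlow htN S K hS
  refine h1.trans ?_
  have h2 : t ^ (l + 1) / (t ^ r * N) = M / t ^ r := by
    rw [htl]
    field_simp
  rw [h2]
  have h3 : (S.card : ℝ) / t ^ r ≤ 4 * (M / t ^ r) := by
    rw [← mul_div_assoc]
    gcongr
  have h5 : (S.card : ℝ) / t ^ r + 1 + M / t ^ r ≤ 5 * (M / t ^ r + 1) := by linarith
  calc C * N ^ ε * (N ^ r * ((S.card : ℝ) / t ^ r + 1 + M / t ^ r))
      ≤ C * N ^ ε * (N ^ r * (5 * (M / t ^ r + 1))) := by gcongr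
    _ = _ := by ring

/-- products of torsion numbers over arbitrary subfamilies of a thin family -/
theorem prod_thin (a b c : ℤ) (ha : a ≠ 0) (hΔ : b ^ 2 - 4 * a * c ≠ 0)
    {ι : Type} [Fintype ι] [Nonempty ι] (l : ι → ℕ) (hl : ∀ j, 1 ≤ l j)
    (hlr : ∀ j, Fintype.card ι ≤ l j + 1) (ε : ℝ) (hε : 0 < ε) : ∃ C : ℝ, 0 < C ∧
    ∀ N M : ℝ, 1 ≤ M → M ≤ N →
    (∀ j, (M * N) ^ ((Fintype.card ι : ℝ) / ((l j : ℝ) + 1)) ≤ M) →
    ∀ (S : Finset ℤ) (K : ℤ → Type) [∀ D, Field (K D)] [∀ D, NumberField (K D)],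
    (S.card : ℝ) ≤ 4 * M →
    (∀ s ∈ S, (N ≤ |(s : ℝ)| ∧ |(s : ℝ)| ≤ 2 * N) ∧ Module.finrank ℚ (K s) = 2 ∧
      NumberField.discr (K s) = a * s ^ 2 + b * s + c) →
    ∑ D ∈ S, ∏ j, tor (l j) (K D) ≤
      C * N ^ ε * M * ∏ j, (N / (M * N) ^ (1 / ((l j : ℝ) + 1))) := by
  have hr : 1 ≤ Fintype.card ι := Fintype.card_pos
  have hm := fun j => moment_t' a b c ha hΔ (l j) (Fintype.card ι) (hl j) hr (hlr j) ε hε
  choose C hC0 hC using hm
  refine ⟨∑ j, 2 * C j, Finset.sum_pos (fun j _ => by have := hC0 j; positivity) univ_nonempty, ?_⟩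
  intro N M hM hMN hc S K _ _ hSM hS
  have hN : 1 ≤ N := hM.trans hMN
  have hN0 : 0 < N := by linarith
  have hM0 : 0 < M := by linarith
  have hQ : 0 < M * N := mul_pos hM0 hN0
  have ht : ∀ j, 0 < (M * N) ^ (1 / ((l j : ℝ) + 1)) := fun j => Real.rpow_pos_of_pos hQ _
  have hsc : ∀ j, 1 ≤ M / ((M * N) ^ (1 / ((l j : ℝ) + 1))) ^ Fintype.card ι := by
    intro j
    have h1 := hc j
    rw [le_div_iff₀ (pow_pos (ht j) _), one_mul]
    refine le_trans (le_of_eq ?_) h1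
    rw [← Real.rpow_natCast, ← Real.rpow_mul hQ.le]
    congr 1
    ring
  have h1 := weights S (fun j D => tor (l j) (K D)) (fun j D => Nat.cast_nonneg _)
    (fun j => N / (M * N) ^ (1 / ((l j : ℝ) + 1))) (fun j => div_pos hN0 (ht j))
    (fun j => 2 * C j) (N ^ ε * M) (by
      intro j
      have h2 := hsc j
      have h3 := hC j N M hM hMN S K hSM hS
      refine h3.trans ?_
      have hCj := hC0 j
      calc C j * N ^ ε * (N ^ Fintype.card ι *
            (M / ((M * N) ^ (1 / ((l j : ℝ) + 1))) ^ Fintype.card ι + 1))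
          ≤ C j * N ^ ε * (N ^ Fintype.card ι *
            (M / ((M * N) ^ (1 / ((l j : ℝ) + 1))) ^ Fintype.card ι +
              M / ((M * N) ^ (1 / ((l j : ℝ) + 1))) ^ Fintype.card ι)) := by gcongr
        _ = _ := by rw [div_pow]; ring)
  refine h1.trans (le_of_eq ?_)
  ring

end Pool.Agent.V146.QT
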