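import Pool.Agent.H386R2.Artin.BadCount
import Pool.Agent.H385R2.EcD1
import Pool.Agent.H568.GR.Fund
import Pool.Agent.Y159.QS.Sup

set_option autoImplicit false

/-!
# Few discriminants with few split primes: the large sieve
-/

namespace Pool.Agent.V146.QT

open Finset
open scoped Nat NumberTheorySymbols

open Pool.Agent.H386R2.Artin.T1 (cc maps_to sum_cc_sq)

/-- the weighted number of `r`-tuples from `E` with product `n` -/
noncomputable def cw (w : ℕ → ℂ) (E : Finset ℕ) (r n : ℕ) : ℂ :=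
  ∑ v ∈ (Fintype.piFinset (fun _ : Fin r => E)).filter (fun v => ∏ i, v i = n), ∏ i, w (v i)

theorem cw_norm {w : ℕ → ℂ} {E : Finset ℕ} (hw : ∀ p ∈ E, ‖w p‖ ≤ 1) (r n : ℕ) :
    ‖cw w E r n‖ ≤ ‖(cc E r n : ℂ)‖ := by
  unfold cw cc
  rw [Complex.norm_natCast]
  refine (norm_sum_le _ _).trans ?_
  calc ∑ v ∈ (Fintype.piFinset (fun _ : Fin r => E)).filter (fun v => ∏ i, v i = n), ‖∏ i, w (v i)‖
      ≤ ∑ v ∈ (Fintype.piFinset (fun _ : Fin r => E)).filter (fun v => ∏ i, v i = n), (1 : ℝ) := by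
        apply sum_le_sum
        intro v hv
        rw [mem_filter, Fintype.mem_piFinset] at hv
        rw [norm_prod]
        exact prod_le_one (fun _ _ => norm_nonneg _) (fun i _ => hw _ (hv.1 i))
    _ = _ := by rw [sum_const, nsmul_eq_mul, mul_one]

theorem sum_pow_w (w : ℕ → ℂ) (E : Finset ℕ) (y r : ℕ) (hE : ∀ q ∈ E, q.Prime ∧ q ≤ y) (p : ℕ)
    (χ : DirichletCharacter ℂ p) :
    (∑ q ∈ E, w q * χ (q : ZMod p)) ^ r = ∑ n ∈ Icc 1 (y ^ r), cw w E r n * χ (n : ZMod p) := by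
  have h1 : (∑ q ∈ E, w q * χ (q : ZMod p)) ^ r =
      ∑ v ∈ Fintype.piFinset (fun _ : Fin r => E), ∏ i, (w (v i) * χ (v i : ZMod p)) := by
    have := Finset.prod_univ_sum (fun _ : Fin r => E) (fun _ (q : ℕ) => w q * χ (q : ZMod p))
    rw [← this]
    simp
  have h2 : ∀ v ∈ Fintype.piFinset (fun _ : Fin r => E),
      ∏ i, (w (v i) * χ (v i : ZMod p)) = (∏ i, w (v i)) * χ ((∏ i, v i : ℕ) : ZMod p) := by
    intro v _
    rw [Nat.cast_prod, map_prod, prod_mul_distrib]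
  rw [h1, sum_congr rfl h2, ← Finset.sum_fiberwise_of_maps_to (maps_to E y r hE)]
  apply sum_congr rfl
  intro n _
  unfold cw
  rw [sum_mul]
  apply sum_congr rfl
  intro v hv
  rw [mem_filter] at hv
  rw [hv.2]

/-- few moduli with a large character sum -/
theorem few_large (w : ℕ → ℂ) (E : Finset ℕ) (z F r : ℕ) (M : ℝ) (hM : 0 < M)
    (hw : ∀ p ∈ E, ‖w p‖ ≤ 1) (hE : ∀ q ∈ E, q.Prime ∧ q ≤ z) (A : Finset ℕ)
    (hA : ∀ q ∈ A, Odd q ∧ Squarefree q ∧ q ≤ F ∧ M ≤ ‖∑ p ∈ E, w p * ((J(p | q) : ℤ) : ℂ)‖) :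
    (A.card : ℝ) * M ^ (2 * r) ≤ 6 * ((z : ℝ) ^ r + (F : ℝ) ^ 2) * ((r ! : ℝ) * (#E : ℝ) ^ r) := by
  classical
  have hLS := Helper112.mult_large_sieve (z ^ r) F (fun n => cw w E r n)
  have hsub : A ⊆ Icc 1 F := by
    intro q hq
    rw [mem_Icc]
    exact ⟨Nat.one_le_iff_ne_zero.2 (hA q hq).2.1.ne_zero, (hA q hq).2.2.1⟩
  have hlow : (A.card : ℝ) * M ^ (2 * r) ≤ ∑ f ∈ Icc 1 F, ((f : ℝ) / (Nat.totient f : ℝ)) *
      ∑ χ ∈ (univ : Finset (DirichletCharacter ℂ f)).filter (fun χ => χ.IsPrimitive),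
        ‖∑ n ∈ Icc 1 (z ^ r), cw w E r n * χ (n : ZMod f)‖ ^ 2 := by
    rw [← nsmul_eq_mul, ← sum_const]
    refine le_trans (sum_le_sum ?_) (sum_le_sum_of_subset_of_nonneg hsub ?_)
    · intro q hq
      obtain ⟨hodd, hsf, -, hMq⟩ := hA q hq
      obtain ⟨ψ, hprim, hψ⟩ := H385.jac_char q hodd hsf
      have h1 : M ^ (2 * r) ≤ ‖∑ n ∈ Icc 1 (z ^ r), cw w E r n * ψ (n : ZMod q)‖ ^ 2 := by
        rw [← sum_pow_w w E z r hE q ψ, norm_pow, ← pow_mul, mul_comm r 2]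
        apply pow_le_pow_left₀ hM.le
        rw [sum_congr rfl fun p _ => by rw [hψ p]]
        exact hMq
      have h2 : ‖∑ n ∈ Icc 1 (z ^ r), cw w E r n * ψ (n : ZMod q)‖ ^ 2 ≤
          ∑ χ ∈ (univ : Finset (DirichletCharacter ℂ q)).filter (fun χ => χ.IsPrimitive),
            ‖∑ n ∈ Icc 1 (z ^ r), cw w E r n * χ (n : ZMod q)‖ ^ 2 :=
        single_le_sum (f := fun χ : DirichletCharacter ℂ q =>
          ‖∑ n ∈ Icc 1 (z ^ r), cw w E r n * χ (n : ZMod q)‖ ^ 2)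
          (fun _ _ => sq_nonneg _) (mem_filter.mpr ⟨mem_univ _, hprim⟩)
      have h3 : (1 : ℝ) ≤ (q : ℝ) / (Nat.totient q : ℝ) := by
        have h0 : (0 : ℝ) < (Nat.totient q : ℝ) := by
          exact_mod_cast Nat.totient_pos.mpr (Nat.pos_of_ne_zero hsf.ne_zero)
        rw [le_div_iff₀ h0, one_mul]
        exact_mod_cast Nat.totient_le q
      calc M ^ (2 * r) ≤ _ := h1.trans h2
        _ ≤ _ := le_mul_of_one_le_left (sum_nonneg fun _ _ => sq_nonneg _) h3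
    · intro f _ _
      exact mul_nonneg (div_nonneg (Nat.cast_nonneg _) (Nat.cast_nonneg _))
        (sum_nonneg fun _ _ => sq_nonneg _)
  calc (A.card : ℝ) * M ^ (2 * r)
      ≤ 6 * (((z ^ r : ℕ) : ℝ) + (F : ℝ) ^ 2) * ∑ n ∈ Icc 1 (z ^ r), ‖cw w E r n‖ ^ 2 := by
        refine hlow.trans ?_
        convert hLS using 1
    _ ≤ 6 * (((z ^ r : ℕ) : ℝ) + (F : ℝ) ^ 2) * ((r ! : ℝ) * (#E : ℝ) ^ r) := by
        apply mul_le_mul_of_nonneg_left _ (by positivity)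
        refine le_trans (sum_le_sum fun n _ => ?_) (sum_cc_sq E z r hE)
        exact pow_le_pow_left₀ (norm_nonneg _) (cw_norm hw r n) 2
    _ = _ := by push_cast; ring

/-- the sign of `D`, as an integer -/
def sg (b : Bool) : ℤ := if b then 1 else -1

/-- the weights of the large sieve -/
def wt (τ : Bool × ℕ × Bool) (p : ℕ) : ℤ :=
  J(sg τ.1 * 2 ^ τ.2.1 | p) * (if τ.2.2 = true ∧ p % 4 = 3 then -1 else 1)

theorem jac_le (a : ℤ) (b : ℕ) : |J(a | b)| ≤ 1 := by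
  rcases jacobiSym.trichotomy a b with h | h | h <;> rw [h] <;> simp

theorem wt_le (τ : Bool × ℕ × Bool) (p : ℕ) : |wt τ p| ≤ 1 := by
  unfold wt
  rw [abs_mul]
  have h1 := jac_le (sg τ.1 * 2 ^ τ.2.1) p
  split_ifs <;> simpa using h1

/-- the Jacobi symbol of `D` through the odd part of `D` -/
theorem jac_eq (D : ℤ) (a q p : ℕ) (hq : Odd q) (hp : Odd p) (h : D.natAbs = 2 ^ a * q) :
    J(D | p) = wt (decide (0 ≤ D), a, decide (q % 4 = 3)) p * J(p | q) := by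
  have hD : D = sg (decide (0 ≤ D)) * 2 ^ a * (q : ℤ) := by
    have h1 : (D.natAbs : ℤ) = 2 ^ a * q := by exact_mod_cast h
    unfold sg
    by_cases h0 : 0 ≤ D
    · rw [decide_eq_true h0, if_pos rfl, one_mul, ← h1]
      exact (Int.natAbs_of_nonneg h0).symm
    · rw [decide_eq_false h0, if_neg (by simp), mul_assoc, ← h1]
      omega
  have h2 : J((q : ℤ) | p) = (if decide (q % 4 = 3) = true ∧ p % 4 = 3 then -1 else 1) * J(p | q) := by
    have hq4 : q % 4 = 1 ∨ q % 4 = 3 := by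
      obtain ⟨k, hk⟩ := hq
      omega
    have hp4 : p % 4 = 1 ∨ p % 4 = 3 := by
      obtain ⟨k, hk⟩ := hp
      omega
    rcases hq4 with h3 | h3
    · rw [if_neg (by simp [h3]), one_mul]
      exact jacobiSym.quadratic_reciprocity_one_mod_four h3 hp
    · rcases hp4 with h4 | h4
      · rw [if_neg (by simp [h4]), one_mul]
        exact jacobiSym.quadratic_reciprocity_one_mod_four' hq h4
      · rw [if_pos (by simp [h3, h4])]
        rw [jacobiSym.quadratic_reciprocity_three_mod_four h3 h4]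
        ring
  nth_rewrite 1 [hD]
  rw [jacobiSym.mul_left, h2]
  unfold wt
  ring

end Pool.Agent.V146.QT
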