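import Pool.Agent.V146.QT.Tail
import Pool.Agent.V146.QT.Bad

set_option autoImplicit false

/-!
# Large values of the torsion of class groups of quadratic fields in short intervals, with the
large sieve
-/

namespace Pool.Agent.V146.QT

open NumberField Finset Pool.Agent.TH869.EVF Pool.Agent.Y159.QS
open scoped Classical

/-- how often the torsion is large -/
theorem tail2 (l : ℕ) (hl : 1 ≤ l) (κ ε : ℝ) (hκ0 : 0 < κ) (hε : 0 < ε) :
    ∃ C : ℝ, 0 < C ∧
    ∀ X H y : ℝ, 1 ≤ H → H ≤ X → X ^ κ ≤ y → y ≤ X →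
    ∀ (S : Finset ℤ) (K : ℤ → Type) [∀ D, Field (K D)] [∀ D, NumberField (K D)],
    (∀ D ∈ S, (X ≤ |(D : ℝ)| ∧ |(D : ℝ)| ≤ X + H) ∧ Module.finrank ℚ (K D) = 2 ∧
      NumberField.discr (K D) = D) →
    ((S.filter (fun D => C * X ^ (1 / 2 + ε) / y ≤ tor l (K D))).card : ℝ) ≤
      C * X ^ ε * (y * √H + y ^ (l + 1) / √X) := by
  have hlr : (1 : ℝ) ≤ l := by exact_mod_cast hl
  obtain ⟨m, hmκ⟩ := exists_nat_ge (2 / κ)
  have hmr : 0 < (m : ℝ) := lt_of_lt_of_le (by positivity) hmκ
  have hκm : 2 ≤ κ * m := by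
    rw [div_le_iff₀ hκ0] at hmκ
    linarith
  set ε1 : ℝ := min (ε / (2 * m + 2)) (1 / 2) with hε1
  have hε10 : 0 < ε1 := lt_min (by positivity) (by norm_num)
  have hε1h : ε1 ≤ 1 / 2 := min_le_right _ _
  have hε1a : ε1 * (2 * m + 2) ≤ ε := by
    have h1 : ε1 ≤ ε / (2 * m + 2) := min_le_left _ _
    rwa [le_div_iff₀ (by positivity)] at h1
  have hε1m : m * ε1 ≤ ε := by nlinarith
  have hε12 : 2 * ε1 ≤ ε := by nlinarith
  set ε2 : ℝ := ε / l with hε2
  have hε20 : 0 < ε2 := by positivity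
  have hε2l : l * ε2 = ε := by rw [hε2]; field_simp
  obtain ⟨C0, hC00, hC0⟩ := single ε1 hε10
  obtain ⟨C3, hC30, hC3⟩ := sum_EC l ε2 hε20
  obtain ⟨C4', Y0, hC40', hY01, hC4⟩ := supplyD 1 le_rfl ε1 hε10 hε1h
  set C4 : ℝ := 960 * ((m.factorial : ℝ) * 8 ^ m) with hC4d
  have hC40 : 0 < C4 := by
    have : (0 : ℝ) < m.factorial := by exact_mod_cast Nat.factorial_pos m
    positivity
  obtain ⟨X1, hX11, hX1⟩ := Pool.Agent.Y159.PT.large_N (1 / Y0) (32 * Real.log 2) 0 32 (κ / 2) κ
    (by positivity) (by positivity) hκ0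
  refine ⟨4096 * C0 + 4 * X1 + C3 + C4, by positivity, ?_⟩
  set CC : ℝ := 4096 * C0 + 4 * X1 + C3 + C4 with hCC
  have hX1m : 0 < 4 * X1 := by positivity
  intro X H y hH hHX hκy hyX S K _ _ hS
  have hX : 1 ≤ X := hH.trans hHX
  have hX0 : 0 < X := by linarith
  have hH0 : 0 < H := by linarith
  have hy1 : 1 ≤ y := (Real.one_le_rpow hX hκ0.le).trans hκy
  have hy0 : 0 < y := by linarith
  have hsX : 0 < √X := Real.sqrt_pos.mpr hX0
  set F : ℝ := X ^ ε with hF
  have hF1 : 1 ≤ F := Real.one_le_rpow hX hε.le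
  set T : ℤ → ℝ := fun D => tor l (K D) with hT
  have hT0 : ∀ D, 0 ≤ T D := fun D => Nat.cast_nonneg _
  have hScard : (S.card : ℝ) ≤ 4 * H := card_window hH S (fun D hD => (hS D hD).1)
  have ha : 0 ≤ y * √H := by positivity
  have hb : 0 ≤ y ^ (l + 1) / √X := by positivity
  have hsH1 : 1 ≤ √H := by rw [Real.one_le_sqrt]; exact hH
  have hysH : 1 ≤ y * √H := by nlinarith
  rcases lt_or_ge X X1 with hXX | hXX
  · -- small `X`
    have h1 : ((S.filter (fun D => CC * X ^ (1 / 2 + ε) / y ≤ tor l (K D))).card : ℝ) ≤ S.card := by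
      exact_mod_cast card_filter_le _ _
    calc ((S.filter (fun D => CC * X ^ (1 / 2 + ε) / y ≤ tor l (K D))).card : ℝ) ≤ 4 * H :=
          h1.trans hScard
      _ ≤ 4 * X1 := by linarith
      _ = 4 * X1 * 1 * 1 := by ring
      _ ≤ CC * F * (y * √H) := by
          have h3 : 4 * X1 ≤ CC := by rw [hCC]; linarith
          gcongr
      _ ≤ _ := by
          apply mul_le_mul_of_nonneg_left _ (by positivity)
          linarith
  · -- large `X`
    obtain ⟨e1, e2⟩ := hX1 X hXX
    have hYy : Y0 ≤ y := by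
      have h1 : Y0 ≤ X ^ κ := by
        rw [Real.rpow_neg hX0.le, inv_eq_one_div] at e1
        exact (one_div_le_one_div (by positivity) (by linarith)).mp e1
      exact h1.trans hκy
    obtain ⟨z, hzy, hz, hbad⟩ := hC4 y hYy
    set B : ℝ := C0 * (2 * X ^ (1 / 2 + ε1)) with hB
    have hB0 : 0 < B := by positivity
    have hDB : ∀ D ∈ S, C0 * |(D : ℝ)| ^ (1 / 2 + ε1) ≤ B := by
      intro D hD
      have h1 : |(D : ℝ)| ≤ 2 * X := by linarith [(hS D hD).1.2]
      have h2 : |(D : ℝ)| ^ (1 / 2 + ε1) ≤ 2 * X ^ (1 / 2 + ε1) := by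
        calc |(D : ℝ)| ^ (1 / 2 + ε1) ≤ (2 * X) ^ (1 / 2 + ε1) :=
              Real.rpow_le_rpow (abs_nonneg _) h1 (by positivity)
          _ = 2 ^ (1 / 2 + ε1) * X ^ (1 / 2 + ε1) := Real.mul_rpow (by norm_num) hX0.le
          _ ≤ 2 ^ (1 : ℝ) * X ^ (1 / 2 + ε1) := by
              gcongr
              · norm_num
              · linarith
          _ = _ := by rw [Real.rpow_one]
      rw [hB]
      gcongr
    set N0 : ℝ := ((Qz z).card : ℝ) with hN0
    have hN01 : 1 ≤ N0 := by
      refine le_trans ?_ hz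
      exact Real.one_le_rpow hy1 (by linarith)
    have hN0p : 0 < N0 := by linarith
    have hz1 : 1 ≤ z := by
      rcases Nat.eq_zero_or_pos z with h | h
      · exfalso
        rw [hN0, h] at hN01
        have : (Qz 0).card = 0 := by decide
        rw [this] at hN01
        norm_num at hN01
      · exact h
    have hN0z : N0 ≤ z := by
      have h1 : (Qz z).card ≤ z := by
        calc (Qz z).card ≤ (Ioc (z / 2) z).card := card_filter_le _ _
          _ ≤ z := by rw [Nat.card_Ioc]; omega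
      rw [hN0]; exact_mod_cast h1
    have hlogN : 32 * (Real.log 2 + Real.log X) ≤ N0 := by
      have h1 : (1 / Y0) * X ^ (κ / 2) ≤ X ^ (κ / 2) := by
        have : 1 / Y0 ≤ 1 := by rw [div_le_one (by linarith)]; exact hY01
        have hp : 0 < X ^ (κ / 2) := Real.rpow_pos_of_pos hX0 _
        nlinarith
      have h2 : X ^ (κ / 2) ≤ y ^ (1 - ε1) := by
        calc X ^ (κ / 2) = (X ^ κ) ^ ((1 : ℝ) / 2) := by
              rw [← Real.rpow_mul hX0.le]; congr 1; ring
          _ ≤ y ^ ((1 : ℝ) / 2) := Real.rpow_le_rpow (by positivity) hκy (by norm_num)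
          _ ≤ y ^ (1 - ε1) := Real.rpow_le_rpow_of_exponent_le hy1 (by linarith)
      linarith
    set Z : ℝ := (150 * (z : ℝ)) ^ l with hZ
    set W : ℝ := 1024 * B with hW
    have hW0 : 0 < W := by positivity
    set bad : Finset ℤ := S.filter (fun D => (((Qz z).filter (fun p => QR p D)).card : ℝ) <
      (Qz z).card / 8) with hbadd
    -- the threshold
    have hthr : 2 * W / N0 ≤ CC * X ^ (1 / 2 + ε) / y := by
      have h1 : y ^ (1 - ε1) = y / y ^ ε1 := by
        rw [Real.rpow_sub hy0, Real.rpow_one]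
      have h2 : y ^ ε1 ≤ X ^ ε1 := Real.rpow_le_rpow hy0.le hyX hε10.le
      have hyε : 0 < y ^ ε1 := Real.rpow_pos_of_pos hy0 _
      have h3 : y / X ^ ε1 ≤ N0 := by
        refine le_trans ?_ hz
        rw [h1]
        gcongr
      have hXε : 0 < X ^ ε1 := Real.rpow_pos_of_pos hX0 _
      have h4 : X ^ (1 / 2 + ε1) * X ^ ε1 ≤ X ^ (1 / 2 + ε) := by
        rw [← Real.rpow_add hX0]
        apply Real.rpow_le_rpow_of_exponent_le hX
        linarith
      have h5 : 4096 * C0 ≤ CC := by rw [hCC]; linarith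
      calc 2 * W / N0 ≤ 2 * W / (y / X ^ ε1) := by gcongr
        _ = 4096 * C0 * (X ^ (1 / 2 + ε1) * X ^ ε1) / y := by
            rw [hW, hB]; field_simp; norm_num
        _ ≤ CC * X ^ (1 / 2 + ε) / y := by gcongr
    -- a large value gives many collisions
    have hpt : ∀ D ∈ S, CC * X ^ (1 / 2 + ε) / y ≤ T D →
        (1 : ℝ) ≤ N0 * ((EC l Z D (Qz z) : ℝ) / N0 ^ 2) + if D ∈ bad then 1 else 0 := by
      intro D hD hTD
      have hE0 : (0 : ℝ) ≤ N0 * ((EC l Z D (Qz z) : ℝ) / N0 ^ 2) := by positivity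
      by_cases hDb : D ∈ bad
      · rw [if_pos hDb]; linarith
      · rw [if_neg hDb, add_zero]
        have hgood : N0 / 8 ≤ (((Qz z).filter (fun p => QR p D)).card : ℝ) := by
          by_contra hcon
          push Not at hcon
          exact hDb (by rw [hbadd, mem_filter]; exact ⟨hD, hcon⟩)
        have hD1 : 1 ≤ |(D : ℝ)| := hX.trans (hS D hD).1.1
        have hDne : D ≠ 0 := by
          rintro rfl
          norm_num at hD1
        set P : Finset ℕ := (Qz z).filter (fun p => QR p D ∧ ¬ p ∣ D.natAbs) with hP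
        have hPQ : P ⊆ Qz z := filter_subset _ _
        have hPcard : N0 / 16 ≤ (P.card : ℝ) := by
          have h1 : (Qz z).filter (fun p => QR p D) ⊆ P ∪ D.natAbs.primeFactors := by
            intro p hp
            rw [mem_filter] at hp
            rw [mem_union]
            by_cases h : p ∣ D.natAbs
            · right
              exact Nat.mem_primeFactors.mpr ⟨(mem_Qz hp.1).1, h, Int.natAbs_ne_zero.mpr hDne⟩
            · left; rw [hP, mem_filter]; exact ⟨hp.1, hp.2, h⟩
          have h2 := (card_le_card h1).trans (card_union_le _ _)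
          have h3 := card_primeFactors_le D.natAbs (Int.natAbs_ne_zero.mpr hDne)
          have h4 : Real.log (D.natAbs : ℝ) ≤ Real.log 2 + Real.log X := by
            rw [← Real.log_mul (by norm_num) hX0.ne']
            apply Real.log_le_log
            · exact_mod_cast Nat.pos_of_ne_zero (Int.natAbs_ne_zero.mpr hDne)
            · rw [Nat.cast_natAbs, Int.cast_abs]
              linarith [(hS D hD).1.2]
          have h5 : (((Qz z).filter (fun p => QR p D)).card : ℝ) ≤
              P.card + (D.natAbs.primeFactors.card : ℝ) := by exact_mod_cast h2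
          linarith
        have hPle : (P.card : ℝ) ≤ N0 := by rw [hN0]; exact_mod_cast card_le_card hPQ
        have h6 := (hC0 l hl (K D) (hS D hD).2.1 z P (by
          intro p hp
          rw [hP, mem_filter] at hp
          obtain ⟨hpQ, hqr, hpD⟩ := hp
          obtain ⟨hpp, -, hpz⟩ := mem_Qz hpQ
          rw [(hS D hD).2.2]
          exact ⟨hpp, by exact_mod_cast hpz, hpD, hqr⟩)).2
        rw [(hS D hD).2.2] at h6
        have hEmono : (EC l Z D P : ℝ) ≤ EC l Z D (Qz z) := by exact_mod_cast EC_mono hPQ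
        have h7 : T D * (P.card : ℝ) ^ 2 ≤ B * (2 * P.card + 4 * (EC l Z D (Qz z) : ℝ)) := by
          refine h6.trans ?_
          apply mul_le_mul (hDB D hD) (by linarith) (by positivity) hB0.le
        have h8 := good_bound 1 le_rfl (hT0 D) hB0.le hN0p hPcard (Nat.cast_nonneg _) (by
          rw [hN0]
          exact_mod_cast (EC_le (l := l) (Z := Z) (D := D) (P := Qz z))) h7
        rw [pow_one, pow_one, pow_one, Nat.sub_self, pow_zero, mul_one, ← hW] at h8
        have h9 : 2 * W / N0 ≤ W * (1 / N0 + (EC l Z D (Qz z) : ℝ) / N0 ^ 2) :=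
          (hthr.trans hTD).trans h8
        have h10 : W * (1 / N0) ≤ W * ((EC l Z D (Qz z) : ℝ) / N0 ^ 2) := by
          have e : 2 * W / N0 = W * (1 / N0) + W * (1 / N0) := by ring
          rw [e, mul_add] at h9
          linarith
        have h11 : 1 / N0 ≤ (EC l Z D (Qz z) : ℝ) / N0 ^ 2 := le_of_mul_le_mul_left h10 hW0
        calc (1 : ℝ) = N0 * (1 / N0) := by field_simp
          _ ≤ _ := by gcongr
    -- the sums
    have hcount : ((S.filter (fun D => CC * X ^ (1 / 2 + ε) / y ≤ tor l (K D))).card : ℝ) ≤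
        N0 * ∑ D ∈ S, (EC l Z D (Qz z) : ℝ) / N0 ^ 2 + bad.card := by
      have h1 : ((S.filter (fun D => CC * X ^ (1 / 2 + ε) / y ≤ tor l (K D))).card : ℝ) =
          ∑ D ∈ S.filter (fun D => CC * X ^ (1 / 2 + ε) / y ≤ tor l (K D)), (1 : ℝ) := by
        rw [sum_const, nsmul_eq_mul, mul_one]
      have h2 : (bad.card : ℝ) = ∑ D ∈ S, if D ∈ bad then (1 : ℝ) else 0 := by
        rw [← Finset.sum_filter, sum_const, nsmul_eq_mul, mul_one]
        have e : S.filter (fun D => D ∈ bad) = bad := by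
          ext D
          rw [mem_filter]
          exact ⟨fun h => h.2, fun h => ⟨(mem_filter.1 h).1, h⟩⟩
        rw [e]
      rw [h1, h2, Finset.mul_sum, ← Finset.sum_add_distrib]
      calc ∑ D ∈ S.filter (fun D => CC * X ^ (1 / 2 + ε) / y ≤ tor l (K D)), (1 : ℝ)
          ≤ ∑ D ∈ S.filter (fun D => CC * X ^ (1 / 2 + ε) / y ≤ tor l (K D)),
            (N0 * ((EC l Z D (Qz z) : ℝ) / N0 ^ 2) + if D ∈ bad then 1 else 0) := by
            apply Finset.sum_le_sum
            intro D hD
            rw [mem_filter] at hD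
            exact hpt D hD.1 hD.2
        _ ≤ _ := by
            apply Finset.sum_le_sum_of_subset_of_nonneg (filter_subset _ _)
            intro D _ _
            split_ifs <;> positivity
    have hs2 : N0 * ∑ D ∈ S, (EC l Z D (Qz z) : ℝ) / N0 ^ 2 ≤
        C3 * F * (y * √H + y ^ (l + 1) / √X) := by
      have h1 := hC3 X H hX hH hHX z hz1 S (fun D hD => (hS D hD).1)
      have h2 : ((z : ℝ) ^ l) ^ ε2 ≤ F := by
        calc ((z : ℝ) ^ l) ^ ε2 ≤ (X ^ l) ^ ε2 := by
              have : (z : ℝ) ≤ X := hzy.trans hyX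
              gcongr
          _ = F := by
              rw [← Real.rpow_natCast, ← Real.rpow_mul hX0.le, hε2l]
      have h4 : (z : ℝ) ^ l / √X ≤ y ^ l / √X := by gcongr
      have h5 : ∑ D ∈ S, (EC l Z D (Qz z) : ℝ) / N0 ^ 2 ≤ C3 * F * (√H + y ^ l / √X) := by
        rw [← Finset.sum_div, div_le_iff₀ (by positivity)]
        refine h1.trans ?_
        calc C3 * ((Qz z).card : ℝ) ^ 2 * ((z : ℝ) ^ l) ^ ε2 * (√H + (z : ℝ) ^ l / √X)
            ≤ C3 * ((Qz z).card : ℝ) ^ 2 * F * (√H + y ^ l / √X) := by gcongr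
          _ = C3 * F * (√H + y ^ l / √X) * N0 ^ 2 := by rw [hN0]; ring
      calc N0 * ∑ D ∈ S, (EC l Z D (Qz z) : ℝ) / N0 ^ 2
          ≤ y * (C3 * F * (√H + y ^ l / √X)) := by
            apply mul_le_mul (hN0z.trans hzy) h5 _ hy0.le
            exact Finset.sum_nonneg fun D _ => by positivity
        _ = _ := by rw [pow_succ]; ring
    have hs3 : (bad.card : ℝ) ≤ C4 * F * (y * √H) := by
      have hFc : 2 * X ≤ (⌈2 * X⌉₊ : ℝ) := Nat.le_ceil _
      have hFc3 : (⌈2 * X⌉₊ : ℝ) ≤ 3 * X := by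
        have := Nat.ceil_lt_add_one (a := 2 * X) (by linarith)
        linarith
      have hlog2 : (1 : ℝ) / 2 < Real.log 2 := by
        have := Real.log_two_gt_d9
        linarith
      have hlogX : 0 ≤ Real.log X := Real.log_nonneg hX
      have h8 : 8 ≤ (Qz z).card := by
        have h9 : (8 : ℝ) ≤ ((Qz z).card : ℝ) := by rw [← hN0]; linarith
        exact_mod_cast h9
      have h1 := bad_count z ⌈2 * X⌉₊ m X hX hFc hlogN h8 S K (fun D hD =>
        ⟨by linarith [(hS D hD).1.2], (hS D hD).2⟩)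
      refine h1.trans ?_
      have hyε : y / X ^ ε1 ≤ N0 := by
        refine le_trans ?_ hz
        rw [Real.rpow_sub hy0, Real.rpow_one]
        have hyp : 0 < y ^ ε1 := Real.rpow_pos_of_pos hy0 _
        have hyy : y ^ ε1 ≤ X ^ ε1 := Real.rpow_le_rpow hy0.le hyX hε10.le
        gcongr
      have hXε : 0 < X ^ ε1 := Real.rpow_pos_of_pos hX0 _
      have hN0m : y ^ m / F ≤ N0 ^ m := by
        calc y ^ m / F ≤ y ^ m / (X ^ ε1) ^ m := by
              apply div_le_div_of_nonneg_left (by positivity) (by positivity)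
              rw [← Real.rpow_natCast, ← Real.rpow_mul hX0.le, hF]
              apply Real.rpow_le_rpow_of_exponent_le hX
              linarith
          _ = (y / X ^ ε1) ^ m := by rw [div_pow]
          _ ≤ N0 ^ m := by gcongr
      have hN0mp : 0 < N0 ^ m := by positivity
      have hym : X ^ 2 ≤ y ^ m := by
        calc X ^ 2 = X ^ (2 : ℝ) := by norm_cast
          _ ≤ X ^ (κ * m) := Real.rpow_le_rpow_of_exponent_le hX hκm
          _ = (X ^ κ) ^ m := by rw [Real.rpow_mul hX0.le, Real.rpow_natCast]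
          _ ≤ y ^ m := by
              have : 0 ≤ X ^ κ := by positivity
              gcongr
      have hzm : (z : ℝ) ^ m ≤ y ^ m := by gcongr
      have hq : ((z : ℝ) ^ m + (⌈2 * X⌉₊ : ℝ) ^ 2) / N0 ^ m ≤ 10 * F := by
        rw [div_le_iff₀ hN0mp]
        have h2 : y ^ m ≤ F * N0 ^ m := by
          rw [div_le_iff₀ (by positivity)] at hN0m
          linarith
        have h3 : (⌈2 * X⌉₊ : ℝ) ^ 2 ≤ 9 * X ^ 2 := by
          calc (⌈2 * X⌉₊ : ℝ) ^ 2 ≤ (3 * X) ^ 2 := by gcongr
            _ = 9 * X ^ 2 := by ring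
        nlinarith
      calc 96 * ((m.factorial : ℝ) * 8 ^ m) * (((z : ℝ) ^ m + (⌈2 * X⌉₊ : ℝ) ^ 2) / N0 ^ m)
          ≤ 96 * ((m.factorial : ℝ) * 8 ^ m) * (10 * F) := by gcongr
        _ = C4 * F * 1 := by rw [hC4d]; ring
        _ ≤ C4 * F * (y * √H) := by gcongr
    refine hcount.trans ((add_le_add hs2 hs3).trans ?_)
    have h1 : C3 + C4 ≤ CC := by rw [hCC]; nlinarith
    calc C3 * F * (y * √H + y ^ (l + 1) / √X) + C4 * F * (y * √H)
        ≤ C3 * F * (y * √H + y ^ (l + 1) / √X) + C4 * F * (y * √H + y ^ (l + 1) / √X) := by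
          gcongr
          linarith
      _ = (C3 + C4) * F * (y * √H + y ^ (l + 1) / √X) := by ring
      _ ≤ _ := by gcongr

end Pool.Agent.V146.QT
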