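import Pool.Agent.V146.QT.Prod2
import Pool.Agent.Y159.TQ.Fin
import Pool.Agent.Y542.TQ.Sup
import Pool.Agent.Y971.TQ.Rep

set_option autoImplicit false

/-!
# Large values of the torsion of class groups of quadratic fields of discriminant `a t² + b t + c`
-/

namespace Pool.Agent.V146.QT

open NumberField Finset Pool.Agent.TH869.EVF Pool.Agent.Y159.QS Pool.Agent.Y159.TQ
open scoped Classical Nat

/-- a quadratic polynomial takes a value at most twice -/
theorem fiber_two (a b c : ℤ) (ha : a ≠ 0) (D : ℤ) (S : Finset ℤ) :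
    (S.filter (fun t => a * t ^ 2 + b * t + c = D)).card ≤ 2 := by
  by_contra hcon
  push Not at hcon
  obtain ⟨x, hx, y, hy, z, hz, hxy, hxz, hyz⟩ := Finset.two_lt_card.mp hcon
  rw [mem_filter] at hx hy hz
  have h1 : (x - y) * (a * (x + y) + b) = 0 := by linear_combination hx.2 - hy.2
  have h2 : (x - z) * (a * (x + z) + b) = 0 := by linear_combination hx.2 - hz.2
  have h3 : a * (x + y) + b = 0 := by
    rcases mul_eq_zero.mp h1 with h | h
    · exact absurd (by linarith) hxy
    · exact h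
  have h4 : a * (x + z) + b = 0 := by
    rcases mul_eq_zero.mp h2 with h | h
    · exact absurd (by linarith) hxz
    · exact h
  have h5 : a * (y - z) = 0 := by linear_combination h3 - h4
  rcases mul_eq_zero.mp h5 with h | h
  · exact ha h
  · exact hyz (by linarith)

/-- the number of parameters for which there are few split primes -/
theorem bad_count_t (a b c : ℤ) (ha : a ≠ 0) (z F R : ℕ) (X : ℝ) (hX : 1 ≤ X) (hF : 2 * X ≤ F)
    (hz : 32 * (Real.log 2 + Real.log X) ≤ (Qz z).card) (hz2 : 8 ≤ (Qz z).card)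
    (S : Finset ℤ) (K : ℤ → Type) [∀ D, Field (K D)] [∀ D, NumberField (K D)]
    (hS : ∀ t ∈ S, |((a * t ^ 2 + b * t + c : ℤ) : ℝ)| ≤ 2 * X ∧ Module.finrank ℚ (K t) = 2 ∧
      NumberField.discr (K t) = a * t ^ 2 + b * t + c) :
    ((S.filter (fun t => (((Qz z).filter (fun p => QR p (a * t ^ 2 + b * t + c))).card : ℝ) <
      (Qz z).card / 8)).card : ℝ) ≤
      2 * (96 * ((R ! : ℝ) * 8 ^ R) * (((z : ℝ) ^ R + (F : ℝ) ^ 2) / ((Qz z).card : ℝ) ^ R)) := by
  set f : ℤ → ℤ := fun t => a * t ^ 2 + b * t + c with hf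
  set g : ℤ → ℤ := fun D => if h : ∃ t ∈ S, f t = D then h.choose else 0 with hg
  have hgs : ∀ D ∈ S.image f, g D ∈ S ∧ f (g D) = D := by
    intro D hD
    rw [mem_image] at hD
    obtain ⟨t, ht, htD⟩ := hD
    have hex : ∃ t ∈ S, f t = D := ⟨t, ht, htD⟩
    have e : g D = hex.choose := by
      show (if h : ∃ t ∈ S, f t = D then h.choose else 0) = hex.choose
      rw [dif_pos hex]
    rw [e]
    exact hex.choose_spec
  have h1 := bad_count z F R X hX hF hz hz2 (S.image f) (fun D => K (g D)) (by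
    intro D hD
    obtain ⟨h2, h3⟩ := hgs D hD
    obtain ⟨h4, h5, h6⟩ := hS (g D) h2
    have h7 : a * (g D) ^ 2 + b * (g D) + c = D := h3
    rw [h7] at h4 h6
    exact ⟨h4, h5, h6⟩)
  set T := S.filter (fun t => (((Qz z).filter (fun p => QR p (a * t ^ 2 + b * t + c))).card : ℝ) <
      (Qz z).card / 8) with hT
  have h2 : T.card ≤ 2 * (T.image f).card := by
    apply Finset.card_le_mul_card_image
    intro D _
    exact fiber_two a b c ha D T
  have h3 : T.image f ⊆ (S.image f).filter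
      (fun D => (((Qz z).filter (fun p => QR p D)).card : ℝ) < (Qz z).card / 8) := by
    intro D hD
    rw [mem_image] at hD
    obtain ⟨t, ht, htD⟩ := hD
    rw [hT, mem_filter] at ht
    rw [mem_filter, mem_image]
    refine ⟨⟨t, ht.1, htD⟩, ?_⟩
    have h4 := ht.2
    have h5 : a * t ^ 2 + b * t + c = D := htD
    rw [h5] at h4
    exact h4
  have h4 : (T.card : ℝ) ≤ 2 * (((S.image f).filter
      (fun D => (((Qz z).filter (fun p => QR p D)).card : ℝ) < (Qz z).card / 8)).card : ℝ) := by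
    have h5 := card_le_card h3
    have h6 : T.card ≤ 2 * ((S.image f).filter
      (fun D => (((Qz z).filter (fun p => QR p D)).card : ℝ) < (Qz z).card / 8)).card := by omega
    exact_mod_cast h6
  linarith

/-- how often the torsion is large in a thin family -/
theorem tail3 (a b c : ℤ) (ha : a ≠ 0) (hΔ : b ^ 2 - 4 * a * c ≠ 0) (l : ℕ) (hl : 1 ≤ l)
    (κ ε : ℝ) (hκ0 : 0 < κ) (hε : 0 < ε) :
    ∃ C : ℝ, 0 < C ∧
    ∀ N y : ℝ, 1 ≤ N → N ^ κ ≤ y → y ≤ N →
    ∀ (S : Finset ℤ) (K : ℤ → Type) [∀ D, Field (K D)] [∀ D, NumberField (K D)],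
    (∀ t ∈ S, (N ≤ |(t : ℝ)| ∧ |(t : ℝ)| ≤ 2 * N) ∧ Module.finrank ℚ (K t) = 2 ∧
      NumberField.discr (K t) = a * t ^ 2 + b * t + c) →
    ((S.filter (fun t => C * N ^ (1 + ε) / y ≤ tor l (K t))).card : ℝ) ≤
      C * N ^ ε * (1 + y ^ (l + 1) / N) := by
  have hlr : (1 : ℝ) ≤ l := by exact_mod_cast hl
  obtain ⟨m, hmκ⟩ := exists_nat_ge (4 / κ)
  have hmr : 0 < (m : ℝ) := lt_of_lt_of_le (by positivity) hmκ
  have hκm : 4 ≤ κ * m := by
    rw [div_le_iff₀ hκ0] at hmκ
    linarith
  set ε1 : ℝ := min (ε / (2 * m + 3)) (1 / 2) with hε1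
  have hε10 : 0 < ε1 := lt_min (by positivity) (by norm_num)
  have hε1h : ε1 ≤ 1 / 2 := min_le_right _ _
  have hε1a : ε1 * (2 * m + 3) ≤ ε := by
    have h1 : ε1 ≤ ε / (2 * m + 3) := min_le_left _ _
    rwa [le_div_iff₀ (by positivity)] at h1
  have hε1m : m * ε1 ≤ ε := by nlinarith
  have hε13 : 3 * ε1 ≤ ε := by nlinarith
  set ε2 : ℝ := ε / l with hε2
  have hε20 : 0 < ε2 := by positivity
  have hε2l : l * ε2 = ε := by rw [hε2]; field_simp
  obtain ⟨C0, hC00, hC0⟩ := single ε1 hε10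
  obtain ⟨C3, hC30, hC3⟩ := sum_ECt Pool.Agent.Y971.TQ.rep a b c ha hΔ 3 (by norm_num) l hl ε2 hε20
  obtain ⟨C4', Y0, hC40', hY01, hC4⟩ := supplyD 1 le_rfl ε1 hε10 hε1h
  set G0 : ℝ := |(a : ℝ)| + |(b : ℝ)| + |(c : ℝ)| with hG0
  have hG01 : 1 ≤ G0 := by
    have ha1 : (1 : ℝ) ≤ |(a : ℝ)| := by exact_mod_cast Int.one_le_abs ha
    have := abs_nonneg (b : ℝ)
    have := abs_nonneg (c : ℝ)
    linarith
  set G : ℝ := 4 * G0 with hG
  have hG1 : 1 ≤ G := by linarith
  have hG0' : 0 < G := by linarith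
  set C4 : ℝ := 2 * (96 * ((m.factorial : ℝ) * 8 ^ m)) * (1 + 9 * G ^ 2) with hC4d
  have hC40 : 0 < C4 := by
    have : (0 : ℝ) < m.factorial := by exact_mod_cast Nat.factorial_pos m
    positivity
  set Δ3 : ℝ := 2 * (((b ^ 2 - 4 * a * c).natAbs : ℝ) + 3) with hΔ3
  have hΔ30 : 0 ≤ Δ3 := by positivity
  obtain ⟨X2, hX21, hX2⟩ := Pool.Agent.Y159.PT.large_N (1 / Y0)
    (32 * Real.log 2 + 32 * Real.log G + Δ3) 0 64 (κ / 2) κ
    (by positivity) (by positivity) hκ0
  set X1 : ℝ := max X2 (2 * (|(b : ℝ)| + |(c : ℝ)|) + 1) with hX1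
  have hX11 : 1 ≤ X1 := hX21.trans (le_max_left _ _)
  refine ⟨2048 * (C0 * G) + 4 * X1 + C3 + C4, by positivity, ?_⟩
  set CC : ℝ := 2048 * (C0 * G) + 4 * X1 + C3 + C4 with hCC
  have hX1m : 0 < 4 * X1 := by positivity
  have hCG : 0 < C0 * G := by positivity
  intro N y hN hκy hyN S K _ _ hS
  have hN0 : 0 < N := by linarith
  have hy1 : 1 ≤ y := (Real.one_le_rpow hN hκ0.le).trans hκy
  have hy0 : 0 < y := by linarith
  set F : ℝ := N ^ ε with hF
  have hF1 : 1 ≤ F := Real.one_le_rpow hN hε.le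
  set T : ℤ → ℝ := fun D => tor l (K D) with hT
  have hT0 : ∀ D, 0 ≤ T D := fun D => Nat.cast_nonneg _
  have hScard : (S.card : ℝ) ≤ 4 * N := card_window hN S (fun t ht => by
    have := (hS t ht).1
    exact ⟨this.1, by linarith [this.2]⟩)
  have hb : 0 ≤ y ^ (l + 1) / N := by positivity
  rcases lt_or_ge N X1 with hXX | hXX
  · -- small `N`
    have h1 : ((S.filter (fun t => CC * N ^ (1 + ε) / y ≤ tor l (K t))).card : ℝ) ≤ S.card := by
      exact_mod_cast card_filter_le _ _
    calc ((S.filter (fun t => CC * N ^ (1 + ε) / y ≤ tor l (K t))).card : ℝ) ≤ 4 * N :=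
          h1.trans hScard
      _ ≤ 4 * X1 := by linarith
      _ = 4 * X1 * 1 * 1 := by ring
      _ ≤ CC * F * (1 + y ^ (l + 1) / N) := by
          have h3 : 4 * X1 ≤ CC := by rw [hCC]; linarith
          have h4 : (1 : ℝ) ≤ 1 + y ^ (l + 1) / N := by linarith
          have h5 : 0 ≤ CC := by linarith
          gcongr
  · -- large `N`
    obtain ⟨e1, e2⟩ := hX2 N ((le_max_left _ _).trans hXX)
    have hbc : 2 * (|(b : ℝ)| + |(c : ℝ)|) + 1 ≤ N := (le_max_right _ _).trans hXX
    have hYy : Y0 ≤ y := by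
      have h1 : Y0 ≤ N ^ κ := by
        rw [Real.rpow_neg hN0.le, inv_eq_one_div] at e1
        exact (one_div_le_one_div (by positivity) (by linarith)).mp e1
      exact h1.trans hκy
    obtain ⟨z, hzy, hz, -⟩ := hC4 y hYy
    have hup : ∀ t ∈ S, |((a * t ^ 2 + b * t + c : ℤ) : ℝ)| ≤ G * N ^ 2 := by
      intro t ht
      have h1 := (hS t ht).1
      refine (quad_upper a b c t (hN.trans h1.1)).trans ?_
      calc G0 * |(t : ℝ)| ^ 2 ≤ G0 * (2 * N) ^ 2 := by gcongr; exact h1.2
        _ = G * N ^ 2 := by rw [hG]; ring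
    set B : ℝ := C0 * (G * N ^ (1 + 2 * ε1)) with hB
    have hB0 : 0 < B := by positivity
    have hDB : ∀ t ∈ S, C0 * |((a * t ^ 2 + b * t + c : ℤ) : ℝ)| ^ (1 / 2 + ε1) ≤ B := by
      intro t ht
      have h2 : |((a * t ^ 2 + b * t + c : ℤ) : ℝ)| ^ (1 / 2 + ε1) ≤ G * N ^ (1 + 2 * ε1) := by
        calc |((a * t ^ 2 + b * t + c : ℤ) : ℝ)| ^ (1 / 2 + ε1) ≤ (G * N ^ 2) ^ (1 / 2 + ε1) :=
              Real.rpow_le_rpow (abs_nonneg _) (hup t ht) (by positivity)
          _ = G ^ (1 / 2 + ε1) * (N ^ 2) ^ (1 / 2 + ε1) := Real.mul_rpow hG0'.le (by positivity)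
          _ = G ^ (1 / 2 + ε1) * N ^ (1 + 2 * ε1) := by
              congr 1
              rw [← Real.rpow_natCast N 2, ← Real.rpow_mul hN0.le]
              congr 1
              push_cast; ring
          _ ≤ G ^ (1 : ℝ) * N ^ (1 + 2 * ε1) := by
              gcongr
              linarith
          _ = _ := by rw [Real.rpow_one]
      rw [hB]
      gcongr
    set N0 : ℝ := ((Qz z).card : ℝ) with hN0d
    have hN01 : 1 ≤ N0 := by
      refine le_trans ?_ hz
      exact Real.one_le_rpow hy1 (by linarith)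
    have hN0p : 0 < N0 := by linarith
    have hz1 : 1 ≤ z := by
      rcases Nat.eq_zero_or_pos z with h | h
      · exfalso
        rw [hN0d, h] at hN01
        have : (Qz 0).card = 0 := by decide
        rw [this] at hN01
        norm_num at hN01
      · exact h
    have hN0z : N0 ≤ z := by
      have h1 : (Qz z).card ≤ z := by
        calc (Qz z).card ≤ (Ioc (z / 2) z).card := card_filter_le _ _
          _ ≤ z := by rw [Nat.card_Ioc]; omega
      rw [hN0d]; exact_mod_cast h1
    have hlogN1 : 32 * Real.log 2 + 32 * Real.log G + Δ3 + 64 * Real.log N ≤ N0 := by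
      have h1 : (1 / Y0) * N ^ (κ / 2) ≤ N ^ (κ / 2) := by
        have : 1 / Y0 ≤ 1 := by rw [div_le_one (by linarith)]; exact hY01
        have hp : 0 < N ^ (κ / 2) := Real.rpow_pos_of_pos hN0 _
        nlinarith
      have h2 : N ^ (κ / 2) ≤ y ^ (1 - ε1) := by
        calc N ^ (κ / 2) = (N ^ κ) ^ ((1 : ℝ) / 2) := by
              rw [← Real.rpow_mul hN0.le]; congr 1; ring
          _ ≤ y ^ ((1 : ℝ) / 2) := Real.rpow_le_rpow (by positivity) hκy (by norm_num)
          _ ≤ y ^ (1 - ε1) := Real.rpow_le_rpow_of_exponent_le hy1 (by linarith)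
      linarith
    have hlog2 : (1 : ℝ) / 2 < Real.log 2 := by
      have := Real.log_two_gt_d9
      linarith
    have hlogN0 : 0 ≤ Real.log N := Real.log_nonneg hN
    have hlogG0 : 0 ≤ Real.log G := Real.log_nonneg hG1
    have hGN1 : 1 ≤ G * N ^ 2 := by
      have : 1 ≤ N ^ 2 := one_le_pow₀ hN
      nlinarith
    have hlogGN : Real.log (G * N ^ 2) = Real.log G + 2 * Real.log N := by
      rw [Real.log_mul hG0'.ne' (by positivity), Real.log_pow]
      push_cast; ring
    have hlogN : 32 * (Real.log 2 + Real.log (G * N ^ 2)) ≤ N0 := by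
      rw [hlogGN]
      linarith
    have hzD : 2 * ((b ^ 2 - 4 * a * c).natAbs + 3) ≤ z := by
      have h1 : Δ3 ≤ (z : ℝ) := by linarith
      rw [hΔ3] at h1
      exact_mod_cast h1
    set Z : ℝ := (150 * (z : ℝ)) ^ l with hZ
    set W : ℝ := 1024 * B with hW
    have hW0 : 0 < W := by positivity
    set f : ℤ → ℤ := fun t => a * t ^ 2 + b * t + c with hf
    set bad : Finset ℤ := S.filter (fun t => (((Qz z).filter (fun p => QR p (a * t ^ 2 + b * t + c))).card : ℝ) <
      (Qz z).card / 8) with hbadd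
    -- the threshold
    have hthr : 2 * W / N0 ≤ CC * N ^ (1 + ε) / y := by
      have h1 : y ^ (1 - ε1) = y / y ^ ε1 := by
        rw [Real.rpow_sub hy0, Real.rpow_one]
      have h2 : y ^ ε1 ≤ N ^ ε1 := Real.rpow_le_rpow hy0.le hyN hε10.le
      have hyε : 0 < y ^ ε1 := Real.rpow_pos_of_pos hy0 _
      have h3 : y / N ^ ε1 ≤ N0 := by
        refine le_trans ?_ hz
        rw [h1]
        gcongr
      have hXε : 0 < N ^ ε1 := Real.rpow_pos_of_pos hN0 _
      have h4 : N ^ (1 + 2 * ε1) * N ^ ε1 ≤ N ^ (1 + ε) := by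
        rw [← Real.rpow_add hN0]
        apply Real.rpow_le_rpow_of_exponent_le hN
        linarith
      have h5 : 2048 * (C0 * G) ≤ CC := by rw [hCC]; linarith
      calc 2 * W / N0 ≤ 2 * W / (y / N ^ ε1) := by gcongr
        _ = 2048 * (C0 * G) * (N ^ (1 + 2 * ε1) * N ^ ε1) / y := by
            rw [hW, hB]; field_simp; norm_num
        _ ≤ CC * N ^ (1 + ε) / y := by gcongr
    -- a large value gives many collisions
    have hpt : ∀ t ∈ S, CC * N ^ (1 + ε) / y ≤ T t →
        (1 : ℝ) ≤ N0 * ((EC l Z (a * t ^ 2 + b * t + c) (Qz z) : ℝ) / N0 ^ 2) +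
          if t ∈ bad then 1 else 0 := by
      intro t ht hTD
      have hE0 : (0 : ℝ) ≤ N0 * ((EC l Z (a * t ^ 2 + b * t + c) (Qz z) : ℝ) / N0 ^ 2) := by
        positivity
      by_cases hDb : t ∈ bad
      · rw [if_pos hDb]; linarith
      · rw [if_neg hDb, add_zero]
        have hgood' : N0 / 8 ≤ (((Qz z).filter (fun p => QR p (a * t ^ 2 + b * t + c))).card : ℝ) := by
          by_contra hcon
          push Not at hcon
          exact hDb (by rw [hbadd, mem_filter]; exact ⟨ht, hcon⟩)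
        set D : ℤ := a * t ^ 2 + b * t + c with hD
        have hDne : D ≠ 0 := by
          rw [hD, ← (hS t ht).2.2]
          exact NumberField.discr_ne_zero _
        set P : Finset ℕ := (Qz z).filter (fun p => QR p D ∧ ¬ p ∣ D.natAbs) with hP
        have hPQ : P ⊆ Qz z := filter_subset _ _
        have hPcard : N0 / 16 ≤ (P.card : ℝ) := by
          have h1 : (Qz z).filter (fun p => QR p D) ⊆ P ∪ D.natAbs.primeFactors := by
            intro p hp
            rw [mem_filter] at hp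
            rw [mem_union]
            by_cases h : p ∣ D.natAbs
            · right
              exact Nat.mem_primeFactors.mpr ⟨(mem_Qz hp.1).1, h, Int.natAbs_ne_zero.mpr hDne⟩
            · left; rw [hP, mem_filter]; exact ⟨hp.1, hp.2, h⟩
          have h2 := (card_le_card h1).trans (card_union_le _ _)
          have h3 := card_primeFactors_le D.natAbs (Int.natAbs_ne_zero.mpr hDne)
          have h4 : Real.log (D.natAbs : ℝ) ≤ Real.log 2 + Real.log (G * N ^ 2) := by
            rw [← Real.log_mul (by norm_num) (by positivity)]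
            apply Real.log_le_log
            · exact_mod_cast Nat.pos_of_ne_zero (Int.natAbs_ne_zero.mpr hDne)
            · rw [Nat.cast_natAbs, Int.cast_abs]
              have := hup t ht
              linarith
          have h5 : (((Qz z).filter (fun p => QR p D)).card : ℝ) ≤
              P.card + (D.natAbs.primeFactors.card : ℝ) := by exact_mod_cast h2
          linarith
        have hPle : (P.card : ℝ) ≤ N0 := by rw [hN0d]; exact_mod_cast card_le_card hPQ
        have h6 := (hC0 l hl (K t) (hS t ht).2.1 z P (by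
          intro p hp
          rw [hP, mem_filter] at hp
          obtain ⟨hpQ, hqr, hpD⟩ := hp
          obtain ⟨hpp, -, hpz⟩ := mem_Qz hpQ
          rw [(hS t ht).2.2]
          exact ⟨hpp, by exact_mod_cast hpz, hpD, hqr⟩)).2
        rw [(hS t ht).2.2] at h6
        have hEmono : (EC l Z D P : ℝ) ≤ EC l Z D (Qz z) := by exact_mod_cast EC_mono hPQ
        have h7 : T t * (P.card : ℝ) ^ 2 ≤ B * (2 * P.card + 4 * (EC l Z D (Qz z) : ℝ)) := by
          refine h6.trans ?_
          apply mul_le_mul (hDB t ht) (by linarith) (by positivity) hB0.le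
        have h8 := good_bound 1 le_rfl (hT0 t) hB0.le hN0p hPcard (Nat.cast_nonneg _) (by
          rw [hN0d]
          exact_mod_cast (EC_le (l := l) (Z := Z) (D := D) (P := Qz z))) h7
        rw [pow_one, pow_one, pow_one, Nat.sub_self, pow_zero, mul_one, ← hW] at h8
        have h9 : 2 * W / N0 ≤ W * (1 / N0 + (EC l Z D (Qz z) : ℝ) / N0 ^ 2) :=
          (hthr.trans hTD).trans h8
        have h10 : W * (1 / N0) ≤ W * ((EC l Z D (Qz z) : ℝ) / N0 ^ 2) := by
          have e : 2 * W / N0 = W * (1 / N0) + W * (1 / N0) := by ring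
          rw [e, mul_add] at h9
          linarith
        have h11 : 1 / N0 ≤ (EC l Z D (Qz z) : ℝ) / N0 ^ 2 := le_of_mul_le_mul_left h10 hW0
        calc (1 : ℝ) = N0 * (1 / N0) := by field_simp
          _ ≤ _ := by gcongr
    -- the sums
    have hcount : ((S.filter (fun t => CC * N ^ (1 + ε) / y ≤ tor l (K t))).card : ℝ) ≤
        N0 * ∑ t ∈ S, (EC l Z (a * t ^ 2 + b * t + c) (Qz z) : ℝ) / N0 ^ 2 + bad.card := by
      have h1 : ((S.filter (fun t => CC * N ^ (1 + ε) / y ≤ tor l (K t))).card : ℝ) =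
          ∑ t ∈ S.filter (fun t => CC * N ^ (1 + ε) / y ≤ tor l (K t)), (1 : ℝ) := by
        rw [sum_const, nsmul_eq_mul, mul_one]
      have h2 : (bad.card : ℝ) = ∑ t ∈ S, if t ∈ bad then (1 : ℝ) else 0 := by
        rw [← Finset.sum_filter, sum_const, nsmul_eq_mul, mul_one]
        have e : S.filter (fun t => t ∈ bad) = bad := by
          ext t
          rw [mem_filter]
          exact ⟨fun h => h.2, fun h => ⟨(mem_filter.1 h).1, h⟩⟩
        rw [e]
      rw [h1, h2, Finset.mul_sum, ← Finset.sum_add_distrib]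
      calc ∑ t ∈ S.filter (fun t => CC * N ^ (1 + ε) / y ≤ tor l (K t)), (1 : ℝ)
          ≤ ∑ t ∈ S.filter (fun t => CC * N ^ (1 + ε) / y ≤ tor l (K t)),
            (N0 * ((EC l Z (a * t ^ 2 + b * t + c) (Qz z) : ℝ) / N0 ^ 2) +
              if t ∈ bad then 1 else 0) := by
            apply Finset.sum_le_sum
            intro t ht
            rw [mem_filter] at ht
            exact hpt t ht.1 ht.2
        _ ≤ _ := by
            apply Finset.sum_le_sum_of_subset_of_nonneg (filter_subset _ _)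
            intro t _ _
            split_ifs <;> positivity
    have hs2 : N0 * ∑ t ∈ S, (EC l Z (a * t ^ 2 + b * t + c) (Qz z) : ℝ) / N0 ^ 2 ≤
        C3 * F * (y ^ (l + 1) / N) := by
      have h1 := hC3 N hN z hzD S (fun t ht => by
        have h4 := (hS t ht).1
        have h5 := quad_lower a b c ha t (hbc.trans h4.1)
        refine ⟨?_, by linarith⟩
        have h6 : N ^ 2 ≤ |(t : ℝ)| ^ 2 := by
          have := h4.1
          gcongr
        have h7 := abs_nonneg (((a * t ^ 2 + b * t + c : ℤ) : ℝ))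
        linarith)
      have h2 : ((z : ℝ) ^ l) ^ ε2 ≤ F := by
        calc ((z : ℝ) ^ l) ^ ε2 ≤ (N ^ l) ^ ε2 := by
              have : (z : ℝ) ≤ N := hzy.trans hyN
              gcongr
          _ = F := by
              rw [← Real.rpow_natCast, ← Real.rpow_mul hN0.le, hε2l]
      have h4 : (z : ℝ) ^ l / N ≤ y ^ l / N := by gcongr
      have h5 : ∑ t ∈ S, (EC l Z (a * t ^ 2 + b * t + c) (Qz z) : ℝ) / N0 ^ 2 ≤
          C3 * F * (y ^ l / N) := by
        rw [← Finset.sum_div, div_le_iff₀ (by positivity)]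
        refine h1.trans ?_
        calc C3 * ((Qz z).card : ℝ) ^ 2 * ((z : ℝ) ^ l) ^ ε2 * ((z : ℝ) ^ l / N)
            ≤ C3 * ((Qz z).card : ℝ) ^ 2 * F * (y ^ l / N) := by gcongr
          _ = C3 * F * (y ^ l / N) * N0 ^ 2 := by rw [hN0d]; ring
      calc N0 * ∑ t ∈ S, (EC l Z (a * t ^ 2 + b * t + c) (Qz z) : ℝ) / N0 ^ 2
          ≤ y * (C3 * F * (y ^ l / N)) := by
            apply mul_le_mul (hN0z.trans hzy) h5 _ hy0.le
            exact Finset.sum_nonneg fun t _ => by positivity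
        _ = _ := by rw [pow_succ]; ring
    have hs3 : (bad.card : ℝ) ≤ C4 * F := by
      set X : ℝ := G * N ^ 2 with hX
      have hFc : 2 * X ≤ (⌈2 * X⌉₊ : ℝ) := Nat.le_ceil _
      have hFc3 : (⌈2 * X⌉₊ : ℝ) ≤ 3 * X := by
        have := Nat.ceil_lt_add_one (a := 2 * X) (by linarith)
        linarith
      have h8 : 8 ≤ (Qz z).card := by
        have h9 : (8 : ℝ) ≤ ((Qz z).card : ℝ) := by
          rw [← hN0d]
          have : 0 ≤ Real.log X := Real.log_nonneg hGN1
          linarith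
        exact_mod_cast h9
      have h1 := bad_count_t a b c ha z ⌈2 * X⌉₊ m X hGN1 hFc hlogN h8 S K (fun t ht =>
        ⟨by linarith [hup t ht], (hS t ht).2⟩)
      refine h1.trans ?_
      have hyε : y / N ^ ε1 ≤ N0 := by
        refine le_trans ?_ hz
        rw [Real.rpow_sub hy0, Real.rpow_one]
        have hyp : 0 < y ^ ε1 := Real.rpow_pos_of_pos hy0 _
        have hyy : y ^ ε1 ≤ N ^ ε1 := Real.rpow_le_rpow hy0.le hyN hε10.le
        gcongr
      have hXε : 0 < N ^ ε1 := Real.rpow_pos_of_pos hN0 _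
      have hN0m : y ^ m / F ≤ N0 ^ m := by
        calc y ^ m / F ≤ y ^ m / (N ^ ε1) ^ m := by
              apply div_le_div_of_nonneg_left (by positivity) (by positivity)
              rw [← Real.rpow_natCast, ← Real.rpow_mul hN0.le, hF]
              apply Real.rpow_le_rpow_of_exponent_le hN
              linarith
          _ = (y / N ^ ε1) ^ m := by rw [div_pow]
          _ ≤ N0 ^ m := by gcongr
      have hN0mp : 0 < N0 ^ m := by positivity
      have hym : N ^ 4 ≤ y ^ m := by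
        calc N ^ 4 = N ^ (4 : ℝ) := by norm_cast
          _ ≤ N ^ (κ * m) := Real.rpow_le_rpow_of_exponent_le hN hκm
          _ = (N ^ κ) ^ m := by rw [Real.rpow_mul hN0.le, Real.rpow_natCast]
          _ ≤ y ^ m := by
              have : 0 ≤ N ^ κ := by positivity
              gcongr
      have hzm : (z : ℝ) ^ m ≤ y ^ m := by gcongr
      have hq : ((z : ℝ) ^ m + (⌈2 * X⌉₊ : ℝ) ^ 2) / N0 ^ m ≤ (1 + 9 * G ^ 2) * F := by
        rw [div_le_iff₀ hN0mp]
        have h2 : y ^ m ≤ F * N0 ^ m := by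
          rw [div_le_iff₀ (by positivity)] at hN0m
          linarith
        have h3 : (⌈2 * X⌉₊ : ℝ) ^ 2 ≤ 9 * G ^ 2 * N ^ 4 := by
          calc (⌈2 * X⌉₊ : ℝ) ^ 2 ≤ (3 * X) ^ 2 := by gcongr
            _ = 9 * G ^ 2 * N ^ 4 := by rw [hX]; ring
        have h4 : 9 * G ^ 2 * N ^ 4 ≤ 9 * G ^ 2 * y ^ m := by gcongr
        calc (z : ℝ) ^ m + (⌈2 * X⌉₊ : ℝ) ^ 2 ≤ y ^ m + 9 * G ^ 2 * y ^ m := by linarith
          _ = (1 + 9 * G ^ 2) * y ^ m := by ring
          _ ≤ (1 + 9 * G ^ 2) * (F * N0 ^ m) := by gcongr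
          _ = _ := by ring
      calc 2 * (96 * ((m.factorial : ℝ) * 8 ^ m) * (((z : ℝ) ^ m + (⌈2 * X⌉₊ : ℝ) ^ 2) / N0 ^ m))
          ≤ 2 * (96 * ((m.factorial : ℝ) * 8 ^ m) * ((1 + 9 * G ^ 2) * F)) := by gcongr
        _ = C4 * F := by rw [hC4d]; ring
    refine hcount.trans ((add_le_add hs2 hs3).trans ?_)
    have h1 : C3 ≤ CC := by rw [hCC]; linarith
    have h2 : C4 ≤ CC := by rw [hCC]; linarith
    calc C3 * F * (y ^ (l + 1) / N) + C4 * F
        ≤ CC * F * (y ^ (l + 1) / N) + CC * F := by gcongr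
      _ = CC * F * (1 + y ^ (l + 1) / N) := by ring

end Pool.Agent.V146.QT
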